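import Pool.Agent.MDSM.FromExt
import Pool.Agent.MDS.DescentMain

set_option autoImplicit false

open Complex Filter Topology MeasureTheory Set
open Pool.Agent.TubeDS Pool.Agent.MDS

namespace Pool.Agent.MDSM

/-- The dictionary between continuation and asymptotics, for each real point. -/
theorem dictionary (k M : ℕ) (σ : Fin k → ℝ) {θ : ℝ} (hθ : 0 ≤ θ) :
    [∀ c > θ, ExtendsTo k M (σ, c), ∀ c > θ, Asymp k M σ c, ∀ c > θ, MeanAsymp k M σ c].TFAE := by
  tfae_have 1 → 2 := by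
    intro h c hc
    obtain ⟨θ', h1, h2, h3⟩ := exists_good_exponent σ hc
    exact (asymp_of_extendsTo (by linarith) h3 (h θ' h1)).mono h2.le
  tfae_have 1 → 3 := by
    intro h c hc
    obtain ⟨θ', h1, h2, h3⟩ := exists_good_exponent σ hc
    exact (meanAsymp_of_extendsTo (by linarith) h3 (h θ' h1)).mono h2.le
  tfae_have 2 → 1 := by
    intro h c hc
    exact ((h ((2 * θ + c) / 3) (by linarith)).weak (θ' := (θ + 2 * c) / 3) (by linarith)).extendsTo
      (by linarith)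
  tfae_have 3 → 1 := by
    intro h c hc
    exact ((h ((2 * θ + c) / 3) (by linarith)).weak (θ' := (θ + 2 * c) / 3) (by linarith)).extendsTo
      (by linarith)
  tfae_finish

/-- extending to a point means extending to nearby points -/
theorem ExtendsTo.lower {k M : ℕ} {σ : Fin k → ℝ} {c : ℝ} (h : ExtendsTo k M (σ, c)) :
    ∃ ε > 0, ∀ c', c - ε < c' → c' ≤ c → ExtendsTo k M (σ, c') := by
  obtain ⟨Ω, h1, h2, h3, h4, G, h5, h6⟩ := h
  have hcont : Continuous (fun u : ℝ => ((σ, u) : (Fin k → ℝ) × ℝ)) := by fun_prop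
  obtain ⟨ε, hε, hball⟩ := Metric.isOpen_iff.mp (h1.preimage hcont) c h4
  refine ⟨ε, hε, fun c' hc1 hc2 => ⟨Ω, h1, h2, h3, hball ?_, G, h5, h6⟩⟩
  rw [Metric.mem_ball, Real.dist_eq, abs_sub_comm, abs_of_nonneg (by linarith)]
  linarith

theorem half_ne_theta {k : ℕ} {θ : ℝ} (hθ : θ < 1) (J : Finset (Fin k)) :
    1 - ∑ j ∈ J, (((fun _ => 1 / 2 : Fin k → ℝ) j) - 1 / 2) ≠ θ := by
  simp only [sub_self, Finset.sum_const_zero, sub_zero]
  exact fun h => absurd h hθ.ne'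

theorem continues_tfae (k M : ℕ) :
    [Continues k M, ∃ θ < 1, Asymp k M (fun _ => 1 / 2) θ,
      ∃ θ < 1, MeanAsymp k M (fun _ => 1 / 2) θ].TFAE := by
  have hlow : Continues k M → ∃ θ, 0 < θ ∧ θ < 1 ∧ ExtendsTo k M (fun _ => 1 / 2, θ) := by
    intro h
    obtain ⟨ε, hε, hc⟩ := ExtendsTo.lower (continues_iff.mp h)
    refine ⟨max (1 / 2) (1 - ε / 2), lt_max_of_lt_left (by norm_num), max_lt (by norm_num) (by linarith),
      hc _ ?_ (max_le (by norm_num) (by linarith))⟩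
    exact lt_of_lt_of_le (by linarith) (le_max_right _ _)
  tfae_have 1 → 2 := by
    intro h
    obtain ⟨θ, h0, h1, he⟩ := hlow h
    exact ⟨θ, h1, asymp_of_extendsTo h0 (half_ne_theta h1) he⟩
  tfae_have 1 → 3 := by
    intro h
    obtain ⟨θ, h0, h1, he⟩ := hlow h
    exact ⟨θ, h1, meanAsymp_of_extendsTo h0 (half_ne_theta h1) he⟩
  tfae_have 2 → 1 := by
    rintro ⟨θ, h1, h⟩
    exact continues_iff.mpr ((h.weak (θ' := (θ + 1) / 2) (by linarith)).extendsTo (by linarith))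
  tfae_have 3 → 1 := by
    rintro ⟨θ, h1, h⟩
    exact continues_iff.mpr ((h.weak (θ' := (θ + 1) / 2) (by linarith)).extendsTo (by linarith))
  tfae_finish

theorem continues_of_meanAsymp {k M : ℕ} (hk : 2 ≤ k) {σ : Fin k → ℝ} {θ : ℝ}
    (hw : θ + (∑ j, (σ j - 1 / 2)) / 2 < 1) (h : MeanAsymp k M σ θ) : Continues k M := by
  set w := 1 - (θ + (∑ j, (σ j - 1 / 2)) / 2) with hwd
  have hw0 : 0 < w := by rw [hwd]; linarith
  have h1 : ExtendsTo k M (σ, θ + w) :=
    (h.weak (θ' := θ + w / 2) (by linarith)).extendsTo (by linarith)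
  refine continues_iff.mpr (h1.center hk ?_)
  unfold weight
  simp only
  rw [hwd]
  linarith

/-- For `k ≥ 2`, asymptotics at a single real vector `σ` with error exponent below
`1 - (1/2) ∑ (σ_j - 1/2)` suffice. -/
theorem continues_iff_exists {k : ℕ} (hk : 2 ≤ k) (M : ℕ) :
    Continues k M ↔ ∃ (σ : Fin k → ℝ) (θ : ℝ), θ + (∑ j, (σ j - 1 / 2)) / 2 < 1 ∧ MeanAsymp k M σ θ := by
  constructor
  · intro h
    obtain ⟨θ, h1, h2⟩ := ((continues_tfae k M).out 0 2).mp h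
    exact ⟨fun _ => 1 / 2, θ, by simpa using h1, h2⟩
  · rintro ⟨σ, θ, hw, h⟩
    exact continues_of_meanAsymp hk hw h

theorem q1_iff : (∀ k M : ℕ, 1 ≤ k → 1 ≤ M → Continues k M) ↔
    ∀ k₀ : ℕ, ∃ k ≥ k₀, ∃ (σ : Fin k → ℝ) (θ : ℝ), θ + (∑ j, (σ j - 1 / 2)) / 2 < 1 ∧
      MeanAsymp k 1 σ θ := by
  constructor
  · intro h k₀
    exact ⟨k₀ + 2, by omega, (continues_iff_exists (by omega) 1).mp (h (k₀ + 2) 1 (by omega) le_rfl)⟩
  · intro h k M hk hM
    obtain ⟨k', hk', hx⟩ := h (k + 2)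
    have h3 : Continues k' 1 := (continues_iff_exists (by omega) 1).mpr hx
    exact (continuesUniformly_of_succ (h3.descend le_rfl (by omega : k + 1 ≤ k'))).continues M hM

end Pool.Agent.MDSM
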