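import Pool.Agent.MDSM.Riesz
import Pool.Agent.TubeDS.Param

/-!
# From the asymptotics of a Riesz mean to the continuation of the Dirichlet series
-/

set_option autoImplicit false

open MeasureTheory Filter Topology Complex Set

namespace Pool.Agent.MDSM

open Polynomial in
theorem norm_poly_le {m : ℕ} {p : ℂ[X]} (hp : p.degree < m) {c b r : ℝ} (hr : |c| + m ≤ r)
    (hb : ∀ l : ℕ, l < m → ‖p.eval ((c : ℂ) + l * I)‖ ≤ b) (w : ℂ) :
    ‖p.eval w‖ ≤ m * b * ((1 + ‖w‖) * (1 + r)) ^ m := by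
  classical
  set v : ℕ → ℂ := fun l => (c : ℂ) + l * I with hv
  have hinj : Function.Injective v := by
    intro l l' h
    have := congrArg Complex.im h
    simp [hv] at this
    exact this
  have hr0 : 0 ≤ r := le_trans (by positivity) hr
  have h1 := Lagrange.eq_interpolate (s := Finset.range m) (v := v) hinj.injOn (by simpa using hp)
  have h2 : p.eval w = ∑ l ∈ Finset.range m, p.eval (v l) * (Lagrange.basis (Finset.range m) v l).eval w := by
    conv_lhs => rw [h1]
    rw [Lagrange.interpolate_apply, eval_finsetSum]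
    simp
  have h3 : ∀ l ∈ Finset.range m, ‖(Lagrange.basis (Finset.range m) v l).eval w‖ ≤ ((1 + ‖w‖) * (1 + r)) ^ m := by
    intro l hl
    rw [Lagrange.basis, eval_prod, norm_prod]
    have h4 : ∀ j ∈ (Finset.range m).erase l, ‖(Lagrange.basisDivisor (v l) (v j)).eval w‖ ≤ (1 + ‖w‖) * (1 + r) := by
      intro j hj
      rw [Finset.mem_erase, Finset.mem_range] at hj
      simp only [Lagrange.basisDivisor, eval_mul, eval_C, eval_sub, eval_X]
      rw [norm_mul, norm_inv]
      have h5 : 1 ≤ ‖v l - v j‖ := by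
        have h6 : v l - v j = (((l : ℤ) - (j : ℤ) : ℤ) : ℂ) * I := by
          simp only [hv]; push_cast; ring
        rw [h6, norm_mul, norm_I, mul_one, Complex.norm_intCast]
        have h7 : (l : ℤ) - (j : ℤ) ≠ 0 := by
          intro h; apply hj.1; omega
        exact_mod_cast Int.one_le_abs h7
      have h6 : ‖v l - v j‖⁻¹ ≤ 1 := inv_le_one_of_one_le₀ h5
      have h7 : ‖v j‖ ≤ r := by
        refine le_trans ?_ hr
        simp only [hv]
        refine (norm_add_le _ _).trans ?_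
        rw [norm_mul, norm_I, mul_one, Complex.norm_real, Real.norm_eq_abs, Complex.norm_natCast]
        have : (j : ℝ) ≤ m := by exact_mod_cast hj.2.le
        linarith
      have h8 : ‖w - v j‖ ≤ ‖w‖ + r := (norm_sub_le _ _).trans (by linarith)
      have h9 := norm_nonneg w
      calc ‖v l - v j‖⁻¹ * ‖w - v j‖ ≤ 1 * (‖w‖ + r) := by gcongr
        _ ≤ (1 + ‖w‖) * (1 + r) := by nlinarith
    refine (Finset.prod_le_prod (fun _ _ => norm_nonneg _) h4).trans ?_
    rw [Finset.prod_const]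
    apply pow_le_pow_right₀
    · have h9 := norm_nonneg w
      nlinarith
    · exact (Finset.card_le_card (Finset.erase_subset _ _)).trans (by simp)
  rw [h2]
  refine (norm_sum_le _ _).trans ?_
  calc ∑ l ∈ Finset.range m, ‖p.eval (v l) * (Lagrange.basis (Finset.range m) v l).eval w‖
      ≤ ∑ l ∈ Finset.range m, b * ((1 + ‖w‖) * (1 + r)) ^ m := by
        refine Finset.sum_le_sum fun l hl => ?_
        rw [norm_mul]
        have h5 := hb l (Finset.mem_range.mp hl)
        have h6 := h3 l hl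
        have h7 : 0 ≤ b := (norm_nonneg _).trans h5
        exact mul_le_mul h5 h6 (norm_nonneg _) h7
    _ = _ := by simp; ring

/-- the reciprocal of the Mellin transform of the Riesz kernel, a polynomial -/
noncomputable def gRi (R : ℕ) (w : ℂ) : ℂ := (∏ j ∈ Finset.range (R + 1), (w + j)) / R.factorial

theorem gRi_mul (R : ℕ) {w : ℂ} (hw : 0 < w.re) : gRi R w * gR R w = 1 := by
  have h := gR_ne_zero R hw
  unfold gRi
  unfold gR at h ⊢
  have h1 : (R.factorial : ℂ) ≠ 0 := by exact_mod_cast R.factorial_ne_zero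
  have h2 : ∏ j ∈ Finset.range (R + 1), (w + j) ≠ 0 := by
    intro h3; rw [h3] at h; simp at h
  field_simp

theorem differentiable_gRi (R : ℕ) : Differentiable ℂ (gRi R) := by
  unfold gRi
  apply Differentiable.div_const
  apply Differentiable.fun_finsetProd
  intro j _
  fun_prop

theorem norm_gRi_le (R : ℕ) (w : ℂ) : ‖gRi R w‖ ≤ ((1 + ‖w‖) * (1 + R)) ^ (R + 1) := by
  unfold gRi
  rw [norm_div, norm_prod, Complex.norm_natCast]
  have h1 : (1 : ℝ) ≤ R.factorial := by exact_mod_cast R.factorial_pos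
  refine (div_le_self (Finset.prod_nonneg fun _ _ => norm_nonneg _) h1).trans ?_
  calc ∏ j ∈ Finset.range (R + 1), ‖w + j‖ ≤ ∏ _j ∈ Finset.range (R + 1), ((1 + ‖w‖) * (1 + R)) := by
        refine Finset.prod_le_prod (fun _ _ => norm_nonneg _) fun j hj => ?_
        refine (norm_add_le _ _).trans ?_
        rw [Complex.norm_natCast]
        have h2 : (j : ℝ) ≤ R := by
          have := Finset.mem_range.mp hj
          exact_mod_cast (by omega : j ≤ R)
        have h3 := norm_nonneg w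
        have h4 : (0 : ℝ) ≤ R := Nat.cast_nonneg R
        nlinarith [mul_nonneg h3 h4]
    _ = _ := by simp

variable {J : Type*} [Fintype J]

/-- the main term, as a function of `u = 1 / X` -/
noncomputable def MTm (lam c : J → ℂ) (u : ℝ) : ℂ :=
  ∑ j, c j * (Ioc (0 : ℝ) 1).indicator (fun t : ℝ => (t : ℂ) ^ (-(lam j))) u

/-- the error term, as a function of `u = 1 / X` -/
noncomputable def Err (a : ℕ → ℂ) (R : ℕ) (lam c : J → ℂ) (u : ℝ) : ℂ := RZ a R u - MTm lam c u

theorem hasMellin_MTm (lam c : J → ℂ) {w : ℂ} (hw : ∀ j, (lam j).re < w.re) :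
    HasMellin (MTm lam c) w (∑ j, c j / (w - lam j)) := by
  classical
  have h : ∀ s : Finset J, HasMellin (fun u : ℝ => ∑ j ∈ s, c j * (Ioc (0 : ℝ) 1).indicator (fun t : ℝ => (t : ℂ) ^ (-(lam j))) u) w
      (∑ j ∈ s, c j / (w - lam j)) := by
    intro s
    induction s using Finset.induction_on with
    | empty =>
      simp only [Finset.sum_empty]
      constructor
      · unfold MellinConvergent; simp
      · unfold mellin; simp
    | insert j s hj ih =>
      simp only [Finset.sum_insert hj]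
      have h1 := hasMellin_cpow_Ioc (-(lam j)) (s := w) (by
        have := hw j
        simp only [neg_re]
        linarith)
      have h2 := hasMellin_const_smul h1.1 (c j)
      have h3 := hasMellin_add h2.1 ih.1
      rw [h2.2, h1.2, ih.2] at h3
      simp only [smul_eq_mul] at h3
      have e : c j * (1 / (w + -lam j)) = c j / (w - lam j) := by
        rw [← sub_eq_add_neg, mul_one_div]
      rw [e] at h3
      exact h3
  exact h Finset.univ

theorem Err_zero {a : ℕ → ℂ} (ha0 : a 0 = 0) (R : ℕ) (lam c : J → ℂ) {u : ℝ} (hu : 1 < u) :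
    Err a R lam c u = 0 := by
  unfold Err MTm
  have h1 : RZ a R u = 0 := by
    rw [RZ_eq_sum (N := 1) (by simpa using hu) (by linarith)]
    simp [ha0]
  rw [h1]
  have h2 : u ∉ Ioc (0 : ℝ) 1 := fun h => absurd h.2 (not_le.mpr hu)
  simp [indicator_of_notMem h2]

/-- the Mellin transform of the error term -/
noncomputable def Vt (f : ℝ → ℂ) (w : ℂ) : ℂ :=
  ∫ u : ℝ, (Ioc (0 : ℝ) 1).indicator (fun u : ℝ => (u : ℂ) ^ (w - 1) * f u) u

theorem Vt_eq_mellin {f : ℝ → ℂ} (hf : ∀ u, 1 < u → f u = 0) (w : ℂ) : Vt f w = mellin f w := by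
  unfold Vt mellin
  rw [integral_indicator measurableSet_Ioc]
  symm
  apply setIntegral_eq_of_subset_of_forall_sdiff_eq_zero measurableSet_Ioi Ioc_subset_Ioi_self
  rintro u ⟨hu1, hu2⟩
  have : 1 < u := by
    by_contra h
    exact hu2 ⟨hu1, not_lt.mp h⟩
  simp [hf u this]

theorem Vt_bound {f : ℝ → ℂ} {θ B : ℝ} (hfi : MellinConvergent f θ)
    (hB : ∫ u in Ioi (0 : ℝ), ‖(u : ℂ) ^ ((θ : ℂ) - 1) • f u‖ ≤ B) :
    DifferentiableOn ℂ (Vt f) {w | θ < w.re} ∧ ∀ w : ℂ, θ ≤ w.re → ‖Vt f w‖ ≤ B := by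
  set g : ℝ → ℝ := (Ioc (0 : ℝ) 1).indicator (fun u : ℝ => ‖(u : ℂ) ^ ((θ : ℂ) - 1) • f u‖) with hg
  have hgint : Integrable g := by
    rw [hg, integrable_indicator_iff measurableSet_Ioc]
    exact (hfi.mono_set Ioc_subset_Ioi_self).norm
  have hgB : ∫ u, g u ≤ B := by
    rw [hg, integral_indicator measurableSet_Ioc]
    refine le_trans (setIntegral_mono_set hfi.norm (Filter.Eventually.of_forall fun u => norm_nonneg _)
      Ioc_subset_Ioi_self.eventuallyLE) hB
  have hpt : ∀ w : ℂ, θ ≤ w.re → ∀ u : ℝ,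
      ‖(Ioc (0 : ℝ) 1).indicator (fun u : ℝ => (u : ℂ) ^ (w - 1) * f u) u‖ ≤ g u := by
    intro w hw u
    by_cases hu : u ∈ Ioc (0 : ℝ) 1
    · rw [indicator_of_mem hu, hg, indicator_of_mem hu, norm_mul, norm_smul,
        norm_cpow_eq_rpow_re_of_pos hu.1, norm_cpow_eq_rpow_re_of_pos hu.1]
      apply mul_le_mul_of_nonneg_right _ (norm_nonneg _)
      apply Real.rpow_le_rpow_of_exponent_ge hu.1 hu.2
      simpa using hw
    · rw [indicator_of_notMem hu, hg, indicator_of_notMem hu, norm_zero]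
  have hmeas : ∀ w : ℂ, AEStronglyMeasurable
      (fun u : ℝ => (Ioc (0 : ℝ) 1).indicator (fun u : ℝ => (u : ℂ) ^ (w - 1) * f u) u) volume := by
    intro w
    rw [aestronglyMeasurable_indicator_iff measurableSet_Ioc]
    have h1 : AEStronglyMeasurable (fun u : ℝ => (u : ℂ) ^ ((θ : ℂ) - 1) • f u) (volume.restrict (Ioc 0 1)) :=
      (hfi.mono_set Ioc_subset_Ioi_self).aestronglyMeasurable
    have h2 : AEStronglyMeasurable (fun u : ℝ => (u : ℂ) ^ (w - θ)) (volume.restrict (Ioc 0 1)) := by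
      refine ContinuousOn.aestronglyMeasurable ?_ measurableSet_Ioc
      intro u hu
      apply ContinuousAt.continuousWithinAt
      exact continuousAt_ofReal_cpow_const u (w - θ) (Or.inr hu.1.ne')
    refine (h2.mul h1).congr ?_
    filter_upwards [ae_restrict_mem measurableSet_Ioc] with u hu
    have hu0 : (u : ℂ) ≠ 0 := by exact_mod_cast hu.1.ne'
    simp only [Pi.mul_apply, smul_eq_mul]
    rw [← mul_assoc, ← cpow_add _ _ hu0]
    congr 2; ring
  constructor
  · unfold Vt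
    have hopen : IsOpen {w : ℂ | θ < w.re} := isOpen_lt continuous_const continuous_re
    apply Pool.Agent.TubeDS.differentiableOn_integral_of_dominated hopen
    · intro w _; exact hmeas w
    · intro u w hw
      by_cases hu : u ∈ Ioc (0 : ℝ) 1
      · simp only [indicator_of_mem hu]
        have hu0 : (u : ℂ) ≠ 0 := by exact_mod_cast hu.1.ne'
        apply DifferentiableAt.differentiableWithinAt
        exact (DifferentiableAt.const_cpow (by fun_prop) (Or.inl hu0)).mul_const _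
      · simp only [indicator_of_notMem hu]
        exact differentiableWithinAt_const _
    · intro w hw
      refine ⟨1, one_pos, g, hgint, fun z _ hz u => hpt z (le_of_lt hz) u⟩
  · intro w hw
    refine (norm_integral_le_of_norm_le hgint (Filter.Eventually.of_forall fun u => hpt w hw u)).trans hgB

open Polynomial in
/-- the polynomial part -/
noncomputable def pp (lam c : J → ℂ) : ℂ[X] :=
  letI := Classical.decEq J
  ∑ j, C (c j) * ∏ i ∈ Finset.univ.erase j, (X - C (lam i))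

/-- the product of the linear factors -/
noncomputable def qq (lam : J → ℂ) (w : ℂ) : ℂ := ∏ j, (w - lam j)

open Polynomial in
theorem degree_pp (lam c : J → ℂ) : (pp lam c).degree < Fintype.card J := by
  classical
  unfold pp
  refine lt_of_le_of_lt (degree_sum_le _ _) ?_
  rw [Finset.sup_lt_iff (by exact WithBot.bot_lt_coe _)]
  intro j _
  refine lt_of_le_of_lt (degree_mul_le _ _) ?_
  refine lt_of_le_of_lt (add_le_add degree_C_le le_rfl) ?_
  rw [zero_add, degree_prod]
  simp only [degree_X_sub_C, Finset.sum_const, Finset.card_erase_of_mem (Finset.mem_univ _),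
    Finset.card_univ, nsmul_eq_mul, mul_one]
  have : 0 < Fintype.card J := Fintype.card_pos_iff.mpr ⟨j⟩
  exact_mod_cast (by omega : Fintype.card J - 1 < Fintype.card J)

open Polynomial in
theorem eval_pp (lam c : J → ℂ) {w : ℂ} (hw : ∀ j, w - lam j ≠ 0) :
    (pp lam c).eval w = (∑ j, c j / (w - lam j)) * qq lam w := by
  classical
  unfold pp qq
  rw [eval_finsetSum, Finset.sum_mul]
  refine Finset.sum_congr rfl fun j _ => ?_
  rw [eval_mul, eval_C, eval_prod, ← Finset.mul_prod_erase Finset.univ _ (Finset.mem_univ j)]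
  simp only [eval_sub, eval_X, eval_C]
  rw [← mul_assoc, div_mul_cancel₀ _ (hw j)]

theorem norm_qq_le {lam : J → ℂ} {Λ : ℝ} (hΛ : ∀ j, ‖lam j‖ ≤ Λ) (hΛ0 : 0 ≤ Λ) (w : ℂ) :
    ‖qq lam w‖ ≤ ((1 + ‖w‖) * (1 + Λ)) ^ Fintype.card J := by
  unfold qq
  rw [norm_prod]
  calc ∏ j, ‖w - lam j‖ ≤ ∏ _j : J, ((1 + ‖w‖) * (1 + Λ)) := by
        refine Finset.prod_le_prod (fun _ _ => norm_nonneg _) fun j _ => ?_
        refine (norm_sub_le _ _).trans ?_
        have := hΛ j
        have h2 := norm_nonneg w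
        nlinarith [mul_nonneg h2 hΛ0]
    _ = _ := by simp

theorem differentiable_qq (lam : J → ℂ) : Differentiable ℂ (qq lam) := by
  unfold qq
  apply Differentiable.fun_finsetProd
  intro j _
  fun_prop

/-- The core of the converse direction, for a fixed value of the parameters. -/
theorem back_core (J : Type*) [Fintype J] (R : ℕ) {c₁ θ θ' : ℝ} (hc₁ : 0 < c₁) (hθ : θ < θ')
    (hθ' : θ' ≤ c₁) :
    ∃ (C : ℝ) (N : ℕ), 0 ≤ C ∧ ∀ (a : ℕ → ℂ), a 0 = 0 →
      Summable (fun d : ℕ => ‖a d‖ * (d : ℝ) ^ (-c₁)) →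
      ∀ (lam c : J → ℂ) (Λ B : ℝ), 0 ≤ Λ → (∀ j, ‖lam j‖ ≤ Λ) → (∀ j, (lam j).re < c₁) →
      MellinConvergent (Err a R lam c) θ →
      ∫ u in Ioi (0 : ℝ), ‖(u : ℂ) ^ ((θ : ℂ) - 1) • Err a R lam c u‖ ≤ B →
      ∃ Φ : ℂ → ℂ, DifferentiableOn ℂ Φ {w | θ' ≤ w.re ∧ w.re ≤ c₁} ∧
        (∀ v : ℝ, Φ (c₁ + v * I) = DS a (c₁ + v * I) * qq lam (c₁ + v * I)) ∧
        ∀ w : ℂ, θ' ≤ w.re → w.re ≤ c₁ →
          ‖Φ w‖ ≤ C * ((∑' d : ℕ, ‖a d‖ * (d : ℝ) ^ (-c₁)) + B) * (1 + Λ) ^ Fintype.card J *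
            (1 + |w.im|) ^ N := by
  set m := Fintype.card J with hm
  set g₁ : ℝ := R.factorial * ((min c₁ 1 / 2) ^ (R + 1))⁻¹ with hg₁
  have hg₁0 : 0 ≤ g₁ := by positivity
  set r : ℝ := |c₁| + m with hr
  have hr0 : 0 ≤ r := by positivity
  set r' : ℝ := |θ'| + |c₁| with hr'
  have hr'0 : 0 ≤ r' := by positivity
  refine ⟨((1 + r') * (1 + R)) ^ (R + 1) * (m * ((g₁ + 1) * (1 + r) ^ m) * ((1 + r') * (1 + r)) ^ m + (1 + r') ^ m),
    (R + 1) + m, by positivity, ?_⟩
  intro a ha0 hs lam c Λ B hΛ0 hΛ hre hconv hB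
  set S₁ : ℝ := ∑' d : ℕ, ‖a d‖ * (d : ℝ) ^ (-c₁) with hS₁
  have hS₁0 : 0 ≤ S₁ := tsum_nonneg fun d => by positivity
  have hB0 : 0 ≤ B := (integral_nonneg fun u => norm_nonneg _).trans hB
  obtain ⟨hVd, hVb⟩ := Vt_bound hconv hB
  set V := Vt (Err a R lam c) with hV
  -- on the line of absolute convergence
  have hne : ∀ (v : ℝ) j, (c₁ + v * I : ℂ) - lam j ≠ 0 := by
    intro v j h
    have := congrArg Complex.re h
    simp at this
    have := hre j
    linarith
  have hVline : ∀ v : ℝ, V (c₁ + v * I) = DS a (c₁ + v * I) * gR R (c₁ + v * I) -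
      ∑ j, c j / ((c₁ + v * I : ℂ) - lam j) := by
    intro v
    rw [hV, Vt_eq_mellin (fun u hu => Err_zero ha0 R lam c hu)]
    have h1 := hasMellin_RZ ha0 R (w := c₁ + v * I) (by simpa using hc₁) (by simpa using hs)
    have h2 := hasMellin_MTm lam c (w := c₁ + v * I) (by simpa using hre)
    have h3 := hasMellin_sub h1.1 h2.1
    rw [h1.2, h2.2] at h3
    exact h3.2
  have hPline : ∀ v : ℝ, (pp lam c).eval (c₁ + v * I : ℂ) =
      (DS a (c₁ + v * I) * gR R (c₁ + v * I) - V (c₁ + v * I)) * qq lam (c₁ + v * I) := by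
    intro v
    rw [eval_pp lam c (hne v), hVline]
    ring
  have hgline : ∀ v : ℝ, ‖gR R (c₁ + v * I)‖ ≤ g₁ := by
    intro v
    refine (norm_gR_le R hc₁ (w := c₁ + v * I) (by simp)).trans ?_
    rw [hg₁]
    have h1 : min c₁ 1 / 2 ≤ min c₁ 1 / 2 * (1 + |(c₁ + v * I : ℂ).im|) := by
      have h2 : 0 < min c₁ 1 / 2 := by positivity
      have h3 := abs_nonneg (c₁ + v * I : ℂ).im
      nlinarith
    gcongr
  have hpts : ∀ l : ℕ, l < m → ‖(pp lam c).eval ((c₁ : ℂ) + l * I)‖ ≤
      (g₁ * S₁ + B) * ((1 + r) * (1 + Λ)) ^ m := by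
    intro l hl
    have h1 := hPline (l : ℝ)
    push_cast at h1
    rw [h1, norm_mul]
    have h2 : ‖(c₁ : ℂ) + l * I‖ ≤ r := by
      refine (norm_add_le _ _).trans ?_
      rw [norm_mul, norm_I, mul_one, Complex.norm_real, Real.norm_eq_abs, Complex.norm_natCast, hr]
      have : (l : ℝ) ≤ m := by exact_mod_cast hl.le
      linarith
    have h3 : ‖qq lam ((c₁ : ℂ) + l * I)‖ ≤ ((1 + r) * (1 + Λ)) ^ m := by
      refine (norm_qq_le hΛ hΛ0 _).trans ?_
      gcongr
    have h4 : ‖DS a ((c₁ : ℂ) + l * I)‖ ≤ S₁ := norm_DS_le hs ha0 (by simp)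
    have h5 : ‖gR R ((c₁ : ℂ) + l * I)‖ ≤ g₁ := by
      have := hgline (l : ℝ)
      push_cast at this
      exact this
    have h6 : ‖V ((c₁ : ℂ) + l * I)‖ ≤ B := hVb _ (by simp; linarith)
    refine mul_le_mul ?_ h3 (norm_nonneg _) (by positivity)
    refine (norm_sub_le _ _).trans ?_
    rw [norm_mul]
    have h7 : ‖DS a ((c₁ : ℂ) + l * I)‖ * ‖gR R ((c₁ : ℂ) + l * I)‖ ≤ S₁ * g₁ :=
      mul_le_mul h4 h5 (norm_nonneg _) hS₁0
    linarith
  have hP : ∀ w : ℂ, ‖(pp lam c).eval w‖ ≤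
      m * ((g₁ * S₁ + B) * ((1 + r) * (1 + Λ)) ^ m) * ((1 + ‖w‖) * (1 + r)) ^ m := fun w =>
    norm_poly_le (degree_pp lam c) le_rfl hpts w
  refine ⟨fun w => gRi R w * ((pp lam c).eval w + V w * qq lam w), ?_, ?_, ?_⟩
  · have h1 : DifferentiableOn ℂ V {w | θ' ≤ w.re ∧ w.re ≤ c₁} :=
      hVd.mono fun w hw => lt_of_lt_of_le hθ hw.1
    exact (differentiable_gRi R).differentiableOn.mul
      ((pp lam c).differentiable.differentiableOn.add (h1.mul (differentiable_qq lam).differentiableOn))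
  · intro v
    simp only
    rw [hPline]
    have h1 := gRi_mul R (w := c₁ + v * I) (by simpa using hc₁)
    linear_combination DS a (c₁ + v * I) * qq lam (c₁ + v * I) * h1
  · intro w hw1 hw2
    simp only
    have hwn : 1 + ‖w‖ ≤ (1 + r') * (1 + |w.im|) := by
      have h1 := Complex.norm_le_abs_re_add_abs_im w
      have h2 : |w.re| ≤ r' := by
        rw [hr', abs_le]
        constructor
        · have := neg_abs_le θ'
          have := abs_nonneg c₁
          linarith
        · have := le_abs_self c₁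
          have := abs_nonneg θ'
          linarith
      have h3 := abs_nonneg w.im
      nlinarith [mul_nonneg hr'0 h3]
    have h0 : (1 : ℝ) ≤ 1 + |w.im| := by have := abs_nonneg w.im; linarith
    rw [norm_mul]
    have e1 : ‖gRi R w‖ ≤ ((1 + r') * (1 + R)) ^ (R + 1) * (1 + |w.im|) ^ (R + 1) := by
      refine (norm_gRi_le R w).trans ?_
      rw [← mul_pow]
      apply pow_le_pow_left₀ (by positivity)
      calc (1 + ‖w‖) * (1 + R) ≤ ((1 + r') * (1 + |w.im|)) * (1 + R) := by gcongr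
        _ = _ := by ring
    have e2 : ‖(pp lam c).eval w‖ ≤ m * ((g₁ + 1) * (1 + r) ^ m) * ((1 + r') * (1 + r)) ^ m *
        ((S₁ + B) * (1 + Λ) ^ m * (1 + |w.im|) ^ m) := by
      refine (hP w).trans ?_
      have h1 : g₁ * S₁ + B ≤ (g₁ + 1) * (S₁ + B) := by nlinarith [mul_nonneg hg₁0 hB0]
      calc m * ((g₁ * S₁ + B) * ((1 + r) * (1 + Λ)) ^ m) * ((1 + ‖w‖) * (1 + r)) ^ m
          ≤ m * (((g₁ + 1) * (S₁ + B)) * ((1 + r) * (1 + Λ)) ^ m) *
            ((((1 + r') * (1 + |w.im|))) * (1 + r)) ^ m := by gcongr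
        _ = _ := by simp only [mul_pow]; ring
    have e3 : ‖V w * qq lam w‖ ≤ (1 + r') ^ m * ((S₁ + B) * (1 + Λ) ^ m * (1 + |w.im|) ^ m) := by
      rw [norm_mul]
      calc ‖V w‖ * ‖qq lam w‖ ≤ B * (((1 + r') * (1 + |w.im|)) * (1 + Λ)) ^ m := by
            apply mul_le_mul (hVb w (by linarith)) _ (norm_nonneg _) hB0
            refine (norm_qq_le hΛ hΛ0 w).trans ?_
            gcongr
        _ ≤ (S₁ + B) * (((1 + r') * (1 + |w.im|)) * (1 + Λ)) ^ m := by
            gcongr; linarith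
        _ = _ := by simp only [mul_pow]; ring
    calc ‖gRi R w‖ * ‖(pp lam c).eval w + V w * qq lam w‖
        ≤ (((1 + r') * (1 + R)) ^ (R + 1) * (1 + |w.im|) ^ (R + 1)) *
          (m * ((g₁ + 1) * (1 + r) ^ m) * ((1 + r') * (1 + r)) ^ m *
        ((S₁ + B) * (1 + Λ) ^ m * (1 + |w.im|) ^ m) + (1 + r') ^ m * ((S₁ + B) * (1 + Λ) ^ m * (1 + |w.im|) ^ m)) := by
          apply mul_le_mul e1 ((norm_add_le _ _).trans (add_le_add e2 e3)) (norm_nonneg _) (by positivity)
      _ = _ := by rw [pow_add (1 + |w.im|)]; ring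

end Pool.Agent.MDSM
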