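import Pool.Agent.MDS.Reach

set_option autoImplicit false

open Complex Filter Topology
open Pool.Agent.TubeDS Pool.Agent.MDS

namespace Pool.Agent.MDSM

theorem tm_bound_Q {k : ℕ} (M : ℕ) {d : ℕ} (hd : IsFundDisc d) (h1 : 1 < d) {z : Option (Fin k) → ℂ}
    {x : Option (Fin k) → ℝ} (hx : ∀ o, 1 < x o) (hz : ∀ o, x o ≤ (z o).re) :
    ‖tm k M d z‖ ≤ ((d : ℝ) ^ (x none))⁻¹ * ∏ j : Fin k, zr (x (some j)) := by
  unfold tm
  have hd1 : (1 : ℝ) ≤ d := by exact_mod_cast h1.le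
  rw [norm_mul, norm_mul, norm_prod, norm_cpow_neg (by omega)]
  have e1 := norm_kron_le d M
  have e2 : ∏ j : Fin k, ‖Lc d (z (some j))‖ ≤ ∏ j : Fin k, zr (x (some j)) := by
    refine Finset.prod_le_prod (fun _ _ => norm_nonneg _) fun j _ => ?_
    have h2 : 1 < (z (some j)).re := lt_of_lt_of_le (hx _) (hz _)
    rw [(Lc_spec hd h1).2.1 _ h2]
    exact (norm_L_le h2).trans (zr_anti (hx _) (hz _))
  have e3 : 0 ≤ ∏ j : Fin k, zr (x (some j)) := Finset.prod_nonneg fun j _ => zr_nonneg _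
  have e4 : ((d : ℝ) ^ (z none).re)⁻¹ ≤ ((d : ℝ) ^ (x none))⁻¹ := by
    apply inv_anti₀ (by positivity)
    exact Real.rpow_le_rpow_of_exponent_le hd1 (hz none)
  calc ‖(kron d M : ℂ)‖ * ((d : ℝ) ^ (z none).re)⁻¹ * ∏ j : Fin k, ‖Lc d (z (some j))‖
      ≤ 1 * ((d : ℝ) ^ (x none))⁻¹ * ∏ j : Fin k, zr (x (some j)) := by gcongr
    _ = _ := by ring

/-- the point half way to the boundary -/
noncomputable def hlf {k : ℕ} (x : Option (Fin k) → ℝ) : Option (Fin k) → ℝ := fun o => (1 + x o) / 2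

theorem hlf_gt {k : ℕ} {x : Option (Fin k) → ℝ} (hx : x ∈ Q0 k) : ∀ o, 1 < hlf x o := fun o => by
  have := hx o
  unfold hlf; linarith

theorem hlf_nhds {k : ℕ} {x : Option (Fin k) → ℝ} (hx : x ∈ Q0 k) :
    {y : Option (Fin k) → ℝ | ∀ o, hlf x o < y o} ∈ 𝓝 x := by
  have h : IsOpen {y : Option (Fin k) → ℝ | ∀ o, hlf x o < y o} := by
    have : {y : Option (Fin k) → ℝ | ∀ o, hlf x o < y o} = ⋂ o, {y : Option (Fin k) → ℝ | hlf x o < y o} := by
      ext y; simp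
    rw [this]
    exact isOpen_iInter_of_finite fun o => isOpen_lt continuous_const (continuous_apply o)
  apply h.mem_nhds
  intro o
  have := hx o
  unfold hlf; linarith

theorem summable_FD' {σ : ℝ} (hσ : 1 < σ) : Summable (fun d : FD => (((d : ℕ) : ℝ) ^ σ)⁻¹) :=
  (summable_zr hσ).comp_injective Subtype.val_injective

theorem differentiableOn_E_Q (k M : ℕ) : DifferentiableOn ℂ (E k M) (tube (Q0 k)) := by
  unfold E
  apply differentiableOn_tsum_of_local (isOpen_tube (isOpen_Q0 k))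
  · intro d
    exact (differentiable_tm d.2.1 d.2.2).differentiableOn
  · intro z₀ hz₀
    have hz₀' : (fun o => (z₀ o).re) ∈ Q0 k := hz₀
    refine ⟨_, continuous_rePart.continuousAt.preimage_mem_nhds (hlf_nhds hz₀'),
      fun d : FD => (((d : ℕ) : ℝ) ^ (hlf (fun o => (z₀ o).re) none))⁻¹ *
        ∏ j : Fin k, zr (hlf (fun o => (z₀ o).re) (some j)),
      (summable_FD' (hlf_gt hz₀' none)).mul_right _, ?_⟩
    intro z hz d
    exact tm_bound_Q M d.2.1 d.2.2 (hlf_gt hz₀') fun o => (hz o).le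

theorem polyBdd_E_Q (k M : ℕ) : PolyBdd (Q0 k) (E k M) := by
  apply polyBdd_of_local
  intro x₀ hx₀
  have hsum := (summable_FD' (hlf_gt hx₀ none)).mul_right (∏ j : Fin k, zr (hlf x₀ (some j)))
  refine ⟨_, hlf_nhds hx₀, ∑' d : FD, (((d : ℕ) : ℝ) ^ (hlf x₀ none))⁻¹ *
        ∏ j : Fin k, zr (hlf x₀ (some j)), 0, tsum_nonneg fun d => mul_nonneg (by positivity)
          (Finset.prod_nonneg fun j _ => zr_nonneg _), ?_⟩
  intro z hz
  have h1 : ∀ d : FD, ‖tm k M d z‖ ≤ (((d : ℕ) : ℝ) ^ (hlf x₀ none))⁻¹ *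
        ∏ j : Fin k, zr (hlf x₀ (some j)) := fun d =>
    tm_bound_Q M d.2.1 d.2.2 (hlf_gt hx₀) fun o => (hz o).le
  have h3 : Summable fun d : FD => ‖tm k M d z‖ := Summable.of_nonneg_of_le (fun _ => norm_nonneg _) h1 hsum
  rw [pow_zero, mul_one]
  unfold E
  exact (norm_tsum_le_tsum_norm h3).trans (Summable.tsum_le_tsum h1 h3 hsum)

theorem convex_Q0 (k : ℕ) : Convex ℝ (Q0 k) := by
  intro x hx y hy a b ha hb hab o
  simp only [Pi.add_apply, Pi.smul_apply, smul_eq_mul]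
  have h1 := hx o
  have h2 := hy o
  rcases eq_or_lt_of_le ha with h | h
  · have hb1 : b = 1 := by linarith
    rw [← h, hb1]; linarith
  · nlinarith [mul_lt_mul_of_pos_left h1 h, mul_le_mul_of_nonneg_left h2.le hb]

/-- An extension from `R0` to an open convex set gives a good set. -/
theorem good_of_extension {k M : ℕ} {C : Set (Option (Fin k) → ℝ)} (hCo : IsOpen C) (hCc : Convex ℝ C)
    (hRC : R0 k ⊆ C) {G : (Option (Fin k) → ℂ) → ℂ} (hGd : DifferentiableOn ℂ G (tube C))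
    (hGb : PolyBdd C G) (hGe : Set.EqOn G (Fc k M) (tube (R0 k))) :
    ∃ D, Good k M D ∧ C ⊆ D := by
  have hQd : DifferentiableOn ℂ (Fc k M) (tube (Q0 k)) :=
    (differentiableOn_E_Q k M).mul differentiable_pol.differentiableOn
  have hQb : PolyBdd (Q0 k) (Fc k M) := polyBdd_mul (polyBdd_E_Q k M) (polyBdd_pol _)
  have hUne : (R0 k ∩ Q0 k).Nonempty := by
    obtain ⟨T, hT⟩ := exists_far_single (fun _ : Option (Fin k) => (2 : ℝ))
    refine ⟨_, hT (max T 2) (le_max_left _ _), ?_⟩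
    intro o
    cases o with
    | none => exact lt_of_lt_of_le one_lt_two (le_max_right _ _)
    | some l => exact one_lt_two
  obtain ⟨H, hHd, hHb, hHG, hHQ⟩ := glue hCo hCc (isOpen_Q0 k) (convex_Q0 k) hGd hGb hQd hQb
    ((isOpen_R0 k).inter (isOpen_Q0 k)) hUne (fun u hu => ⟨hRC hu.1, hu.2⟩)
    (fun z hz => hGe hz.1)
  refine ⟨convexHull ℝ (C ∪ Q0 k), ⟨(hCo.union (isOpen_Q0 k)).convexHull, convex_convexHull ℝ _, ?_, ?_,
    H, hHd, hHb, ?_, ?_⟩, ?_⟩
  · exact (hRC.trans Set.subset_union_left).trans (subset_convexHull ℝ _)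
  · exact Set.subset_union_right.trans (subset_convexHull ℝ _)
  · intro z hz
    rw [hHG (show z ∈ tube C from hRC hz), hGe hz]
  · intro z hz
    rw [hHQ hz, F_eq_Fc hz]
  · exact Set.subset_union_left.trans (subset_convexHull ℝ _)

end Pool.Agent.MDSM
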