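import Pool.Agent.MDS.ReachDefs

/-!
# Smoothed moments of quadratic `L`-functions
-/

set_option autoImplicit false

open Complex MeasureTheory
open Pool.Agent.MDS

namespace Pool.Agent.MDSM

/-- The entire function which continues `L(s, χ_d)`, for a fundamental discriminant `d > 1`. -/
noncomputable def Lent (d : ℕ) : ℂ → ℂ :=
  Classical.epsilon fun f => Differentiable ℂ f ∧ ∀ s : ℂ, 1 < s.re → f s = L d s

open Classical in
/-- The Riesz mean of order `R` of the moments with real parts `σ` and imaginary shifts `t`,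
twisted by `χ_d(M)`: `∑ χ_d(M) (1 - d / X) ^ R ∏_j L(σ_j + i t_j, χ_d)`, summed over the fundamental
discriminants `1 < d ≤ X`. For `R = 0` this is the sharply cut off moment. -/
noncomputable def moment (k M R : ℕ) (σ t : Fin k → ℝ) (X : ℝ) : ℂ :=
  ∑ d ∈ (Finset.Ioc 1 ⌊X⌋₊).filter IsFundDisc,
    (kron d M : ℂ) * (1 - (d : ℂ) / X) ^ R * ∏ j, Lent d (σ j + t j * I)

/-- A linear combination of the powers `X ^ (1 - ∑_{j ∈ J} (σ_j - 1/2 + i t_j))`, over all subsets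
`J` of `{1, ..., k}`. -/
noncomputable def mainTerm {k : ℕ} (c : Finset (Fin k) → ℂ) (σ t : Fin k → ℝ) (X : ℝ) : ℂ :=
  ∑ J, c J * (X : ℂ) ^ (1 - ∑ j ∈ J, ((σ j : ℂ) - 1 / 2 + t j * I))

/-- no two of the `2 ^ k` subset sums of the `t_j` agree -/
def Generic {k : ℕ} (t : Fin k → ℝ) : Prop :=
  Function.Injective fun J : Finset (Fin k) => ∑ j ∈ J, t j

/-- For some `R` and `N`, the Riesz means of order `R` of the moments with real parts `σ` are, for
all generic shifts `t`, a linear combination of the `X ^ (1 - ∑_{j ∈ J} (σ_j - 1/2 + i t_j))` up to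
`O((1 + ‖t‖) ^ N X ^ θ)`. -/
def Asymp (k M : ℕ) (σ : Fin k → ℝ) (θ : ℝ) : Prop :=
  ∃ (R N : ℕ) (C : ℝ), ∀ t : Fin k → ℝ, Generic t → ∃ c : Finset (Fin k) → ℂ, ∀ X : ℝ, 1 ≤ X →
    ‖moment k M R σ t X - mainTerm c σ t X‖ ≤ C * (1 + ‖t‖) ^ N * X ^ θ

/-- The same on average over the shifts and over `X`: the error is `O(T ^ N Y ^ θ)` in mean over
`‖t‖ ≤ T` and `Y ≤ X ≤ 2 Y`. -/
def MeanAsymp (k M : ℕ) (σ : Fin k → ℝ) (θ : ℝ) : Prop :=
  ∃ (R N : ℕ) (C : ℝ) (c : Finset (Fin k) → (Fin k → ℝ) → ℂ), (∀ J, Measurable (c J)) ∧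
    ∀ Y T : ℝ, 1 ≤ Y → 1 ≤ T →
      ∫⁻ t in {t : Fin k → ℝ | ‖t‖ ≤ T}, ∫⁻ X in Set.Icc Y (2 * Y),
        ‖moment k M R σ t X - mainTerm (fun J => c J t) σ t X‖ₑ ≤ ENNReal.ofReal (C * T ^ N * Y ^ (1 + θ))

end Pool.Agent.MDSM
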