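import Mathlib

/-!
# Moving a vertical line of integration
-/

set_option autoImplicit false

open MeasureTheory Filter Topology Complex

namespace Pool.Agent.MDSM

/-- Moving the line of integration, no poles. -/
theorem vertical_shift {f : ℂ → ℂ} {a b : ℝ} (hab : a ≤ b)
    (hf : DifferentiableOn ℂ f {w | a ≤ w.re ∧ w.re ≤ b})
    (ha : Integrable (fun v : ℝ => f (a + v * I))) (hb : Integrable (fun v : ℝ => f (b + v * I)))
    {B : ℝ → ℝ} (hB : Tendsto B atTop (𝓝 0))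
    (hfB : ∀ᶠ T in atTop, ∀ w : ℂ, a ≤ w.re → w.re ≤ b → |w.im| = T → ‖f w‖ ≤ B T) :
    ∫ v : ℝ, f (a + v * I) = ∫ v : ℝ, f (b + v * I) := by
  have hrect : ∀ T : ℝ, 0 ≤ T →
      (∫ x in a..b, f (x + (-T : ℝ) * I)) - (∫ x in a..b, f (x + (T : ℝ) * I)) +
        I * (∫ y in (-T)..T, f (b + y * I)) - I * ∫ y in (-T)..T, f (a + y * I) = 0 := by
    intro T hT
    have h := Complex.integral_boundary_rect_eq_zero_of_differentiableOn f
      ((a : ℂ) + (-T : ℝ) * I) ((b : ℂ) + (T : ℝ) * I) ?_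
    · simpa [smul_eq_mul] using h
    · apply hf.mono
      intro w hw
      simp only [Complex.add_re, Complex.ofReal_re, Complex.mul_re, Complex.I_re, mul_zero,
        Complex.ofReal_im, Complex.I_im, mul_one, sub_zero, add_zero] at hw
      rw [Complex.mem_reProdIm] at hw
      have h1 := hw.1
      rw [Set.uIcc_of_le (by simpa using hab)] at h1
      simpa using h1
  have hlim : ∀ s : ℝ, (s = 1 ∨ s = -1) →
      Tendsto (fun T : ℝ => ∫ x in a..b, f (x + (s * T : ℝ) * I)) atTop (𝓝 0) := by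
    intro s hs
    have h1 : Tendsto (fun T : ℝ => B T * |b - a|) atTop (𝓝 0) := by
      simpa using hB.mul_const |b - a|
    refine squeeze_zero_norm' ?_ h1
    filter_upwards [eventually_ge_atTop 0, hfB] with T hT hfT
    refine (intervalIntegral.norm_integral_le_of_norm_le_const (C := B T) ?_)
    intro x hx
    rw [Set.uIoc_of_le hab] at hx
    have h3 : |((x : ℂ) + (s * T : ℝ) * I).im| = T := by
      rcases hs with rfl | rfl <;> simp [abs_of_nonneg hT]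
    exact hfT (x + (s * T : ℝ) * I) (by simpa using hx.1.le) (by simpa using hx.2) h3
  have h1 := hlim 1 (Or.inl rfl)
  have h2 := hlim (-1) (Or.inr rfl)
  have h3 : Tendsto (fun T : ℝ => ∫ y in (-T)..T, f (a + y * I)) atTop (𝓝 (∫ v : ℝ, f (a + v * I))) :=
    intervalIntegral_tendsto_integral ha tendsto_neg_atTop_atBot tendsto_id
  have h4 : Tendsto (fun T : ℝ => ∫ y in (-T)..T, f (b + y * I)) atTop (𝓝 (∫ v : ℝ, f (b + v * I))) :=
    intervalIntegral_tendsto_integral hb tendsto_neg_atTop_atBot tendsto_id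
  have h5 := ((h2.sub h1).add (h4.const_mul I)).sub (h3.const_mul I)
  have h6 : Tendsto (fun T : ℝ =>
      (∫ x in a..b, f (x + ((-1) * T : ℝ) * I)) - (∫ x in a..b, f (x + (1 * T : ℝ) * I)) +
        I * (∫ y in (-T)..T, f (b + y * I)) - I * ∫ y in (-T)..T, f (a + y * I)) atTop (𝓝 0) := by
    refine tendsto_const_nhds.congr' ?_
    filter_upwards [eventually_ge_atTop 0] with T hT
    have := hrect T hT
    simp only [neg_mul, one_mul] at this ⊢
    exact this.symm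
  have h7 := tendsto_nhds_unique h5 h6
  have h8 : I * (∫ v : ℝ, f (b + v * I)) = I * ∫ v : ℝ, f (a + v * I) := by
    linear_combination h7
  exact (mul_left_cancel₀ Complex.I_ne_zero h8).symm

/-- `∫ c / (c ^ 2 + v ^ 2) dv` -/
theorem integrable_cauchy {c : ℝ} (hc : c ≠ 0) : Integrable (fun v : ℝ => (c ^ 2 + v ^ 2)⁻¹) := by
  have h := (integrable_inv_one_add_sq.comp_mul_left' (R := c⁻¹) (inv_ne_zero hc)).const_mul (c ^ 2)⁻¹
  refine h.congr (Filter.Eventually.of_forall fun v => ?_)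
  simp only
  rw [← mul_inv]
  congr 1
  field_simp

theorem integral_cauchy {c : ℝ} (hc : c ≠ 0) : ∫ v : ℝ, c * (c ^ 2 + v ^ 2)⁻¹ = Real.pi * (|c| / c) := by
  have h1 : ∀ v : ℝ, c * (c ^ 2 + v ^ 2)⁻¹ = c⁻¹ * (1 + (c⁻¹ * v) ^ 2)⁻¹ := by
    intro v
    have h2 : c ^ 2 + v ^ 2 ≠ 0 := by positivity
    have h3 : (1 + (c⁻¹ * v) ^ 2) ≠ 0 := by positivity
    have h4 : c ^ 2 + v ^ 2 = c ^ 2 * (1 + (c⁻¹ * v) ^ 2) := by field_simp
    rw [h4, mul_inv, ← mul_assoc]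
    congr 1
    field_simp
  simp_rw [h1]
  rw [integral_const_mul, Measure.integral_comp_mul_left (fun v => (1 + v ^ 2)⁻¹) c⁻¹,
    integral_univ_inv_one_add_sq, inv_inv, smul_eq_mul]
  field_simp

theorem integrable_two {c l : ℝ} (hc : c ≠ 0) (hc' : c + l ≠ 0) :
    Integrable (fun v : ℝ => (((c : ℂ) + v * I) * ((c : ℂ) + l + v * I))⁻¹) := by
  have hne : ∀ (e : ℝ), e ≠ 0 → ∀ v : ℝ, (e : ℂ) + v * I ≠ 0 := by
    intro e he v h
    have := congrArg Complex.re h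
    simp at this
    exact he this
  have hcont : Continuous (fun v : ℝ => (((c : ℂ) + v * I) * ((c : ℂ) + l + v * I))⁻¹) := by
    refine Continuous.inv₀ (by fun_prop) fun v => mul_ne_zero (hne c hc v) ?_
    have := hne (c + l) hc' v
    push_cast at this
    exact this
  refine Integrable.mono' (((integrable_cauchy hc).add (integrable_cauchy hc'))) hcont.aestronglyMeasurable
    (Filter.Eventually.of_forall fun v => ?_)
  have hn : ∀ e : ℝ, ‖(e : ℂ) + v * I‖ ^ 2 = e ^ 2 + v ^ 2 := by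
    intro e
    rw [← Complex.normSq_eq_norm_sq, Complex.normSq_add_mul_I]
  have h1 := hn c
  have h2 : ‖(c : ℂ) + l + v * I‖ ^ 2 = (c + l) ^ 2 + v ^ 2 := by
    have := hn (c + l)
    push_cast at this
    exact this
  have h3 : 0 < ‖(c : ℂ) + v * I‖ := norm_pos_iff.mpr (hne c hc v)
  have h4 : 0 < ‖(c : ℂ) + l + v * I‖ := norm_pos_iff.mpr (by
    have := hne (c + l) hc' v
    push_cast at this
    exact this)
  rw [norm_inv, norm_mul, Pi.add_apply, ← h1, ← h2, mul_inv]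
  set x := ‖(c : ℂ) + v * I‖⁻¹ with hx
  set y := ‖(c : ℂ) + l + v * I‖⁻¹ with hy
  rw [← inv_pow, ← inv_pow, ← hx, ← hy]
  nlinarith [sq_nonneg (x - y), sq_nonneg (x + y)]

theorem integral_two {c l : ℝ} (hc : c ≠ 0) (hc' : c + l ≠ 0) :
    l * ∫ v : ℝ, (((c : ℂ) + v * I) * ((c : ℂ) + l + v * I))⁻¹ =
      ((Real.pi * (|c| / c) - Real.pi * (|c + l| / (c + l)) : ℝ) : ℂ) := by
  have hint := (integrable_two hc hc').const_mul (l : ℂ)
  have hne : ∀ (e : ℝ), e ≠ 0 → ∀ v : ℝ, (e : ℂ) + v * I ≠ 0 := by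
    intro e he v h
    have := congrArg Complex.re h
    simp at this
    exact he this
  have hsplit : ∀ v : ℝ, l * (((c : ℂ) + v * I) * ((c : ℂ) + l + v * I))⁻¹ =
      ((c * (c ^ 2 + v ^ 2)⁻¹ - (c + l) * ((c + l) ^ 2 + v ^ 2)⁻¹ : ℝ) : ℂ) +
        ((-(v * (c ^ 2 + v ^ 2)⁻¹) + v * ((c + l) ^ 2 + v ^ 2)⁻¹ : ℝ) : ℂ) * I := by
    intro v
    have h1 := hne c hc v
    have h2 : (c : ℂ) + l + v * I ≠ 0 := by
      have := hne (c + l) hc' v
      push_cast at this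
      exact this
    have h3 : ((c : ℂ) ^ 2 + v ^ 2) ≠ 0 := by
      have : c ^ 2 + v ^ 2 ≠ 0 := by positivity
      exact_mod_cast this
    have h4 : (((c : ℂ) + l) ^ 2 + v ^ 2) ≠ 0 := by
      have : (c + l) ^ 2 + v ^ 2 ≠ 0 := by positivity
      exact_mod_cast this
    have e1 : (c : ℂ) ^ 2 + v ^ 2 = (c + v * I) * (c - v * I) := by
      linear_combination (v : ℂ) ^ 2 * Complex.I_sq
    have e2 : ((c : ℂ) + l) ^ 2 + v ^ 2 = (c + l + v * I) * (c + l - v * I) := by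
      linear_combination (v : ℂ) ^ 2 * Complex.I_sq
    have h5 : (c : ℂ) - v * I ≠ 0 := right_ne_zero_of_mul (e1 ▸ h3)
    have h6 : (c : ℂ) + l - v * I ≠ 0 := right_ne_zero_of_mul (e2 ▸ h4)
    push_cast
    rw [e1, e2]
    field_simp
    ring
  have hodd : ∫ v : ℝ, (-(v * (c ^ 2 + v ^ 2)⁻¹) + v * ((c + l) ^ 2 + v ^ 2)⁻¹ : ℝ) = 0 := by
    have h := integral_neg_eq_self (fun v : ℝ => (-(v * (c ^ 2 + v ^ 2)⁻¹) + v * ((c + l) ^ 2 + v ^ 2)⁻¹ : ℝ)) volume
    have h2 : ∀ v : ℝ, (-((-v) * (c ^ 2 + (-v) ^ 2)⁻¹) + (-v) * ((c + l) ^ 2 + (-v) ^ 2)⁻¹ : ℝ) =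
        -(-(v * (c ^ 2 + v ^ 2)⁻¹) + v * ((c + l) ^ 2 + v ^ 2)⁻¹) := by
      intro v; ring
    simp_rw [h2, integral_neg] at h
    linarith
  have hre : Integrable (fun v : ℝ => (c * (c ^ 2 + v ^ 2)⁻¹ - (c + l) * ((c + l) ^ 2 + v ^ 2)⁻¹ : ℝ)) :=
    ((integrable_cauchy hc).const_mul c).sub ((integrable_cauchy hc').const_mul (c + l))
  have him : Integrable (fun v : ℝ => (-(v * (c ^ 2 + v ^ 2)⁻¹) + v * ((c + l) ^ 2 + v ^ 2)⁻¹ : ℝ)) := by
    have := hint.im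
    refine this.congr (Filter.Eventually.of_forall fun v => ?_)
    have hgen : ∀ p q : ℝ, ((p : ℂ) + (q : ℂ) * I).im = q := by intro p q; simp
    simp only
    rw [hsplit v]
    exact hgen _ _
  rw [← integral_const_mul, integral_congr_ae (Filter.Eventually.of_forall hsplit)]
  have h1 := integral_add (hre.ofReal (𝕜 := ℂ)) ((him.ofReal (𝕜 := ℂ)).mul_const I)
  refine h1.trans ?_
  have h2 : ∫ v : ℝ, (c * (c ^ 2 + v ^ 2)⁻¹ - (c + l) * ((c + l) ^ 2 + v ^ 2)⁻¹ : ℝ) =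
      Real.pi * (|c| / c) - Real.pi * (|c + l| / (c + l)) := by
    rw [integral_sub ((integrable_cauchy hc).const_mul c) ((integrable_cauchy hc').const_mul (c + l)),
      integral_cauchy hc, integral_cauchy hc']
  have h3 : ∫ v : ℝ, (((c * (c ^ 2 + v ^ 2)⁻¹ - (c + l) * ((c + l) ^ 2 + v ^ 2)⁻¹ : ℝ)) : ℂ) =
      ((Real.pi * (|c| / c) - Real.pi * (|c + l| / (c + l)) : ℝ) : ℂ) := by
    rw [← h2]; exact integral_ofReal
  have h4 : ∫ v : ℝ, ((-(v * (c ^ 2 + v ^ 2)⁻¹) + v * ((c + l) ^ 2 + v ^ 2)⁻¹ : ℝ) : ℂ) = 0 := by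
    have := integral_ofReal (𝕜 := ℂ) (μ := volume)
      (f := fun v : ℝ => (-(v * (c ^ 2 + v ^ 2)⁻¹) + v * ((c + l) ^ 2 + v ^ 2)⁻¹ : ℝ))
    refine this.trans ?_
    rw [hodd]; simp
  rw [integral_mul_const]
  refine (congrArg₂ (· + ·) h3 (congrArg (· * I) h4)).trans ?_
  simp

/-- Moving the line of integration across one simple pole. -/
theorem vertical_shift_pole {φ : ℂ → ℂ} {a b : ℝ} {ρ : ℂ} (haρ : a < ρ.re) (hρb : ρ.re < b)
    (hφ : DifferentiableOn ℂ φ {w | a ≤ w.re ∧ w.re ≤ b})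
    (ha : Integrable (fun v : ℝ => φ (a + v * I))) (hb : Integrable (fun v : ℝ => φ (b + v * I)))
    {B : ℝ → ℝ} (hB : Tendsto B atTop (𝓝 0))
    (hfB : ∀ᶠ T in atTop, ∀ w : ℂ, a ≤ w.re → w.re ≤ b → |w.im| = T → ‖φ w‖ ≤ B T) :
    Integrable (fun v : ℝ => φ (a + v * I) / (a + v * I - ρ)) ∧
    Integrable (fun v : ℝ => φ (b + v * I) / (b + v * I - ρ)) ∧
    ∫ v : ℝ, φ (b + v * I) / (b + v * I - ρ) =
      (∫ v : ℝ, φ (a + v * I) / (a + v * I - ρ)) + 2 * Real.pi * φ ρ := by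
  have hne : ∀ (e : ℝ), e ≠ ρ.re → ∀ v : ℝ, (e : ℂ) + v * I - ρ ≠ 0 := by
    intro e he v h
    have := congrArg Complex.re h
    simp at this
    exact he (by linarith)
  have hfirst : ∀ e : ℝ, e ≠ ρ.re → Integrable (fun v : ℝ => φ (e + v * I)) →
      Integrable (fun v : ℝ => φ (e + v * I) / (e + v * I - ρ)) := by
    intro e he hint
    have h1 : 0 < |e - ρ.re| := abs_pos.mpr (sub_ne_zero.mpr he)
    have hc : Continuous (fun v : ℝ => ((e : ℂ) + v * I - ρ)⁻¹) :=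
      Continuous.inv₀ (by fun_prop) (hne e he)
    have := hint.mul_bdd (c := |e - ρ.re|⁻¹) (g := fun v : ℝ => ((e : ℂ) + v * I - ρ)⁻¹)
      hc.aestronglyMeasurable (Filter.Eventually.of_forall fun v => by
        rw [norm_inv]
        apply inv_anti₀ h1
        have h2 := Complex.abs_re_le_norm ((e : ℂ) + v * I - ρ)
        simpa using h2)
    simpa [div_eq_mul_inv] using this
  have hfa := hfirst a haρ.ne ha
  have hfb := hfirst b hρb.ne' hb
  refine ⟨hfa, hfb, ?_⟩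
  -- the auxiliary function
  set l : ℝ := ρ.re - a + 1 with hl
  have hl0 : 0 < l := by rw [hl]; linarith
  have hlc : (l : ℂ) ≠ 0 := by exact_mod_cast hl0.ne'
  set g : ℂ → ℂ := fun w => l * (w - ρ + l)⁻¹ with hg
  set ψ : ℂ → ℂ := fun w => φ w - φ ρ * g w with hψ
  have hgne : ∀ w : ℂ, a ≤ w.re → w - ρ + l ≠ 0 := by
    intro w hw h
    have := congrArg Complex.re h
    simp [hl] at this
    linarith
  have hgd : DifferentiableOn ℂ g {w | a ≤ w.re ∧ w.re ≤ b} := by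
    intro w hw
    apply DifferentiableAt.differentiableWithinAt
    have h1 : DifferentiableAt ℂ (fun w : ℂ => w - ρ + l) w := by fun_prop
    exact (h1.inv (hgne w hw.1)).const_mul _
  have hψd : DifferentiableOn ℂ ψ {w | a ≤ w.re ∧ w.re ≤ b} := hφ.sub (hgd.const_mul _)
  have hnhds : {w : ℂ | a ≤ w.re ∧ w.re ≤ b} ∈ 𝓝 ρ := by
    have h1 : IsOpen {w : ℂ | a < w.re ∧ w.re < b} :=
      (isOpen_lt continuous_const Complex.continuous_re).inter
        (isOpen_lt Complex.continuous_re continuous_const)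
    exact Filter.mem_of_superset (h1.mem_nhds ⟨haρ, hρb⟩) fun w hw => ⟨hw.1.le, hw.2.le⟩
  have hhd : DifferentiableOn ℂ (dslope ψ ρ) {w | a ≤ w.re ∧ w.re ≤ b} :=
    (Complex.differentiableOn_dslope hnhds).mpr hψd
  have hψρ : ψ ρ = 0 := by
    simp only [hψ, hg, sub_self, zero_add]
    rw [mul_inv_cancel₀ hlc, mul_one, sub_self]
  have hval : ∀ w : ℂ, w - ρ ≠ 0 → w - ρ + l ≠ 0 → dslope ψ ρ w =
      φ w / (w - ρ) - φ ρ * (l * ((w - ρ) * (w - ρ + l))⁻¹) := by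
    intro w hw hw'
    rw [dslope_of_ne _ (sub_ne_zero.mp hw), slope_def_field, hψρ]
    simp only [hψ, hg]
    field_simp
    ring
  have hline : ∀ e : ℝ, e ≠ ρ.re → a ≤ e → ∀ v : ℝ, dslope ψ ρ (e + v * I) =
      φ (e + v * I) / (e + v * I - ρ) -
        φ ρ * (l * ((((e - ρ.re : ℝ) : ℂ) + (v - ρ.im : ℝ) * I) * (((e - ρ.re : ℝ) : ℂ) + l + (v - ρ.im : ℝ) * I))⁻¹) := by
    intro e he hae v
    rw [hval _ (hne e he v) (hgne _ (by simpa using hae))]
    have h1 : (e : ℂ) + v * I - ρ = ((e - ρ.re : ℝ) : ℂ) + (v - ρ.im : ℝ) * I := by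
      apply Complex.ext <;> simp
    rw [← h1]
    congr 4
    rw [h1]; ring
  have hshift : ∀ e : ℝ, e ≠ ρ.re → e - ρ.re + l ≠ 0 →
      Integrable (fun v : ℝ => l * ((((e - ρ.re : ℝ) : ℂ) + (v - ρ.im : ℝ) * I) *
        (((e - ρ.re : ℝ) : ℂ) + l + (v - ρ.im : ℝ) * I))⁻¹) ∧
      ∫ v : ℝ, l * ((((e - ρ.re : ℝ) : ℂ) + (v - ρ.im : ℝ) * I) *
        (((e - ρ.re : ℝ) : ℂ) + l + (v - ρ.im : ℝ) * I))⁻¹ =
        ((Real.pi * (|e - ρ.re| / (e - ρ.re)) - Real.pi * (|e - ρ.re + l| / (e - ρ.re + l)) : ℝ) : ℂ) := by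
    intro e he he'
    have h1 := integrable_two (sub_ne_zero.mpr he) he'
    refine ⟨(h1.comp_sub_right ρ.im).const_mul _, ?_⟩
    rw [← integral_two (sub_ne_zero.mpr he) he', integral_const_mul]
    congr 1
    exact integral_sub_right_eq_self (fun v : ℝ => ((((e - ρ.re : ℝ) : ℂ) + v * I) *
        (((e - ρ.re : ℝ) : ℂ) + l + v * I))⁻¹) ρ.im
  have hal : a - ρ.re + l = 1 := by rw [hl]; ring
  have hbl : 0 < b - ρ.re + l := by rw [hl]; linarith
  have hcalc : ∀ e : ℝ, e ≠ ρ.re → a ≤ e → e - ρ.re + l ≠ 0 →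
      Integrable (fun v : ℝ => φ (e + v * I) / (e + v * I - ρ)) →
      Integrable (fun v : ℝ => dslope ψ ρ (e + v * I)) ∧
      ∫ v : ℝ, dslope ψ ρ (e + v * I) = (∫ v : ℝ, φ (e + v * I) / (e + v * I - ρ)) -
        φ ρ * ((Real.pi * (|e - ρ.re| / (e - ρ.re)) - Real.pi * (|e - ρ.re + l| / (e - ρ.re + l)) : ℝ) : ℂ) := by
    intro e he hae he' hint
    have h1 := hshift e he he'
    have h2 : (fun v : ℝ => dslope ψ ρ (e + v * I)) = fun v : ℝ => φ (e + v * I) / (e + v * I - ρ) -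
        φ ρ * (l * ((((e - ρ.re : ℝ) : ℂ) + (v - ρ.im : ℝ) * I) * (((e - ρ.re : ℝ) : ℂ) + l + (v - ρ.im : ℝ) * I))⁻¹) :=
      funext (hline e he hae)
    rw [h2]
    refine ⟨hint.sub (h1.1.const_mul _), ?_⟩
    rw [integral_sub hint (h1.1.const_mul _), integral_const_mul, h1.2]
  have hca := hcalc a haρ.ne le_rfl (by rw [hal]; exact one_ne_zero) hfa
  have hcb := hcalc b hρb.ne' (by linarith) hbl.ne' hfb
  have hmain := vertical_shift (f := dslope ψ ρ) (by linarith : a ≤ b) hhd hca.1 hcb.1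
    (B := fun T => (B T + ‖φ ρ‖ * l) * (T - |ρ.im|)⁻¹) ?_ ?_
  · rw [hca.2, hcb.2] at hmain
    rw [hal, abs_of_neg (by linarith : a - ρ.re < 0), abs_one, div_one,
      abs_of_pos (by linarith : 0 < b - ρ.re), abs_of_pos hbl,
      div_self (by linarith : b - ρ.re ≠ 0), div_self hbl.ne',
      neg_div, div_self (by linarith : a - ρ.re ≠ 0)] at hmain
    push_cast at hmain
    linear_combination -hmain
  · have h1 : Tendsto (fun T : ℝ => B T + ‖φ ρ‖ * l) atTop (𝓝 (0 + ‖φ ρ‖ * l)) :=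
      hB.add_const _
    have h2 : Tendsto (fun T : ℝ => (T - |ρ.im|)⁻¹) atTop (𝓝 0) :=
      tendsto_inv_atTop_zero.comp (tendsto_atTop_add_const_right _ _ tendsto_id)
    simpa using h1.mul h2
  · filter_upwards [hfB, eventually_gt_atTop |ρ.im|] with T hT hTρ w hw1 hw2 hw3
    have h1 : T - |ρ.im| ≤ ‖w - ρ‖ := by
      have h2 := Complex.abs_im_le_norm (w - ρ)
      rw [Complex.sub_im] at h2
      have h3 := abs_sub_abs_le_abs_sub w.im ρ.im
      linarith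
    have h2 : 0 < ‖w - ρ‖ := by linarith
    have h3 : w - ρ ≠ 0 := norm_pos_iff.mp h2
    have h4 : 1 ≤ ‖w - ρ + l‖ := by
      have h5 := Complex.re_le_norm (w - ρ + l)
      simp only [Complex.add_re, Complex.sub_re, Complex.ofReal_re] at h5
      rw [hl] at h5
      linarith
    rw [dslope_of_ne _ (sub_ne_zero.mp h3), slope_def_field, hψρ, sub_zero, norm_div, div_eq_mul_inv]
    have h5 : ‖ψ w‖ ≤ B T + ‖φ ρ‖ * l := by
      simp only [hψ]
      refine (norm_sub_le _ _).trans (add_le_add (hT w hw1 hw2 hw3) ?_)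
      rw [norm_mul]
      simp only [hg]
      rw [norm_mul, norm_inv, Complex.norm_real, Real.norm_of_nonneg hl0.le]
      apply mul_le_mul_of_nonneg_left _ (norm_nonneg _)
      exact mul_le_of_le_one_right hl0.le (inv_le_one_of_one_le₀ h4)
    have h6 : ‖w - ρ‖⁻¹ ≤ (T - |ρ.im|)⁻¹ := inv_anti₀ (by linarith) h1
    exact mul_le_mul h5 h6 (by positivity) ((norm_nonneg _).trans h5)

end Pool.Agent.MDSM
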