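import Pool.Agent.TubeDS.BochnerMain
import Pool.Agent.TubeDS.Extraction
import Pool.Agent.MDSM.Shift

/-!
# The tube theorem with one flat point

A function which is holomorphic and polynomially bounded in the tube over `Ω`, and which can be
continued in one variable, for almost all values of the imaginary parts of the other variables whose
real parts are kept fixed, extends to the interior of the convex hull of `Ω` and the point reached.
-/

set_option autoImplicit false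
set_option linter.unusedSectionVars false

open MeasureTheory Filter Topology FourierTransform
open Pool.Agent.TubeDS

namespace Pool.Agent.MDSM

variable {ι : Type*} [Fintype ι] {κ : Type*} [Fintype κ]

theorem measurePreserving_ins :
    MeasurePreserving (fun p : (κ → ℝ) × ℝ => (ins p.2 p.1 : Option κ → ℝ))
      (volume.prod volume) volume := by
  have h1 : (fun p : (κ → ℝ) × ℝ => (ins p.2 p.1 : Option κ → ℝ)) =
      (MeasurableEquiv.piOptionEquivProd (fun _ : Option κ => ℝ)).symm := by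
    funext p
    obtain ⟨t, v⟩ := p
    rw [MeasurableEquiv.eq_symm_apply]
    rfl
  rw [h1]
  refine ⟨MeasurableEquiv.measurable _, ?_⟩
  exact Measure.pi_map_piOptionEquivProd (fun _ : Option κ => (volume : Measure ℝ))

theorem integral_option {f : EuclideanSpace ℝ (Option κ) → ℂ} (hf : Integrable f) :
    Integrable (fun p : (κ → ℝ) × ℝ => f (WithLp.toLp 2 (ins p.2 p.1))) (volume.prod volume) ∧
    ∫ y, f y = ∫ t : κ → ℝ, ∫ v : ℝ, f (WithLp.toLp 2 (ins v t)) := by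
  have hmp : MeasurePreserving (fun p : (κ → ℝ) × ℝ => (WithLp.toLp 2 (ins p.2 p.1) : EuclideanSpace ℝ (Option κ)))
      (volume.prod volume) volume :=
    (PiLp.volume_preserving_toLp (Option κ)).comp measurePreserving_ins
  have h1 : Integrable (fun p : (κ → ℝ) × ℝ => f (WithLp.toLp 2 (ins p.2 p.1))) (volume.prod volume) :=
    hmp.integrable_comp_of_integrable hf
  refine ⟨h1, ?_⟩
  have h2 := integral_prod _ h1
  simp only at h2
  rw [← h2]
  have h3 := hmp.map_eq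
  conv_lhs => rw [← h3]
  rw [integral_map hmp.measurable.aemeasurable (by rw [h3]; exact hf.aestronglyMeasurable)]

/-- Gaussian decay beats polynomial growth, one variable -/
theorem gauss_one (N : ℕ) (v a : ℝ) : (1 + |v|) ^ N * Real.exp (-(v - a) ^ 2) ≤
    ((N + 2).factorial * Real.exp 2) * (1 + |a|) ^ N * ((1 + |v - a|) ^ 2)⁻¹ := by
  have h1 : 1 + |v| ≤ (1 + |a|) * (1 + |v - a|) := by
    have : |v| ≤ |v - a| + |a| := by
      calc |v| = |(v - a) + a| := by ring_nf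
        _ ≤ _ := abs_add_le _ _
    nlinarith [abs_nonneg a, abs_nonneg (v - a), mul_nonneg (abs_nonneg a) (abs_nonneg (v - a))]
  have h2 := one_add_pow_mul_exp_le (N + 2) (abs_nonneg (v - a))
  rw [sq_abs, pow_add] at h2
  rw [← div_eq_mul_inv, le_div_iff₀ (by positivity)]
  calc (1 + |v|) ^ N * Real.exp (-(v - a) ^ 2) * (1 + |v - a|) ^ 2
      ≤ ((1 + |a|) * (1 + |v - a|)) ^ N * Real.exp (-(v - a) ^ 2) * (1 + |v - a|) ^ 2 := by gcongr
    _ = (1 + |a|) ^ N * ((1 + |v - a|) ^ N * (1 + |v - a|) ^ 2 * Real.exp (-(v - a) ^ 2)) := by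
        rw [mul_pow]; ring
    _ ≤ (1 + |a|) ^ N * ((N + 2).factorial * Real.exp 2) := by gcongr
    _ = _ := by ring

theorem gauss_sup (N : ℕ) (t b : κ → ℝ) : (1 + ‖t‖) ^ N * Real.exp (-∑ j, (t j - b j) ^ 2) ≤
    (N.factorial * Real.exp 2) * (1 + ‖b‖) ^ N := by
  have h1 : 1 + ‖t‖ ≤ (1 + ‖b‖) * (1 + ‖t - b‖) := by
    have : ‖t‖ ≤ ‖t - b‖ + ‖b‖ := by
      calc ‖t‖ = ‖(t - b) + b‖ := by simp
        _ ≤ _ := norm_add_le _ _
    nlinarith [norm_nonneg b, norm_nonneg (t - b), mul_nonneg (norm_nonneg b) (norm_nonneg (t - b))]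
  have h2 := one_add_pow_mul_exp_le N (norm_nonneg (t - b))
  have h3 : ‖t - b‖ ^ 2 ≤ ∑ j, (t j - b j) ^ 2 := by
    have h4 : ‖t - b‖ ≤ Real.sqrt (∑ j, (t j - b j) ^ 2) := by
      rw [pi_norm_le_iff_of_nonneg (Real.sqrt_nonneg _)]
      intro j
      rw [Real.norm_eq_abs]
      apply Real.abs_le_sqrt
      exact Finset.single_le_sum (f := fun j => (t j - b j) ^ 2) (fun i _ => sq_nonneg _) (Finset.mem_univ j)
    calc ‖t - b‖ ^ 2 ≤ (Real.sqrt (∑ j, (t j - b j) ^ 2)) ^ 2 := by gcongr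
      _ = _ := Real.sq_sqrt (Finset.sum_nonneg fun j _ => sq_nonneg _)
  calc (1 + ‖t‖) ^ N * Real.exp (-∑ j, (t j - b j) ^ 2)
      ≤ ((1 + ‖b‖) * (1 + ‖t - b‖)) ^ N * Real.exp (-‖t - b‖ ^ 2) := by gcongr
    _ = (1 + ‖b‖) ^ N * ((1 + ‖t - b‖) ^ N * Real.exp (-‖t - b‖ ^ 2)) := by rw [mul_pow]; ring
    _ ≤ (1 + ‖b‖) ^ N * (N.factorial * Real.exp 2) := by gcongr
    _ = _ := by ring

theorem integrable_dec_one (a : ℝ) : Integrable (fun v : ℝ => ((1 + |v - a|) ^ 2)⁻¹) := by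
  have h := integrable_one_add_norm (E := ℝ) (μ := volume) (r := 2) (by simp)
  have h2 : Integrable (fun v : ℝ => ((1 + |v|) ^ 2)⁻¹) := by
    refine h.congr (Filter.Eventually.of_forall fun y => ?_)
    simp only [Real.norm_eq_abs]
    rw [Real.rpow_neg (by positivity), Real.rpow_two]
  exact h2.comp_sub_right a

theorem integral_dec_one (a : ℝ) : ∫ v : ℝ, ((1 + |v - a|) ^ 2)⁻¹ = ∫ v : ℝ, ((1 + |v|) ^ 2)⁻¹ :=
  integral_sub_right_eq_self (fun v : ℝ => ((1 + |v|) ^ 2)⁻¹) a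

/-- the real point with the last coordinate replaced -/
noncomputable def rep (x₀ : Option κ → ℝ) (u : ℝ) : Option κ → ℝ := ins u (fun j => x₀ (some j))

theorem rep_self (x₀ : Option κ → ℝ) : rep x₀ (x₀ none) = x₀ := by
  funext o; cases o <;> rfl

/-- the complex point -/
noncomputable def cpt (x₀ : Option κ → ℝ) (t : κ → ℝ) (w : ℂ) : Option κ → ℂ :=
  ins w (fun j => (x₀ (some j) : ℂ) + (t j : ℂ) * Complex.I)

theorem cpt_eq (x₀ : Option κ → ℝ) (t : κ → ℝ) (u v : ℝ) :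
    cpt x₀ t (u + v * Complex.I) = pt (rep x₀ u) (ins v t) := by
  funext o; cases o <;> rfl

theorem cpt_eq' (x₀ : Option κ → ℝ) (t : κ → ℝ) (w : ℂ) :
    cpt x₀ t w = pt (rep x₀ w.re) (ins w.im t) := by
  rw [← cpt_eq, Complex.re_add_im]

theorem continuous_rep (x₀ : Option κ → ℝ) (o : Option κ) : Continuous (fun u : ℝ => rep x₀ u o) := by
  cases o with
  | none => exact continuous_id
  | some j => exact (continuous_const : Continuous fun _ : ℝ => x₀ (some j))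

theorem differentiable_cpt (x₀ : Option κ → ℝ) (t : κ → ℝ) : Differentiable ℂ (cpt x₀ t) := by
  rw [differentiable_pi]
  intro o
  cases o with
  | none => exact differentiable_id
  | some j => exact differentiable_const _

theorem flat_good {Ω : Set (Option κ → ℝ)} {G : (Option κ → ℂ) → ℂ}
    (hd : DifferentiableOn ℂ G (tube Ω)) (hG : PolyBdd Ω G) {x₀ : Option κ → ℝ} (hx₀ : x₀ ∈ Ω)
    {c' : ℝ} (hc' : c' ≤ x₀ none) {N N' : ℕ} {B : (κ → ℝ) → ℝ} (hB0 : ∀ t, 0 ≤ B t)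
    (hBint : Integrable (fun t => B t * ((1 + ‖t‖) ^ N')⁻¹))
    (hΦ : ∀ᵐ t : κ → ℝ, ∃ Φ : ℂ → ℂ, DifferentiableOn ℂ Φ {w | c' ≤ w.re ∧ w.re ≤ x₀ none} ∧
      (∀ v : ℝ, Φ (x₀ none + v * Complex.I) = G (cpt x₀ t (x₀ none + v * Complex.I))) ∧
      ∀ w : ℂ, c' ≤ w.re → w.re ≤ x₀ none → ‖Φ w‖ ≤ B t * (1 + |w.im|) ^ N) :
    rep x₀ c' ∈ goodSet (fun y₀ ξ => Itr G y₀ ξ x₀) := by
  -- bound for sum of squares
  obtain ⟨D, hD⟩ : ∃ D, ∀ u ∈ Set.Icc c' (x₀ none), ∑ o, (rep x₀ u) o ^ 2 ≤ D := by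
    have hcont : Continuous (fun u : ℝ => ∑ o, (rep x₀ u) o ^ 2) :=
      continuous_finsetSum _ fun o _ => (continuous_rep x₀ o).pow 2
    obtain ⟨D, hD⟩ := (isCompact_Icc.image hcont).bddAbove
    exact ⟨D, fun x hx => hD ⟨x, hx, rfl⟩⟩
  set I₂ : ℝ := ∫ v : ℝ, ((1 + |v|) ^ 2)⁻¹ with hI₂
  have hI₂0 : 0 ≤ I₂ := integral_nonneg fun v => by positivity
  set c₁ : ℝ := Real.exp D * ((N + 2).factorial * Real.exp 2) * (N'.factorial * Real.exp 2) with hc₁
  have hc₁0 : 0 ≤ c₁ := by positivity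
  set IB : ℝ := ∫ t, B t * ((1 + ‖t‖) ^ N')⁻¹ with hIB
  have hIB0 : 0 ≤ IB := integral_nonneg fun t => mul_nonneg (hB0 t) (by positivity)
  refine ⟨c₁ * I₂ * IB, N + N', by positivity, ?_⟩
  intro y₀ ξ
  simp only
  set E₀ : ℝ := Real.exp (-(2 * Real.pi * ∑ o, rep x₀ c' o * ξ o)) with hE₀
  -- integrability of the integrand
  have hint : Integrable (fun y : EuclideanSpace ℝ (Option κ) => hfun G y₀ ξ (pt x₀ y)) := by
    obtain ⟨C, hC0, hC⟩ := hfun_bound hG y₀ ξ (Set.singleton_subset_iff.mpr hx₀) isCompact_singleton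
    refine Integrable.mono' (integrable_dec.const_mul C) ?_
      (Filter.Eventually.of_forall fun y => hC x₀ (Set.mem_singleton _) y)
    have : Continuous (fun y : EuclideanSpace ℝ (Option κ) => hfun G y₀ ξ (pt x₀ y)) :=
      (differentiableOn_hfun hd y₀ ξ).continuousOn.comp_continuous (continuous_pt x₀)
        fun y => pt_mem_tube.mpr hx₀
    exact this.aestronglyMeasurable
  obtain ⟨hint2, heq⟩ := integral_option hint
  unfold Itr
  rw [heq]
  -- general bound for the shifted integrand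
  have hgen : ∀ (t : κ → ℝ) (Φ : ℂ → ℂ) (w : ℂ), c' ≤ w.re → w.re ≤ x₀ none →
      ‖Φ w‖ ≤ B t * (1 + |w.im|) ^ N →
      ‖ker ξ (cpt x₀ t w) * (Φ w * gaus y₀ (cpt x₀ t w))‖ ≤
        Real.exp (-(2 * Real.pi * ∑ o, rep x₀ w.re o * ξ o)) *
        (c₁ * (1 + ‖y₀‖) ^ (N + N') * (B t * ((1 + ‖t‖) ^ N')⁻¹) * ((1 + |w.im - y₀ none|) ^ 2)⁻¹) := by
    intro t Φ w hw1 hw2 hw3
    have e1 : ‖ker ξ (cpt x₀ t w)‖ = Real.exp (-(2 * Real.pi * ∑ o, rep x₀ w.re o * ξ o)) := by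
      rw [cpt_eq', norm_ker]
    have e2 : ‖gaus y₀ (cpt x₀ t w)‖ = Real.exp (∑ o, rep x₀ w.re o ^ 2 -
        ((w.im - y₀ none) ^ 2 + ∑ j, (t j - y₀ (some j)) ^ 2)) := by
      rw [cpt_eq', norm_gaus]
      congr 2
      rw [Fintype.sum_option]
      rfl
    have e3 : ‖gaus y₀ (cpt x₀ t w)‖ ≤ Real.exp D * (Real.exp (-(w.im - y₀ none) ^ 2) *
        Real.exp (-∑ j, (t j - y₀ (some j)) ^ 2)) := by
      rw [e2, ← Real.exp_add, ← Real.exp_add]
      apply Real.exp_le_exp.mpr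
      have := hD w.re ⟨hw1, hw2⟩
      linarith
    have e4 := gauss_one N w.im (y₀ none)
    have e5 := gauss_sup N' t (fun j => y₀ (some j))
    have e6 : |y₀ none| ≤ ‖y₀‖ := norm_le_pi_norm y₀ none
    have e7 : ‖fun j => y₀ (some j)‖ ≤ ‖y₀‖ := by
      rw [pi_norm_le_iff_of_nonneg (norm_nonneg _)]
      intro j; exact norm_le_pi_norm y₀ (some j)
    have e8 : Real.exp (-∑ j, (t j - y₀ (some j)) ^ 2) ≤
        (N'.factorial * Real.exp 2) * (1 + ‖y₀‖) ^ N' * ((1 + ‖t‖) ^ N')⁻¹ := by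
      rw [← div_eq_mul_inv, le_div_iff₀ (by positivity), mul_comm]
      refine e5.trans ?_
      gcongr
    have e9 : (1 + |w.im|) ^ N * Real.exp (-(w.im - y₀ none) ^ 2) ≤
        ((N + 2).factorial * Real.exp 2) * (1 + ‖y₀‖) ^ N * ((1 + |w.im - y₀ none|) ^ 2)⁻¹ := by
      refine e4.trans ?_
      gcongr
    have hBt := hB0 t
    rw [norm_mul, norm_mul, e1]
    apply mul_le_mul_of_nonneg_left _ (Real.exp_nonneg _)
    calc ‖Φ w‖ * ‖gaus y₀ (cpt x₀ t w)‖
        ≤ (B t * (1 + |w.im|) ^ N) * (Real.exp D * (Real.exp (-(w.im - y₀ none) ^ 2) *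
        Real.exp (-∑ j, (t j - y₀ (some j)) ^ 2))) := by gcongr
      _ = Real.exp D * B t * ((1 + |w.im|) ^ N * Real.exp (-(w.im - y₀ none) ^ 2)) *
        Real.exp (-∑ j, (t j - y₀ (some j)) ^ 2) := by ring
      _ ≤ Real.exp D * B t * (((N + 2).factorial * Real.exp 2) * (1 + ‖y₀‖) ^ N * ((1 + |w.im - y₀ none|) ^ 2)⁻¹) *
        ((N'.factorial * Real.exp 2) * (1 + ‖y₀‖) ^ N' * ((1 + ‖t‖) ^ N')⁻¹) := by gcongr
      _ = _ := by rw [hc₁, pow_add]; ring
  -- the bound of the inner integral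
  have hinner : ∀ᵐ t : κ → ℝ, ‖∫ v : ℝ, hfun G y₀ ξ (pt x₀ (WithLp.toLp 2 (ins v t) : EuclideanSpace ℝ (Option κ)))‖ ≤
      E₀ * (c₁ * (1 + ‖y₀‖) ^ (N + N') * I₂) * (B t * ((1 + ‖t‖) ^ N')⁻¹) := by
    filter_upwards [hΦ] with t ht
    obtain ⟨Φ, hΦd, hΦe, hΦb⟩ := ht
    set h : ℂ → ℂ := fun w => ker ξ (cpt x₀ t w) * (Φ w * gaus y₀ (cpt x₀ t w)) with hh
    have hhd : DifferentiableOn ℂ h {w | c' ≤ w.re ∧ w.re ≤ x₀ none} := by
      have h1 : Differentiable ℂ (fun w => ker ξ (cpt x₀ t w)) :=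
        (differentiable_ker ξ).comp (differentiable_cpt x₀ t)
      have h2 : Differentiable ℂ (fun w => gaus y₀ (cpt x₀ t w)) :=
        (differentiable_gaus y₀).comp (differentiable_cpt x₀ t)
      exact h1.differentiableOn.mul (hΦd.mul h2.differentiableOn)
    have hline : ∀ u : ℝ, c' ≤ u → u ≤ x₀ none →
        Integrable (fun v : ℝ => h (u + v * Complex.I)) := by
      intro u hu1 hu2
      have hcont : Continuous (fun v : ℝ => h (u + v * Complex.I)) := by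
        refine hhd.continuousOn.comp_continuous (by fun_prop) fun v => ?_
        simp only [Set.mem_ofPred_eq]
        simpa using ⟨hu1, hu2⟩
      refine Integrable.mono' (g := fun v : ℝ => Real.exp (-(2 * Real.pi * ∑ o, rep x₀ u o * ξ o)) *
        (c₁ * (1 + ‖y₀‖) ^ (N + N') * (B t * ((1 + ‖t‖) ^ N')⁻¹) * ((1 + |v - y₀ none|) ^ 2)⁻¹)) ?_
        hcont.aestronglyMeasurable (Filter.Eventually.of_forall fun v => ?_)
      · exact ((integrable_dec_one _).const_mul _).const_mul _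
      · have := hgen t Φ (u + v * Complex.I) (by simpa using hu1) (by simpa using hu2)
          (hΦb _ (by simpa using hu1) (by simpa using hu2))
        simpa [hh] using this
    have hshift : ∫ v : ℝ, h (c' + v * Complex.I) = ∫ v : ℝ, h (x₀ none + v * Complex.I) := by
      obtain ⟨Bξ, hBξ⟩ : ∃ Bξ, ∀ u ∈ Set.Icc c' (x₀ none), Real.exp (-(2 * Real.pi * ∑ o, rep x₀ u o * ξ o)) ≤ Bξ := by
        have hcont : Continuous (fun u : ℝ => Real.exp (-(2 * Real.pi * ∑ o, rep x₀ u o * ξ o))) := by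
          have : Continuous (fun u : ℝ => ∑ o, rep x₀ u o * ξ o) :=
            continuous_finsetSum _ fun o _ => (continuous_rep x₀ o).mul continuous_const
          fun_prop
        obtain ⟨D, hD⟩ := (isCompact_Icc.image hcont).bddAbove
        exact ⟨D, fun x hx => hD ⟨x, hx, rfl⟩⟩
      refine vertical_shift hc' hhd (hline c' le_rfl hc') (hline _ hc' le_rfl)
        (B := fun T => Bξ * (c₁ * (1 + ‖y₀‖) ^ (N + N') * (B t * ((1 + ‖t‖) ^ N')⁻¹) * ((1 + (T - |y₀ none|)) ^ 2)⁻¹)) ?_ ?_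
      · have h1 : Tendsto (fun T : ℝ => ((1 + (T - |y₀ none|)) ^ 2)⁻¹) atTop (𝓝 0) := by
          refine tendsto_inv_atTop_zero.comp ((tendsto_pow_atTop two_ne_zero).comp ?_)
          exact tendsto_atTop_add_const_left _ _ (tendsto_atTop_add_const_right _ _ tendsto_id)
        have h2 := (h1.const_mul (c₁ * (1 + ‖y₀‖) ^ (N + N') * (B t * ((1 + ‖t‖) ^ N')⁻¹))).const_mul Bξ
        simpa using h2
      · filter_upwards [eventually_gt_atTop |y₀ none|] with T hT w hw1 hw2 hw3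
        refine (hgen t Φ w hw1 hw2 (hΦb w hw1 hw2)).trans ?_
        have h1 := hBξ w.re ⟨hw1, hw2⟩
        have h2 : T - |y₀ none| ≤ |w.im - y₀ none| := by
          have := abs_sub_abs_le_abs_sub w.im (y₀ none)
          linarith
        have h3 := hB0 t
        have h4 : 0 < 1 + (T - |y₀ none|) := by linarith
        have h5 : 0 ≤ Bξ := (Real.exp_nonneg _).trans h1
        gcongr
    have e1 : ∀ v : ℝ, hfun G y₀ ξ (pt x₀ (WithLp.toLp 2 (ins v t) : EuclideanSpace ℝ (Option κ))) =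
        h (x₀ none + v * Complex.I) := by
      intro v
      simp only [hh, hfun]
      rw [hΦe v, cpt_eq, rep_self]
    simp_rw [e1]
    rw [← hshift]
    refine (norm_integral_le_of_norm_le (g := fun v : ℝ => E₀ *
        (c₁ * (1 + ‖y₀‖) ^ (N + N') * (B t * ((1 + ‖t‖) ^ N')⁻¹) * ((1 + |v - y₀ none|) ^ 2)⁻¹))
      (((integrable_dec_one _).const_mul _).const_mul _) (Filter.Eventually.of_forall fun v => ?_)).trans ?_
    · have := hgen t Φ (c' + v * Complex.I) (by simp) (by simpa using hc')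
          (hΦb _ (by simp) (by simpa using hc'))
      simpa [hh, hE₀] using this
    · rw [integral_const_mul, integral_const_mul, integral_dec_one]
      apply le_of_eq; ring
  refine (norm_integral_le_of_norm_le (hBint.const_mul _) hinner).trans ?_
  rw [integral_const_mul]
  apply le_of_eq; ring

/-- The extension step of the tube theorem: a function extends to the tube over every open convex
set contained in the good set. -/
theorem bochner_of_good {Ω : Set (ι → ℝ)} (hΩ : IsOpen Ω) (hpre : IsPreconnected Ω) {x₀ : ι → ℝ}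
    (hx₀ : x₀ ∈ Ω) {G : (ι → ℂ) → ℂ} (hd : DifferentiableOn ℂ G (tube Ω)) (hG : PolyBdd Ω G)
    {C : Set (ι → ℝ)} (hCopen : IsOpen C) (hCconv : Convex ℝ C) (hΩC : Ω ⊆ C)
    (hCgood : C ⊆ goodSet (fun y₀ ξ => Itr G y₀ ξ x₀)) :
    ∃ G' : (ι → ℂ) → ℂ, DifferentiableOn ℂ G' (tube C) ∧
      Set.EqOn G' G (tube Ω) ∧ PolyBdd C G' := by
  set Ψ : (ι → ℝ) → EuclideanSpace ℝ ι → ℂ := fun y₀ ξ => Itr G y₀ ξ x₀ with hΨ
  have hΨx : ∀ y₀ ξ, ∀ x ∈ Ω, Itr G y₀ ξ x = Ψ y₀ ξ := fun y₀ ξ x hx =>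
    Itr_const hΩ hpre hd hG y₀ ξ hx hx₀
  have hΨcont : ∀ y₀, Continuous (Ψ y₀) := fun y₀ => Itr_continuous hd hG y₀ hx₀
  have hloc : ∀ x ∈ C, ∃ ε > 0, ∃ (A : ℝ) (N : ℕ), 0 ≤ A ∧ ∀ x' ∈ Metric.ball x ε,
      ∀ (y₀ : ι → ℝ) (ξ : EuclideanSpace ℝ ι),
      Real.exp (2 * Real.pi * ∑ j, x' j * ξ j) * ‖Ψ y₀ ξ‖ ≤ A * (1 + ‖y₀‖) ^ N * dec ξ :=
    fun x hx => goodSet_local hCopen hCgood hx
  -- continuity of the integrand
  have hcontint : ∀ y₀ (z : ι → ℂ), Continuous (fun ξ : EuclideanSpace ℝ ι =>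
      Complex.exp (2 * Real.pi * ∑ j, z j * (ξ j : ℂ)) * Ψ y₀ ξ) := by
    intro y₀ z
    exact (by fun_prop : Continuous (fun ξ : EuclideanSpace ℝ ι =>
      Complex.exp (2 * Real.pi * ∑ j, z j * (ξ j : ℂ)))).mul (hΨcont y₀)
  have hgtd : ∀ y₀, DifferentiableOn ℂ (gt (Ψ y₀)) (tube C) := by
    intro y₀
    unfold gt
    apply differentiableOn_integral_of_dominated (isOpen_tube hCopen)
    · intro z _
      exact (hcontint y₀ z).aestronglyMeasurable
    · intro ξ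
      apply Differentiable.differentiableOn
      fun_prop
    · intro z₀ hz₀
      obtain ⟨ε, hε, A, N, hA, hb⟩ := hloc _ hz₀
      refine ⟨ε, hε, fun ξ => A * (1 + ‖y₀‖) ^ N * dec ξ, integrable_dec.const_mul _, ?_⟩
      intro z hz _ ξ
      rw [norm_mul, norm_expfac]
      refine hb (fun j => (z j).re) ?_ y₀ ξ
      rw [Metric.mem_ball] at hz ⊢
      refine lt_of_le_of_lt ?_ hz
      rw [dist_pi_le_iff dist_nonneg]
      intro j
      refine le_trans ?_ (dist_le_pi_dist z z₀ j)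
      rw [Real.dist_eq, Complex.dist_eq, ← Complex.sub_re]
      exact Complex.abs_re_le_norm _
  have hint : ∀ y₀, ∀ x ∈ C, Integrable (fun ξ : EuclideanSpace ℝ ι =>
      Complex.exp ((2 * Real.pi * ∑ j, x j * ξ j : ℝ)) * Ψ y₀ ξ) := by
    intro y₀ x hx
    obtain ⟨ε, hε, A, N, hA, hb⟩ := hloc x hx
    refine Integrable.mono' (g := fun ξ => A * (1 + ‖y₀‖) ^ N * dec ξ) (integrable_dec.const_mul _) ?_ ?_
    · exact ((by fun_prop : Continuous (fun ξ : EuclideanSpace ℝ ι =>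
        Complex.exp ((2 * Real.pi * ∑ j, x j * ξ j : ℝ)))).mul (hΨcont y₀)).aestronglyMeasurable
    · refine Filter.Eventually.of_forall fun ξ => ?_
      rw [norm_mul, Complex.norm_exp, Complex.ofReal_re]
      exact hb x (Metric.mem_ball_self hε) y₀ ξ
  have hgteq : ∀ y₀, Set.EqOn (gt (Ψ y₀)) (fun z => G z * gaus y₀ z) (tube Ω) := by
    intro y₀ z hz
    have hx : (fun j => (z j).re) ∈ Ω := hz
    have hinv := inversion hd hG y₀ hx (fun ξ => hΨx y₀ ξ _ hx) (hint y₀ _ (hΩC hx))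
      (WithLp.toLp 2 (fun j => (z j).im))
    unfold gt
    simp only
    have hpt : pt (fun j => (z j).re) (WithLp.toLp 2 (fun j => (z j).im) : EuclideanSpace ℝ ι) = z := pt_self z
    rw [gsl, hpt] at hinv
    exact hinv.symm
  set G' : (ι → ℂ) → ℂ := fun z => gt (Ψ 0) z / gaus 0 z with hG'
  have hdiv : ∀ y₀, DifferentiableOn ℂ (fun z => gt (Ψ y₀) z / gaus y₀ z) (tube C) := by
    intro y₀
    simp_rw [div_eq_mul_inv]
    exact (hgtd y₀).mul ((differentiable_gaus y₀).differentiableOn.fun_inv fun z _ => gaus_ne_zero y₀ z)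
  have hdivG : ∀ y₀, Set.EqOn (fun z => gt (Ψ y₀) z / gaus y₀ z) G (tube Ω) := by
    intro y₀ z hz
    simp only
    rw [hgteq y₀ hz, mul_div_assoc, div_self (gaus_ne_zero y₀ z), mul_one]
  have hsame : ∀ y₀, Set.EqOn G' (fun z => gt (Ψ y₀) z / gaus y₀ z) (tube C) := by
    intro y₀
    refine eqOn_tube_of_convex hCopen hCconv hΩ hΩC ⟨x₀, hx₀⟩ (hdiv 0) (hdiv y₀) ?_
    intro z hz
    exact (hdivG 0 hz).trans (hdivG y₀ hz).symm
  refine ⟨G', hdiv 0, hdivG 0, polyBdd_of_local ?_⟩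
  intro x hx
  obtain ⟨ε, hε, A, N, hA, hb⟩ := hloc x hx
  obtain ⟨r, hr, hball⟩ := Metric.isOpen_iff.mp hCopen x hx
  refine ⟨Metric.ball x (min ε r), Metric.ball_mem_nhds x (lt_min hε hr),
    A * ∫ ξ : EuclideanSpace ℝ ι, dec ξ, N, mul_nonneg hA (integral_nonneg fun y => dec_nonneg y), ?_⟩
  intro z hz
  have hzC : z ∈ tube C := hball (Metric.ball_subset_ball (min_le_right _ _) hz)
  rw [hsame (fun j => (z j).im) hzC]
  simp only
  rw [norm_div]
  have hg : 1 ≤ ‖gaus (fun j => (z j).im) z‖ := by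
    have hpt := pt_self z
    have h1 := norm_gaus (fun j => (z j).im) (fun j => (z j).re) (fun j => (z j).im)
    rw [hpt] at h1
    rw [h1]
    simp only [sub_self, ne_eq, OfNat.ofNat_ne_zero, not_false_eq_true, zero_pow, Finset.sum_const_zero,
      sub_zero, Real.one_le_exp_iff]
    exact Finset.sum_nonneg fun j _ => sq_nonneg _
  have hnum : ‖gt (Ψ (fun j => (z j).im)) z‖ ≤
      A * (∫ ξ : EuclideanSpace ℝ ι, dec ξ) * (1 + ‖fun j => (z j).im‖) ^ N := by
    unfold gt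
    refine (norm_integral_le_of_norm_le
      (g := fun ξ => A * (1 + ‖fun j => (z j).im‖) ^ N * dec ξ)
      (integrable_dec.const_mul _) (Filter.Eventually.of_forall fun ξ => ?_)).trans ?_
    · rw [norm_mul, norm_expfac]
      exact hb (fun j => (z j).re) (Metric.ball_subset_ball (min_le_left _ _) hz) _ ξ
    · rw [integral_const_mul]
      apply le_of_eq; ring
  calc ‖gt (Ψ (fun j => (z j).im)) z‖ / ‖gaus (fun j => (z j).im) z‖
      ≤ ‖gt (Ψ (fun j => (z j).im)) z‖ := div_le_self (norm_nonneg _) hg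
    _ ≤ _ := hnum

/-- The good set contains the domain. -/
theorem subset_goodSet {Ω : Set (ι → ℝ)} (hΩ : IsOpen Ω) (hpre : IsPreconnected Ω) {x₀ : ι → ℝ}
    (hx₀ : x₀ ∈ Ω) {G : (ι → ℂ) → ℂ} (hd : DifferentiableOn ℂ G (tube Ω)) (hG : PolyBdd Ω G) :
    Ω ⊆ goodSet (fun y₀ ξ => Itr G y₀ ξ x₀) := by
  intro x hx
  obtain ⟨A, N, hA, hb⟩ := Itr_bound hG hx
  exact ⟨A, N, hA, fun y₀ ξ => by
    simp only
    rw [← Itr_const hΩ hpre hd hG y₀ ξ hx hx₀]; exact hb y₀ ξ⟩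

/-- The tube theorem with one flat point. -/
theorem flat_tube {Ω : Set (Option κ → ℝ)} (hΩ : IsOpen Ω) (hpre : IsPreconnected Ω)
    {G : (Option κ → ℂ) → ℂ}
    (hd : DifferentiableOn ℂ G (tube Ω)) (hG : PolyBdd Ω G) {x₀ : Option κ → ℝ} (hx₀ : x₀ ∈ Ω)
    {c' : ℝ} (hc' : c' ≤ x₀ none) {N N' : ℕ} {B : (κ → ℝ) → ℝ} (hB0 : ∀ t, 0 ≤ B t)
    (hBint : Integrable (fun t => B t * ((1 + ‖t‖) ^ N')⁻¹))
    (hΦ : ∀ᵐ t : κ → ℝ, ∃ Φ : ℂ → ℂ, DifferentiableOn ℂ Φ {w | c' ≤ w.re ∧ w.re ≤ x₀ none} ∧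
      (∀ v : ℝ, Φ (x₀ none + v * Complex.I) = G (cpt x₀ t (x₀ none + v * Complex.I))) ∧
      ∀ w : ℂ, c' ≤ w.re → w.re ≤ x₀ none → ‖Φ w‖ ≤ B t * (1 + |w.im|) ^ N) :
    ∃ C : Set (Option κ → ℝ), IsOpen C ∧ Convex ℝ C ∧ Ω ⊆ C ∧
      (∀ u, c' < u → u ≤ x₀ none → rep x₀ u ∈ C) ∧
      ∃ G' : (Option κ → ℂ) → ℂ, DifferentiableOn ℂ G' (tube C) ∧
        Set.EqOn G' G (tube Ω) ∧ PolyBdd C G' := by
  set p := rep x₀ c' with hp
  have hpg := flat_good hd hG hx₀ hc' hB0 hBint hΦ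
  set S : Set (Option κ → ℝ) := convexHull ℝ (Ω ∪ {p}) with hS
  have hSg : S ⊆ goodSet (fun y₀ ξ => Itr G y₀ ξ x₀) := by
    apply convexHull_min _ (convex_goodSet _)
    rintro x (hx | hx)
    · exact subset_goodSet hΩ hpre hx₀ hd hG hx
    · rw [Set.mem_singleton_iff.mp hx]; exact hpg
  have hSc : Convex ℝ S := convex_convexHull ℝ _
  have hΩS : Ω ⊆ interior S :=
    interior_maximal (Set.subset_union_left.trans (subset_convexHull ℝ _)) hΩ
  refine ⟨interior S, isOpen_interior, hSc.interior, hΩS, ?_,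
    bochner_of_good hΩ hpre hx₀ hd hG isOpen_interior hSc.interior hΩS (interior_subset.trans hSg)⟩
  intro u hu1 hu2
  have hpS : p ∈ S := subset_convexHull ℝ _ (Or.inr rfl)
  have hden : 0 < x₀ none - c' := by linarith
  have h1 : rep x₀ u = ((u - c') / (x₀ none - c')) • x₀ + (1 - (u - c') / (x₀ none - c')) • p := by
    funext o
    cases o with
    | none =>
      show u = (u - c') / (x₀ none - c') * x₀ none + (1 - (u - c') / (x₀ none - c')) * c'
      field_simp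
      ring
    | some j =>
      show x₀ (some j) = (u - c') / (x₀ none - c') * x₀ (some j) +
        (1 - (u - c') / (x₀ none - c')) * x₀ (some j)
      ring
  rw [h1]
  refine hSc.combo_interior_self_mem_interior (hΩS hx₀) hpS (div_pos (by linarith) hden) ?_ (by ring)
  rw [sub_nonneg, div_le_one hden]
  linarith

end Pool.Agent.MDSM
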