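import Pool.Agent.MDSM.Back
import Pool.Agent.MDSM.Shift

/-!
# From the continuation of a Dirichlet series to the asymptotics of its Riesz means
-/

set_option autoImplicit false

open MeasureTheory Filter Topology Complex Set

namespace Pool.Agent.MDSM

variable {J : Type*} [Fintype J]

/-- the coefficients of the partial fraction expansion -/
noncomputable def bc (lam : J → ℂ) (j : J) : ℂ :=
  letI := Classical.decEq J
  ∏ i ∈ Finset.univ.erase j, (lam j - lam i)⁻¹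

theorem partial_fraction [Nonempty J] {lam : J → ℂ} (hinj : Function.Injective lam) {w : ℂ}
    (hw : ∀ j, w - lam j ≠ 0) : (qq lam w)⁻¹ = ∑ j, bc lam j / (w - lam j) := by
  classical
  have h := Lagrange.sum_basis (s := (Finset.univ : Finset J)) (v := lam) hinj.injOn Finset.univ_nonempty
  have h1 := congrArg (Polynomial.eval w) h
  rw [Polynomial.eval_finsetSum, Polynomial.eval_one] at h1
  have hq : qq lam w ≠ 0 := by
    unfold qq
    exact Finset.prod_ne_zero_iff.mpr fun j _ => hw j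
  have h2 : ∀ j, Polynomial.eval w (Lagrange.basis Finset.univ lam j) = bc lam j / (w - lam j) * qq lam w := by
    intro j
    unfold Lagrange.basis bc qq
    rw [Polynomial.eval_prod, ← Finset.mul_prod_erase Finset.univ (fun i => w - lam i) (Finset.mem_univ j),
      ← mul_assoc, div_mul_cancel₀ _ (hw j), ← Finset.prod_mul_distrib]
    refine Finset.prod_congr ?_ fun i _ => ?_
    · congr 1
    · simp [Lagrange.basisDivisor]
  simp_rw [h2, ← Finset.sum_mul] at h1
  exact (eq_inv_of_mul_eq_one_left h1).symm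

/-- the coefficients of the main term; the poles to the left of `θ` do not contribute -/
noncomputable def cf (lam : J → ℂ) (R : ℕ) (θ : ℝ) (Φ : ℂ → ℂ) (j : J) : ℂ :=
  if θ < (lam j).re then bc lam j * gR R (lam j) * Φ (lam j) else 0

theorem forward_core (m : ℕ) {c₁ θ : ℝ} (hθ0 : 0 < θ) (hθc : θ < c₁) (N R : ℕ) (hR : N + 1 ≤ R) :
    ∃ C : ℝ, 0 ≤ C ∧ ∀ (J : Type) [Fintype J] [Nonempty J] (a : ℕ → ℂ), Fintype.card J = m → a 0 = 0 →
      Summable (fun d : ℕ => ‖a d‖ * (d : ℝ) ^ (-c₁)) →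
      ∀ (lam : J → ℂ) (δ K : ℝ) (Φ : ℂ → ℂ), Function.Injective lam → 0 < δ → 0 ≤ K →
      (∀ j, δ ≤ |(lam j).re - θ|) → (∀ j, (lam j).re < c₁) →
      DifferentiableOn ℂ Φ {w | θ ≤ w.re ∧ w.re ≤ c₁} →
      (∀ v : ℝ, Φ (c₁ + v * I) = DS a (c₁ + v * I) * qq lam (c₁ + v * I)) →
      (∀ w : ℂ, θ ≤ w.re → w.re ≤ c₁ → ‖Φ w‖ ≤ K * (1 + |w.im|) ^ N) →
      ∀ u : ℝ, 0 < u → ‖RZ a R u - ∑ j, cf lam R θ Φ j * (u : ℂ) ^ (-(lam j))‖ ≤
        C * K * (δ⁻¹) ^ m * u ^ (-θ) := by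
  set m₁ : ℝ := min θ 1 / 2 with hm₁
  have hm₁0 : 0 < m₁ := by positivity
  set C₀ : ℝ := R.factorial * ((m₁ ^ (R + 1))⁻¹) with hC₀
  have hC₀0 : 0 ≤ C₀ := by positivity
  have hI₂ := integrable_inv_pow_one (R := 1) one_ne_zero 1
  set I₂ : ℝ := ∫ v : ℝ, ((1 * (1 + |v|)) ^ (1 + 1))⁻¹ with hI₂d
  have hI₂0 : 0 ≤ I₂ := integral_nonneg fun v => by positivity
  refine ⟨(2 * Real.pi)⁻¹ * (C₀ * I₂), by positivity, ?_⟩
  intro J _ _ a hcard ha0 hs lam δ K Φ hinj hδ hK hre1 hre2 hΦd hΦl hΦb u hu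
  have hR0 : R ≠ 0 := by omega
  have hreθ : ∀ j, θ ≠ (lam j).re := by
    intro j h
    have := hre1 j
    rw [← h, sub_self, abs_zero] at this
    linarith
  have hc₁ : 0 < c₁ := by linarith
  have hu0 : (u : ℂ) ≠ 0 := by exact_mod_cast hu.ne'
  set φ : ℂ → ℂ := fun w => (u : ℂ) ^ (-w) * (gR R w * Φ w) with hφ
  have hφd : DifferentiableOn ℂ φ {w | θ ≤ w.re ∧ w.re ≤ c₁} := by
    have h1 : Differentiable ℂ (fun w : ℂ => (u : ℂ) ^ (-w)) := fun w =>
      DifferentiableAt.const_cpow (by fun_prop) (Or.inl hu0)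
    have h2 : DifferentiableOn ℂ (gR R) {w | θ ≤ w.re ∧ w.re ≤ c₁} := fun w hw =>
      (differentiableAt_gR R (lt_of_lt_of_le hθ0 hw.1)).differentiableWithinAt
    exact h1.differentiableOn.mul (h2.mul hΦd)
  -- the bound
  have hgΦ : ∀ w : ℂ, θ ≤ w.re → w.re ≤ c₁ → ‖gR R w * Φ w‖ ≤ C₀ * K * ((1 * (1 + |w.im|)) ^ (1 + 1))⁻¹ := by
    intro w hw1 hw2
    rw [norm_mul]
    have h1 := norm_gR_le R hθ0 hw1
    have h2 := hΦb w hw1 hw2
    have h3 : (0 : ℝ) < 1 + |w.im| := by positivity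
    have h4 : (1 + |w.im|) ^ N * (1 * (1 + |w.im|)) ^ (1 + 1) ≤ (1 + |w.im|) ^ (R + 1) := by
      rw [one_mul, ← pow_add]
      exact pow_le_pow_right₀ (by have := abs_nonneg w.im; linarith) (by omega)
    calc ‖gR R w‖ * ‖Φ w‖ ≤ (R.factorial * ((m₁ * (1 + |w.im|)) ^ (R + 1))⁻¹) * (K * (1 + |w.im|) ^ N) := by
          gcongr
      _ = C₀ * K * ((1 + |w.im|) ^ N * ((1 + |w.im|) ^ (R + 1))⁻¹) := by
          rw [hC₀, mul_pow, mul_inv]; ring
      _ ≤ C₀ * K * ((1 * (1 + |w.im|)) ^ (1 + 1))⁻¹ := by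
          gcongr
          rw [← div_eq_mul_inv, div_le_iff₀ (by positivity), inv_mul_eq_div, le_div_iff₀ (by positivity)]
          exact h4
  have hnu : ∀ w : ℂ, ‖(u : ℂ) ^ (-w)‖ = u ^ (-w.re) := fun w => by
    rw [norm_cpow_eq_rpow_re_of_pos hu, neg_re]
  have hφb : ∀ w : ℂ, θ ≤ w.re → w.re ≤ c₁ → ‖φ w‖ ≤ u ^ (-w.re) * (C₀ * K * ((1 * (1 + |w.im|)) ^ (1 + 1))⁻¹) := by
    intro w hw1 hw2
    simp only [hφ]
    rw [norm_mul, hnu]
    exact mul_le_mul_of_nonneg_left (hgΦ w hw1 hw2) (by positivity)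
  have hφint : ∀ c : ℝ, θ ≤ c → c ≤ c₁ → Integrable (fun v : ℝ => φ (c + v * I)) := by
    intro c hc1 hc2
    have hcont : Continuous (fun v : ℝ => φ (c + v * I)) := by
      refine hφd.continuousOn.comp_continuous (by fun_prop) fun v => ?_
      simp only [Set.mem_ofPred_eq]
      simpa using ⟨hc1, hc2⟩
    refine Integrable.mono' (g := fun v : ℝ => u ^ (-c) * (C₀ * K * ((1 * (1 + |v|)) ^ (1 + 1))⁻¹))
      ((hI₂.const_mul _).const_mul _) hcont.aestronglyMeasurable (Filter.Eventually.of_forall fun v => ?_)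
    have := hφb (c + v * I) (by simpa using hc1) (by simpa using hc2)
    simpa using this
  have hBt : Tendsto (fun T : ℝ => (u ^ (-θ) + u ^ (-c₁)) * (C₀ * K * ((1 * (1 + T)) ^ (1 + 1))⁻¹))
      atTop (𝓝 0) := by
    have h1 : Tendsto (fun T : ℝ => ((1 * (1 + T)) ^ (1 + 1))⁻¹) atTop (𝓝 0) := by
      refine tendsto_inv_atTop_zero.comp ((tendsto_pow_atTop two_ne_zero).comp ?_)
      simp only [one_mul]
      exact tendsto_atTop_add_const_left _ _ tendsto_id
    have h2 := (h1.const_mul (C₀ * K)).const_mul (u ^ (-θ) + u ^ (-c₁))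
    simpa using h2
  have hBb : ∀ᶠ T : ℝ in atTop, ∀ w : ℂ, θ ≤ w.re → w.re ≤ c₁ → |w.im| = T →
      ‖φ w‖ ≤ (u ^ (-θ) + u ^ (-c₁)) * (C₀ * K * ((1 * (1 + T)) ^ (1 + 1))⁻¹) := by
    refine Filter.Eventually.of_forall fun T w hw1 hw2 hw3 => ?_
    refine (hφb w hw1 hw2).trans ?_
    have hT0 : 0 ≤ T := hw3 ▸ abs_nonneg _
    rw [hw3]
    have h1 : u ^ (-w.re) ≤ u ^ (-θ) + u ^ (-c₁) := by
      rcases le_total u 1 with h | h
      · have := Real.rpow_le_rpow_of_exponent_ge hu h (show -c₁ ≤ -w.re by linarith)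
        have h2 : 0 ≤ u ^ (-θ) := by positivity
        linarith
      · have := Real.rpow_le_rpow_of_exponent_le h (show -w.re ≤ -θ by linarith)
        have h2 : 0 ≤ u ^ (-c₁) := by positivity
        linarith
    gcongr
  have hne : ∀ (c : ℝ), (∀ j, c ≠ (lam j).re) → ∀ (v : ℝ) j, (c + v * I : ℂ) - lam j ≠ 0 := by
    intro c hc v j h
    have := congrArg Complex.re h
    simp at this
    exact hc j (by linarith)
  have hne1 := hne c₁ (fun j => (hre2 j).ne')
  have hneθ := hne θ hreθ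
  -- the shift for each pole
  have hpole : ∀ j, Integrable (fun v : ℝ => φ (θ + v * I) / (θ + v * I - lam j)) ∧
      Integrable (fun v : ℝ => φ (c₁ + v * I) / (c₁ + v * I - lam j)) ∧
      ∫ v : ℝ, φ (c₁ + v * I) / (c₁ + v * I - lam j) =
        (∫ v : ℝ, φ (θ + v * I) / (θ + v * I - lam j)) +
          (if θ < (lam j).re then 2 * Real.pi * φ (lam j) else 0) := by
    intro j
    by_cases hj : θ < (lam j).re
    · rw [if_pos hj]
      exact vertical_shift_pole hj (hre2 j) hφd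
        (hφint θ le_rfl hθc.le) (hφint c₁ hθc.le le_rfl) hBt hBb
    · rw [if_neg hj, add_zero]
      have hj' : (lam j).re < θ := lt_of_le_of_ne (not_lt.mp hj) (hreθ j).symm
      have hδj : 0 < θ - (lam j).re := by linarith
      have hnew : ∀ w : ℂ, θ ≤ w.re → θ - (lam j).re ≤ ‖w - lam j‖ := by
        intro w hw
        have h1 := Complex.re_le_norm (w - lam j)
        rw [sub_re] at h1
        linarith
      have hnew0 : ∀ w : ℂ, θ ≤ w.re → w - lam j ≠ 0 := fun w hw =>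
        norm_pos_iff.mp (lt_of_lt_of_le hδj (hnew w hw))
      have hint : ∀ c : ℝ, θ ≤ c → c ≤ c₁ → Integrable (fun v : ℝ => φ (c + v * I) / (c + v * I - lam j)) := by
        intro c hc1 hc2
        have hcc : Continuous (fun v : ℝ => ((c : ℂ) + v * I - lam j)⁻¹) :=
          Continuous.inv₀ (by fun_prop) fun v => hnew0 _ (by simpa using hc1)
        have := (hφint c hc1 hc2).mul_bdd (c := (θ - (lam j).re)⁻¹)
          (g := fun v : ℝ => ((c : ℂ) + v * I - lam j)⁻¹)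
          hcc.aestronglyMeasurable (Filter.Eventually.of_forall fun v => by
            rw [norm_inv]
            exact inv_anti₀ hδj (hnew _ (by simpa using hc1)))
        simpa [div_eq_mul_inv] using this
      refine ⟨hint θ le_rfl hθc.le, hint c₁ hθc.le le_rfl, ?_⟩
      symm
      refine vertical_shift (f := fun w => φ w / (w - lam j)) hθc.le ?_ (hint θ le_rfl hθc.le)
        (hint c₁ hθc.le le_rfl) (B := fun T => ((u ^ (-θ) + u ^ (-c₁)) *
          (C₀ * K * ((1 * (1 + T)) ^ (1 + 1))⁻¹)) * (θ - (lam j).re)⁻¹) ?_ ?_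
      · exact hφd.div (by fun_prop) fun w hw => hnew0 w hw.1
      · simpa using hBt.mul_const (θ - (lam j).re)⁻¹
      · filter_upwards [hBb] with T hT w hw1 hw2 hw3
        rw [norm_div, div_eq_mul_inv]
        have h1 := hT w hw1 hw2 hw3
        have h2 : ‖w - lam j‖⁻¹ ≤ (θ - (lam j).re)⁻¹ := inv_anti₀ hδj (hnew w hw1)
        exact mul_le_mul h1 h2 (by positivity) ((norm_nonneg _).trans h1)
  -- Perron's formula
  have hper := perron ha0 hR0 hc₁ hs hu
  have hq1 : ∀ v : ℝ, (u : ℂ) ^ (-((c₁ : ℂ) + v * I)) * (DS a (c₁ + v * I) * gR R (c₁ + v * I)) =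
      ∑ j, bc lam j * (φ (c₁ + v * I) / (c₁ + v * I - lam j)) := by
    intro v
    have h1 := partial_fraction hinj (hne1 v)
    have h2 : qq lam (c₁ + v * I) ≠ 0 := Finset.prod_ne_zero_iff.mpr fun j _ => hne1 v j
    have h3 : ∑ j, bc lam j * (φ (c₁ + v * I) / (c₁ + v * I - lam j)) =
        φ (c₁ + v * I) * (qq lam (c₁ + v * I))⁻¹ := by
      rw [h1, Finset.mul_sum]
      refine Finset.sum_congr rfl fun j _ => ?_
      ring
    rw [h3]
    simp only [hφ]
    rw [hΦl]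
    field_simp
  have hqθ : ∀ v : ℝ, φ (θ + v * I) * (qq lam (θ + v * I))⁻¹ =
      ∑ j, bc lam j * (φ (θ + v * I) / (θ + v * I - lam j)) := by
    intro v
    rw [partial_fraction hinj (hneθ v), Finset.mul_sum]
    refine Finset.sum_congr rfl fun j _ => ?_
    ring
  rw [integral_congr_ae (Filter.Eventually.of_forall hq1),
    integral_finsetSum _ (fun j _ => (hpole j).2.1.const_mul _)] at hper
  simp_rw [integral_const_mul, (hpole _).2.2] at hper
  have hper2 : RZ a R u - ∑ j, cf lam R θ Φ j * (u : ℂ) ^ (-(lam j)) =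
      (1 / (2 * Real.pi) : ℂ) * ∫ v : ℝ, φ (θ + v * I) * (qq lam (θ + v * I))⁻¹ := by
    rw [integral_congr_ae (Filter.Eventually.of_forall hqθ),
      integral_finsetSum _ (fun j _ => (hpole j).1.const_mul _), hper]
    simp_rw [integral_const_mul]
    have hpi : (2 * (Real.pi : ℂ)) ≠ 0 := by
      have := Real.pi_ne_zero
      simp [this]
    rw [Finset.mul_sum, Finset.mul_sum, ← Finset.sum_sub_distrib]
    refine Finset.sum_congr rfl fun j _ => ?_
    have hφl : φ (lam j) = (u : ℂ) ^ (-(lam j)) * (gR R (lam j) * Φ (lam j)) := rfl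
    unfold cf
    split_ifs with hj
    · rw [hφl]
      generalize (∫ v : ℝ, φ (θ + v * I) / (θ + v * I - lam j)) = Y
      field_simp
      ring
    · rw [add_zero, zero_mul, sub_zero]
  rw [hper2, norm_mul]
  have hn1 : ‖(1 / (2 * Real.pi) : ℂ)‖ = (2 * Real.pi)⁻¹ := by
    rw [norm_div, norm_one, norm_mul, Complex.norm_real, Real.norm_of_nonneg Real.pi_pos.le, one_div]
    simp
  rw [hn1]
  have hqb : ∀ v : ℝ, ‖(qq lam (θ + v * I))⁻¹‖ ≤ (δ⁻¹) ^ m := by
    intro v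
    unfold qq
    rw [norm_inv, norm_prod, ← Finset.prod_inv_distrib, ← hcard]
    calc ∏ j, ‖(θ + v * I : ℂ) - lam j‖⁻¹ ≤ ∏ _j : J, δ⁻¹ := by
          refine Finset.prod_le_prod (fun _ _ => by positivity) fun j _ => ?_
          apply inv_anti₀ hδ
          have h1 := Complex.abs_re_le_norm ((θ + v * I : ℂ) - lam j)
          simp only [sub_re, add_re, ofReal_re, mul_re, I_re, mul_zero, ofReal_im, I_im, mul_one, sub_self,
            add_zero] at h1
          have h2 := hre1 j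
          rw [abs_sub_comm] at h2
          exact h2.trans h1
      _ = _ := by simp
  have hfin : ‖∫ v : ℝ, φ (θ + v * I) * (qq lam (θ + v * I))⁻¹‖ ≤
      ∫ v : ℝ, (u ^ (-θ) * (C₀ * K) * (δ⁻¹) ^ m) * ((1 * (1 + |v|)) ^ (1 + 1))⁻¹ := by
    refine norm_integral_le_of_norm_le (hI₂.const_mul _) (Filter.Eventually.of_forall fun v => ?_)
    rw [norm_mul]
    have h1 := hφb (θ + v * I) (by simp) (by simpa using hθc.le)
    simp only [add_re, ofReal_re, mul_re, I_re, mul_zero, ofReal_im, I_im, mul_one, sub_self,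
            add_zero, add_im, mul_im, zero_add] at h1
    calc ‖φ (θ + v * I)‖ * ‖(qq lam (θ + v * I))⁻¹‖
        ≤ (u ^ (-θ) * (C₀ * K * ((1 * (1 + |v|)) ^ (1 + 1))⁻¹)) * (δ⁻¹) ^ m := by
          apply mul_le_mul h1 (hqb v) (norm_nonneg _) (by positivity)
      _ = _ := by ring
  rw [integral_const_mul] at hfin
  calc (2 * Real.pi)⁻¹ * ‖∫ v : ℝ, φ (θ + v * I) * (qq lam (θ + v * I))⁻¹‖
      ≤ (2 * Real.pi)⁻¹ * ((u ^ (-θ) * (C₀ * K) * (δ⁻¹) ^ m) * I₂) := by gcongr
    _ = _ := by ring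

end Pool.Agent.MDSM
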