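import Pool.Agent.MDSM.ConvQ
import Pool.Agent.MDSM.Forward
import Pool.Agent.MDSM.Flat
import Pool.Agent.MDSM.Defs

set_option autoImplicit false

open Complex Filter Topology MeasureTheory
open Pool.Agent.TubeDS Pool.Agent.MDS

namespace Pool.Agent.MDSM

theorem Lent_spec {d : ℕ} (hd : IsFundDisc d) (h1 : 1 < d) :
    Differentiable ℂ (Lent d) ∧ ∀ s : ℂ, 1 < s.re → Lent d s = L d s := by
  have h : ∃ f : ℂ → ℂ, Differentiable ℂ f ∧ ∀ s : ℂ, 1 < s.re → f s = L d s :=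
    ⟨Lc d, (Lc_spec hd h1).1, (Lc_spec hd h1).2.1⟩
  exact Classical.epsilon_spec h

theorem Lent_eq {d : ℕ} (hd : IsFundDisc d) (h1 : 1 < d) : Lent d = Lc d := by
  obtain ⟨e1, e2⟩ := Lent_spec hd h1
  obtain ⟨f1, f2, _⟩ := Lc_spec hd h1
  have hA : AnalyticOnNhd ℂ (Lent d) Set.univ := e1.differentiableOn.analyticOnNhd isOpen_univ
  have hB : AnalyticOnNhd ℂ (Lc d) Set.univ := f1.differentiableOn.analyticOnNhd isOpen_univ
  have hev : Lent d =ᶠ[𝓝 (2 : ℂ)] Lc d := by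
    have : {s : ℂ | 1 < s.re} ∈ 𝓝 (2 : ℂ) :=
      (isOpen_lt continuous_const Complex.continuous_re).mem_nhds (by simp)
    filter_upwards [this] with s hs
    rw [e2 s hs, f2 s hs]
  have := hA.eqOn_of_preconnected_of_eventuallyEq hB isPreconnected_univ (Set.mem_univ _) hev
  funext s
  exact this (Set.mem_univ s)

open Classical in
/-- the coefficients -/
noncomputable def coef (k M : ℕ) (σ t : Fin k → ℝ) (d : ℕ) : ℂ :=
  if IsFundDisc d ∧ 1 < d then (kron d M : ℂ) * ∏ j, Lc d (σ j + t j * I) else 0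

theorem coef_zero (k M : ℕ) (σ t : Fin k → ℝ) : coef k M σ t 0 = 0 := by
  unfold coef; rw [if_neg (by rintro ⟨_, h⟩; omega)]

/-- the exponents -/
noncomputable def lamt {k : ℕ} (σ t : Fin k → ℝ) (J : Finset (Fin k)) : ℂ :=
  1 - ∑ j ∈ J, ((σ j : ℂ) - 1 / 2 + t j * I)

theorem lamt_re {k : ℕ} (σ t : Fin k → ℝ) (J : Finset (Fin k)) :
    (lamt σ t J).re = 1 - ∑ j ∈ J, (σ j - 1 / 2) := by
  unfold lamt
  rw [sub_re, one_re, re_sum]
  congr 1
  refine Finset.sum_congr rfl fun j _ => ?_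
  simp

theorem lamt_im {k : ℕ} (σ t : Fin k → ℝ) (J : Finset (Fin k)) :
    (lamt σ t J).im = -∑ j ∈ J, t j := by
  unfold lamt
  rw [sub_im, one_im, im_sum, zero_sub]
  congr 1
  refine Finset.sum_congr rfl fun j _ => ?_
  simp

theorem lamt_inj {k : ℕ} (σ : Fin k → ℝ) {t : Fin k → ℝ} (ht : Generic t) :
    Function.Injective (lamt σ t) := by
  intro J J' h
  apply ht
  have := congrArg Complex.im h
  rw [lamt_im, lamt_im, neg_inj] at this
  exact this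

/-- the constant in the bound of the exponents -/
noncomputable def sb {k : ℕ} (σ : Fin k → ℝ) : ℝ := 1 + ∑ j, (|σ j| + 1 / 2)

theorem sb_pos {k : ℕ} (σ : Fin k → ℝ) : 1 ≤ sb σ := by
  unfold sb
  have : 0 ≤ ∑ j, (|σ j| + 1 / 2) := Finset.sum_nonneg fun j _ => by positivity
  linarith

theorem norm_lamt_le {k : ℕ} (σ t : Fin k → ℝ) (J : Finset (Fin k)) :
    ‖lamt σ t J‖ ≤ sb σ + k * ‖t‖ := by
  unfold lamt
  refine (norm_sub_le _ _).trans ?_
  rw [norm_one]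
  have h1 : ‖∑ j ∈ J, ((σ j : ℂ) - 1 / 2 + t j * I)‖ ≤ ∑ j, ((|σ j| + 1 / 2) + ‖t‖) := by
    refine (norm_sum_le _ _).trans ?_
    refine (Finset.sum_le_sum_of_subset_of_nonneg (Finset.subset_univ J) fun _ _ _ => norm_nonneg _).trans ?_
    refine Finset.sum_le_sum fun j _ => ?_
    refine (norm_add_le _ _).trans (add_le_add ?_ ?_)
    · refine (norm_sub_le _ _).trans ?_
      rw [Complex.norm_real, Real.norm_eq_abs]
      norm_num
    · rw [norm_mul, norm_I, mul_one, Complex.norm_real]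
      exact norm_le_pi_norm t j
  have h2 : ∑ j : Fin k, ((|σ j| + 1 / 2) + ‖t‖) = ∑ j, (|σ j| + 1 / 2) + k * ‖t‖ := by
    rw [Finset.sum_add_distrib, Finset.sum_const, Finset.card_univ, Fintype.card_fin, nsmul_eq_mul]
  rw [h2] at h1
  unfold sb
  linarith

/-- the real point `(σ; c)` -/
noncomputable def xp {k : ℕ} (σ : Fin k → ℝ) (c : ℝ) : Option (Fin k) → ℝ := fun o => o.elim c σ

theorem cpt_some {k : ℕ} (σ : Fin k → ℝ) (c : ℝ) (t : Fin k → ℝ) (w : ℂ) (j : Fin k) :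
    cpt (xp σ c) t w (some j) = σ j + t j * I := rfl

theorem cpt_none {k : ℕ} (σ : Fin k → ℝ) (c : ℝ) (t : Fin k → ℝ) (w : ℂ) :
    cpt (xp σ c) t w none = w := rfl

theorem tm_cpt (k M : ℕ) {d : ℕ} (hd : IsFundDisc d) (h1 : 1 < d) (σ : Fin k → ℝ) (c : ℝ)
    (t : Fin k → ℝ) (w : ℂ) :
    tm k M d (cpt (xp σ c) t w) = coef k M σ t d * (d : ℂ) ^ (-w) := by
  unfold tm coef
  rw [if_pos ⟨hd, h1⟩]
  simp only [cpt_some, cpt_none]
  ring

theorem E_cpt (k M : ℕ) (σ : Fin k → ℝ) (c : ℝ) (t : Fin k → ℝ) (w : ℂ) :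
    E k M (cpt (xp σ c) t w) = DS (coef k M σ t) w := by
  unfold E DS
  have h1 : ∀ d : FD, tm k M d (cpt (xp σ c) t w) = coef k M σ t d * ((d : ℕ) : ℂ) ^ (-w) := fun d =>
    tm_cpt k M d.2.1 d.2.2 σ c t w
  simp_rw [h1]
  have h2 := tsum_subtype {d : ℕ | IsFundDisc d ∧ 1 < d} (fun d : ℕ => coef k M σ t d * (d : ℂ) ^ (-w))
  refine Eq.trans ?_ (h2.trans ?_)
  · rfl
  · refine tsum_congr fun d => ?_
    by_cases h : IsFundDisc d ∧ 1 < d
    · rw [Set.indicator_of_mem (show d ∈ {d : ℕ | IsFundDisc d ∧ 1 < d} from h)]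
    · rw [Set.indicator_of_notMem (show d ∉ {d : ℕ | IsFundDisc d ∧ 1 < d} from h)]
      unfold coef
      rw [if_neg h, zero_mul]

theorem pol_cpt (k : ℕ) (σ : Fin k → ℝ) (c : ℝ) (t : Fin k → ℝ) (w : ℂ) :
    pol (cpt (xp σ c) t w) = qq (lamt σ t) w := by
  unfold pol qq
  refine Finset.prod_congr rfl fun J _ => ?_
  rw [sig_eq, cpt_none]
  simp only [cpt_some]
  have h1 : ∑ l : Fin k, (if l ∈ J then ((σ l : ℂ) + t l * I - 1 / 2 : ℂ) else 0) =
      ∑ j ∈ J, ((σ j : ℂ) - 1 / 2 + t j * I) := by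
    rw [Finset.sum_ite_mem, Finset.univ_inter]
    refine Finset.sum_congr rfl fun j _ => ?_
    ring
  rw [h1]
  unfold lamt
  ring

theorem Fc_cpt (k M : ℕ) (σ : Fin k → ℝ) (c : ℝ) (t : Fin k → ℝ) (w : ℂ) :
    Fc k M (cpt (xp σ c) t w) = DS (coef k M σ t) w * qq (lamt σ t) w := by
  unfold Fc
  rw [E_cpt, pol_cpt]

/-- the abscissa of absolute convergence used here -/
noncomputable def c1 {k : ℕ} (σ : Fin k → ℝ) : ℝ := 2 + ∑ j, (3 / 2 + |σ j|)

theorem xp_mem_R0 {k : ℕ} {σ : Fin k → ℝ} {c : ℝ} (hc : c1 σ ≤ c) : xp σ c ∈ R0 k := by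
  show 1 + ∑ j : Fin k, (3 / 2 + |σ j|) < c
  unfold c1 at hc
  linarith

theorem c1_pos {k : ℕ} (σ : Fin k → ℝ) : 0 < c1 σ := by
  unfold c1
  have : 0 ≤ ∑ j, (3 / 2 + |σ j|) := Finset.sum_nonneg fun j _ => by positivity
  linarith

theorem lamt_re_lt {k : ℕ} (σ t : Fin k → ℝ) (J : Finset (Fin k)) : (lamt σ t J).re < c1 σ := by
  rw [lamt_re]
  unfold c1
  have h1 : -∑ j ∈ J, (σ j - 1 / 2) ≤ ∑ j, (3 / 2 + |σ j|) := by
    rw [← Finset.sum_neg_distrib]
    refine (Finset.sum_le_sum (g := fun j => 3 / 2 + |σ j|) fun j _ => ?_).trans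
      (Finset.sum_le_sum_of_subset_of_nonneg (Finset.subset_univ J) fun _ _ _ => by positivity)
    have := neg_abs_le (σ j)
    linarith
  linarith

/-- polynomial bound for the coefficient sums -/
theorem coef_sum_bound {k : ℕ} (σ : Fin k → ℝ) {c : ℝ} (hc : c1 σ ≤ c) : ∃ (C : ℝ) (N : ℕ), 0 ≤ C ∧
    ∀ (M : ℕ) (t : Fin k → ℝ), Summable (fun d : ℕ => ‖coef k M σ t d‖ * (d : ℝ) ^ (-c)) ∧
      ∑' d : ℕ, ‖coef k M σ t d‖ * (d : ℝ) ^ (-c) ≤ C * (1 + ‖t‖) ^ N := by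
  obtain ⟨U, hU, C, N, δ, hC, hδ, hb⟩ := tm_local_bound (xp_mem_R0 (σ := σ) hc)
  have hsum := summable_zr (σ := 1 + δ) (by linarith)
  refine ⟨C * ∑' d : ℕ, ((d : ℝ) ^ (1 + δ))⁻¹, N, mul_nonneg hC (tsum_nonneg fun d => by positivity), ?_⟩
  intro M t
  have hpt : ∀ d : ℕ, ‖coef k M σ t d‖ * (d : ℝ) ^ (-c) ≤ C * ((d : ℝ) ^ (1 + δ))⁻¹ * (1 + ‖t‖) ^ N := by
    intro d
    by_cases h : IsFundDisc d ∧ 1 < d
    · have h1 := hb M d h.1 h.2 (cpt (xp σ c) t c) (by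
        have : (fun o => (cpt (xp σ c) t c o).re) = xp σ c := by
          funext o
          cases o with
          | none => simp [cpt_none, xp]
          | some j => rw [cpt_some]; simp [xp]
        rw [this]
        exact mem_of_mem_nhds hU)
      rw [tm_cpt k M h.1 h.2, norm_mul, norm_natCast_cpow_of_pos (by omega)] at h1
      simp only [neg_re, ofReal_re] at h1
      refine h1.trans ?_
      have h2 : ‖fun o => (cpt (xp σ c) t c o).im‖ ≤ ‖t‖ := by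
        rw [pi_norm_le_iff_of_nonneg (norm_nonneg _)]
        intro o
        cases o with
        | none => simp [cpt_none]
        | some j => rw [cpt_some]; simpa using norm_le_pi_norm t j
      gcongr
    · unfold coef
      rw [if_neg h, norm_zero, zero_mul]
      positivity
  have hsum2 := (hsum.mul_left C).mul_right ((1 + ‖t‖) ^ N)
  have hs : Summable (fun d : ℕ => ‖coef k M σ t d‖ * (d : ℝ) ^ (-c)) :=
    Summable.of_nonneg_of_le (fun d => by positivity) hpt hsum2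
  refine ⟨hs, (Summable.tsum_le_tsum hpt hs hsum2).trans ?_⟩
  rw [tsum_mul_right, tsum_mul_left]

/-- the moments as Riesz means -/
theorem moment_eq (k M R : ℕ) (σ t : Fin k → ℝ) {X : ℝ} (hX : 1 ≤ X) :
    moment k M R σ t X = RZ (coef k M σ t) R (1 / X) := by
  classical
  have hX0 : 0 < X := by linarith
  unfold moment RZ
  symm
  rw [tsum_eq_sum (s := (Finset.Ioc 1 ⌊X⌋₊).filter IsFundDisc)]
  · refine Finset.sum_congr (by congr) fun d hd => ?_
    rw [Finset.mem_filter, Finset.mem_Ioc] at hd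
    have h1 : (d : ℝ) ≤ X := (Nat.le_floor_iff hX0.le).mp hd.1.2
    unfold coef kR
    rw [if_pos ⟨hd.2, hd.1.1⟩, if_pos (by rw [mul_one_div, div_le_one hX0]; exact h1)]
    rw [Lent_eq hd.2 hd.1.1]
    push_cast
    rw [mul_one_div]
    ring
  · intro d hd
    rw [Finset.mem_filter, Finset.mem_Ioc] at hd
    by_cases h : IsFundDisc d ∧ 1 < d
    · have h1 : ¬ d ≤ ⌊X⌋₊ := fun h2 => hd ⟨⟨h.2, h2⟩, h.1⟩
      have h2 : X < d := by
        by_contra h3
        exact h1 ((Nat.le_floor_iff hX0.le).mpr (not_lt.mp h3))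
      rw [kR_zero_of_lt (by rw [mul_one_div, one_lt_div hX0]; exact h2)]
      simp
    · unfold coef
      rw [if_neg h, zero_mul]

theorem mainTerm_eq {k : ℕ} (c : Finset (Fin k) → ℂ) (σ t : Fin k → ℝ) {u : ℝ} (hu : 0 < u) (hu1 : u ≤ 1) :
    mainTerm c σ t (1 / u) = MTm (lamt σ t) c u := by
  unfold mainTerm MTm
  refine Finset.sum_congr rfl fun J _ => ?_
  rw [Set.indicator_of_mem (show u ∈ Set.Ioc (0 : ℝ) 1 from ⟨hu, hu1⟩)]
  congr 1
  rw [cpow_neg, one_div, ofReal_inv, inv_cpow]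
  · rfl
  · rw [arg_ofReal_of_nonneg hu.le]
    exact Real.pi_pos.ne

theorem Err_eq {k : ℕ} (M R : ℕ) (c : Finset (Fin k) → ℂ) (σ t : Fin k → ℝ) {u : ℝ} (hu : 0 < u) (hu1 : u ≤ 1) :
    Err (coef k M σ t) R (lamt σ t) c u = moment k M R σ t (1 / u) - mainTerm c σ t (1 / u) := by
  unfold Err
  rw [mainTerm_eq c σ t hu hu1, moment_eq k M R σ t (by rw [le_div_iff₀ hu]; linarith), one_div_one_div]

end Pool.Agent.MDSM
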