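import Pool.Agent.MDSM.Mean

set_option autoImplicit false

open Complex Filter Topology MeasureTheory Set
open Pool.Agent.TubeDS Pool.Agent.MDS
open scoped ENNReal

namespace Pool.Agent.MDSM

theorem re_cpt_xp {k : ℕ} (σ : Fin k → ℝ) (c : ℝ) (t : Fin k → ℝ) (w : ℂ) :
    (fun o => (cpt (xp σ c) t w o).re) = xp σ w.re := by
  funext o
  cases o with
  | none => rfl
  | some j => rw [cpt_some]; simp [xp]

theorem norm_im_cpt_xp {k : ℕ} (σ : Fin k → ℝ) (c : ℝ) (t : Fin k → ℝ) (w : ℂ) :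
    ‖fun o => (cpt (xp σ c) t w o).im‖ ≤ |w.im| + ‖t‖ := by
  rw [pi_norm_le_iff_of_nonneg (by positivity)]
  intro o
  cases o with
  | none =>
    show |w.im| ≤ _
    linarith [norm_nonneg t]
  | some j =>
    rw [cpt_some]
    have h1 := norm_le_pi_norm t j
    have h2 := abs_nonneg w.im
    simp only [add_im, mul_im, ofReal_re, I_im, mul_one, ofReal_im, I_re,
      mul_zero, add_zero, zero_add]
    linarith

theorem xp_seg {k : ℕ} {σ : Fin k → ℝ} {D : Set (Option (Fin k) → ℝ)} (hD : Convex ℝ D) {a b : ℝ}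
    (ha : xp σ a ∈ D) (hb : xp σ b ∈ D) {u : ℝ} (h1 : a ≤ u) (h2 : u ≤ b) : xp σ u ∈ D := by
  rcases eq_or_lt_of_le (h1.trans h2) with h | h
  · have : u = a := le_antisymm (h ▸ h2) h1
    rw [this]; exact ha
  · have hd : 0 < b - a := by linarith
    have e : xp σ u = ((b - u) / (b - a)) • xp σ a + ((u - a) / (b - a)) • xp σ b := by
      funext o
      cases o with
      | none =>
        show u = (b - u) / (b - a) * a + (u - a) / (b - a) * b
        field_simp
        ring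
      | some j =>
        show σ j = (b - u) / (b - a) * σ j + (u - a) / (b - a) * σ j
        field_simp
        ring
    rw [e]
    exact hD ha hb (div_nonneg (by linarith) hd.le) (div_nonneg (by linarith) hd.le) (by field_simp; ring)

theorem continuous_lamt {k : ℕ} (σ : Fin k → ℝ) (J : Finset (Fin k)) :
    Continuous (fun t : Fin k → ℝ => lamt σ t J) := by
  unfold lamt; fun_prop

theorem continuous_xp {k : ℕ} (σ : Fin k → ℝ) : Continuous (fun u : ℝ => xp σ u) := by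
  refine continuous_pi fun o => ?_
  cases o with
  | none => exact continuous_id
  | some j => exact (continuous_const : Continuous fun _ : ℝ => σ j)

/-- The strong form of the asymptotic formula, with measurable coefficients. -/
theorem strong_of_extendsTo {k M : ℕ} {σ : Fin k → ℝ} {θ : ℝ} (hθ0 : 0 < θ)
    (hθ1 : ∀ J : Finset (Fin k), 1 - ∑ j ∈ J, (σ j - 1 / 2) ≠ θ) (h : ExtendsTo k M (σ, θ)) :
    ∃ (R N : ℕ) (C : ℝ) (c : Finset (Fin k) → (Fin k → ℝ) → ℂ), 0 ≤ C ∧ (∀ J, Measurable (c J)) ∧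
      ∀ t : Fin k → ℝ, Generic t → ∀ X : ℝ, 1 ≤ X →
        ‖moment k M R σ t X - mainTerm (fun J => c J t) σ t X‖ ≤ C * (1 + ‖t‖) ^ N * X ^ θ := by
  obtain ⟨D, hD, hθD⟩ := h.good
  have hθD' : xp σ θ ∈ D := by
    have : (ofP ((σ, θ) : (Fin k → ℝ) × ℝ) : Option (Fin k) → ℝ) = xp σ θ := by
      funext o; cases o <;> rfl
    rwa [this] at hθD
  set c₁ : ℝ := c1 σ + θ with hc₁
  have hc1p := c1_pos σ
  have hθc : θ < c₁ := by rw [hc₁]; linarith
  have hc₁1 : c1 σ ≤ c₁ := by rw [hc₁]; linarith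
  have hcR : xp σ c₁ ∈ R0 k := xp_mem_R0 hc₁1
  have hseg : ∀ u, θ ≤ u → u ≤ c₁ → xp σ u ∈ D := fun u h1 h2 =>
    xp_seg hD.convex hθD' (hD.subR hcR) h1 h2
  obtain ⟨δ, hδ0, hδ⟩ : ∃ δ > 0, ∀ J : Finset (Fin k), δ ≤ |1 - ∑ j ∈ J, (σ j - 1 / 2) - θ| := by
    obtain ⟨J₀, -, hJ₀⟩ := Finset.exists_min_image (Finset.univ : Finset (Finset (Fin k)))
      (fun J => |1 - ∑ j ∈ J, (σ j - 1 / 2) - θ|) Finset.univ_nonempty
    exact ⟨_, abs_pos.mpr (sub_ne_zero.mpr (hθ1 J₀)), fun J => hJ₀ J (Finset.mem_univ _)⟩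
  obtain ⟨G, hGd, hGb, hGR, -⟩ := hD.ex
  obtain ⟨C, N, hC⟩ := hGb ((fun u => xp σ u) '' Icc θ c₁)
    (by rintro _ ⟨u, hu, rfl⟩; exact hseg u hu.1 hu.2) (isCompact_Icc.image (continuous_xp σ))
  obtain ⟨C', hC'0, hcore⟩ := forward_core (Fintype.card (Finset (Fin k))) hθ0 hθc N (N + 1) le_rfl
  obtain ⟨_, _, _, hcs⟩ := coef_sum_bound σ hc₁1
  set Φ : (Fin k → ℝ) → ℂ → ℂ := fun t w => G (cpt (xp σ c₁) t w) with hΦ
  have hmemD : ∀ (t : Fin k → ℝ) (w : ℂ), θ ≤ w.re → w.re ≤ c₁ → cpt (xp σ c₁) t w ∈ tube D := by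
    intro t w h1 h2
    show (fun o => (cpt (xp σ c₁) t w o).re) ∈ D
    rw [re_cpt_xp]; exact hseg _ h1 h2
  refine ⟨N + 1, N, C' * |C| * (δ⁻¹) ^ Fintype.card (Finset (Fin k)),
    fun J t => cf (lamt σ t) (N + 1) θ (Φ t) J, by positivity, ?_, ?_⟩
  · intro J
    unfold cf
    by_cases hJ : θ < 1 - ∑ j ∈ J, (σ j - 1 / 2)
    · simp only [lamt_re, if_pos hJ]
      refine Measurable.mul (Measurable.mul ?_ ?_) ?_
      · unfold bc
        refine Finset.measurable_fun_prod _ fun i _ => ?_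
        exact ((continuous_lamt σ J).sub (continuous_lamt σ i)).measurable.inv
      · unfold gR
        refine Measurable.div measurable_const (Finset.measurable_fun_prod _ fun i _ => ?_)
        exact ((continuous_lamt σ J).add continuous_const).measurable
      · apply Continuous.measurable
        refine hGd.continuousOn.comp_continuous (f := fun t => cpt (xp σ c₁) t (lamt σ t J)) ?_ fun t => ?_
        · refine continuous_pi fun o => ?_
          cases o with
          | none => exact continuous_lamt σ J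
          | some j => simp_rw [cpt_some]; fun_prop
        · exact hmemD t _ (by rw [lamt_re]; exact hJ.le) ((lamt_re_lt σ t J).le.trans hc₁1)
    · simp only [lamt_re, if_neg hJ]
      exact measurable_const
  · intro t ht X hX
    have hX0 : 0 < X := by linarith
    have hu : 0 < 1 / X := by positivity
    have hu1 : 1 / X ≤ 1 := by rw [div_le_one hX0]; exact hX
    have hcore' := hcore (Finset (Fin k)) (coef k M σ t) rfl (coef_zero k M σ t) (hcs M t).1 (lamt σ t) δ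
      (|C| * (1 + ‖t‖) ^ N) (Φ t) (lamt_inj σ ht) hδ0 (by positivity)
      (fun J => by rw [lamt_re]; exact hδ J) (fun J => lt_of_lt_of_le (lamt_re_lt σ t J) hc₁1)
      ?_ ?_ ?_ (1 / X) hu
    · have e1 : mainTerm (fun J => cf (lamt σ t) (N + 1) θ (Φ t) J) σ t X =
          ∑ J, cf (lamt σ t) (N + 1) θ (Φ t) J * ((1 / X : ℝ) : ℂ) ^ (-(lamt σ t J)) := by
        have h1 := mainTerm_eq (fun J => cf (lamt σ t) (N + 1) θ (Φ t) J) σ t hu hu1
        rw [one_div_one_div] at h1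
        rw [h1]
        unfold MTm
        refine Finset.sum_congr rfl fun J _ => ?_
        rw [indicator_of_mem (show 1 / X ∈ Ioc (0 : ℝ) 1 from ⟨hu, hu1⟩)]
      rw [moment_eq k M (N + 1) σ t hX, e1]
      refine hcore'.trans (le_of_eq ?_)
      rw [one_div, Real.inv_rpow hX0.le, ← Real.rpow_neg hX0.le, neg_neg]
      ring
    · intro w hw
      refine ((hGd _ (hmemD t w hw.1 hw.2)).differentiableAt ((isOpen_tube hD.isOpen).mem_nhds
        (hmemD t w hw.1 hw.2))).comp_differentiableWithinAt w ?_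
      exact (differentiable_cpt (xp σ c₁) t w).differentiableWithinAt
    · intro v
      simp only [hΦ]
      rw [hGR (show cpt (xp σ c₁) t (c₁ + v * I) ∈ tube (R0 k) from by
        show (fun o => (cpt (xp σ c₁) t (c₁ + v * I) o).re) ∈ R0 k
        rw [re_cpt_xp]
        simpa using hcR), Fc_cpt]
    · intro w hw1 hw2
      have h1 := hC (cpt (xp σ c₁) t w) (by rw [re_cpt_xp]; exact ⟨w.re, ⟨hw1, hw2⟩, rfl⟩)
      have h2 := norm_im_cpt_xp σ c₁ t w
      have h3 : 1 + ‖fun o => (cpt (xp σ c₁) t w o).im‖ ≤ (1 + ‖t‖) * (1 + |w.im|) := by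
        have h4 := mul_nonneg (norm_nonneg t) (abs_nonneg w.im)
        nlinarith
      simp only [hΦ]
      calc ‖G (cpt (xp σ c₁) t w)‖ ≤ C * (1 + ‖fun o => (cpt (xp σ c₁) t w o).im‖) ^ N := h1
        _ ≤ |C| * ((1 + ‖t‖) * (1 + |w.im|)) ^ N := by
            have := le_abs_self C
            gcongr
        _ = _ := by rw [mul_pow]; ring

theorem asymp_of_extendsTo {k M : ℕ} {σ : Fin k → ℝ} {θ : ℝ} (hθ0 : 0 < θ)
    (hθ1 : ∀ J : Finset (Fin k), 1 - ∑ j ∈ J, (σ j - 1 / 2) ≠ θ)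
    (h : ExtendsTo k M (σ, θ)) : Asymp k M σ θ := by
  obtain ⟨R, N, C, c, _, _, hb⟩ := strong_of_extendsTo hθ0 hθ1 h
  exact ⟨R, N, C, fun t ht => ⟨fun J => c J t, fun X hX => hb t ht X hX⟩⟩

theorem meanAsymp_of_extendsTo {k M : ℕ} {σ : Fin k → ℝ} {θ : ℝ} (hθ0 : 0 < θ)
    (hθ1 : ∀ J : Finset (Fin k), 1 - ∑ j ∈ J, (σ j - 1 / 2) ≠ θ)
    (h : ExtendsTo k M (σ, θ)) : MeanAsymp k M σ θ := by
  obtain ⟨R, N, C, c, hC0, hcm, hb⟩ := strong_of_extendsTo hθ0 hθ1 h
  refine ⟨R, N + k, C * 2 ^ N * 2 ^ k * 2 ^ θ, c, hcm, ?_⟩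
  intro Y T hY hT
  set S : Set (Fin k → ℝ) := {t : Fin k → ℝ | ‖t‖ ≤ T} with hS
  have hSm : MeasurableSet S := measurableSet_le measurable_norm measurable_const
  have hvol : volume S = ENNReal.ofReal ((2 * T) ^ k) := by
    have : S = Metric.closedBall 0 T := by ext t; simp [hS]
    rw [this, Real.volume_pi_closedBall _ (by linarith)]
    simp
  have hY0 : 0 < Y := by linarith
  calc ∫⁻ t in S, ∫⁻ X in Icc Y (2 * Y), ‖moment k M R σ t X - mainTerm (fun J => c J t) σ t X‖ₑ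
      ≤ ∫⁻ _t in S, ENNReal.ofReal (C * (1 + T) ^ N * (2 * Y) ^ θ * Y) := by
        apply lintegral_mono_ae
        filter_upwards [ae_restrict_mem hSm, ae_restrict_of_ae (ae_generic k)] with t ht1 ht2
        calc ∫⁻ X in Icc Y (2 * Y), ‖moment k M R σ t X - mainTerm (fun J => c J t) σ t X‖ₑ
            ≤ ∫⁻ _X in Icc Y (2 * Y), ENNReal.ofReal (C * (1 + T) ^ N * (2 * Y) ^ θ) := by
              apply lintegral_mono_ae
              filter_upwards [ae_restrict_mem measurableSet_Icc] with X hX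
              rw [← ofReal_norm]
              apply ENNReal.ofReal_le_ofReal
              refine (hb t ht2 X (hY.trans hX.1)).trans ?_
              have h1 : ‖t‖ ≤ T := ht1
              have h2 : X ≤ 2 * Y := hX.2
              have h3 : 0 ≤ X := by linarith [hX.1]
              gcongr
          _ = ENNReal.ofReal (C * (1 + T) ^ N * (2 * Y) ^ θ * Y) := by
              rw [lintegral_const, Measure.restrict_apply_univ, Real.volume_Icc,
                ← ENNReal.ofReal_mul (by positivity)]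
              congr 1
              ring
    _ = ENNReal.ofReal (C * (1 + T) ^ N * (2 * Y) ^ θ * Y) * ENNReal.ofReal ((2 * T) ^ k) := by
        rw [lintegral_const, Measure.restrict_apply_univ, hvol]
    _ ≤ ENNReal.ofReal (C * 2 ^ N * 2 ^ k * 2 ^ θ * T ^ (N + k) * Y ^ (1 + θ)) := by
        rw [← ENNReal.ofReal_mul (by positivity)]
        apply ENNReal.ofReal_le_ofReal
        have h1 : (1 + T) ^ N ≤ (2 * T) ^ N := by
          apply pow_le_pow_left₀ (by positivity)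
          linarith
        have h2 : Y ^ (1 + θ) = Y * Y ^ θ := by rw [Real.rpow_add hY0, Real.rpow_one]
        rw [Real.mul_rpow (by norm_num) hY0.le, h2]
        calc C * (1 + T) ^ N * (2 ^ θ * Y ^ θ) * Y * (2 * T) ^ k
            ≤ C * (2 * T) ^ N * (2 ^ θ * Y ^ θ) * Y * (2 * T) ^ k := by gcongr
          _ = _ := by rw [mul_pow, mul_pow, pow_add]; ring

theorem Asymp.mono {k M : ℕ} {σ : Fin k → ℝ} {θ θ' : ℝ} (h : Asymp k M σ θ) (hθ : θ ≤ θ') :
    Asymp k M σ θ' := by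
  obtain ⟨R, N, C, hC⟩ := h
  refine ⟨R, N, |C|, fun t ht => ?_⟩
  obtain ⟨c, hc⟩ := hC t ht
  refine ⟨c, fun X hX => (hc X hX).trans ?_⟩
  have h1 := le_abs_self C
  have h2 : X ^ θ ≤ X ^ θ' := Real.rpow_le_rpow_of_exponent_le hX hθ
  have h3 : 0 ≤ X ^ θ := by positivity
  gcongr

theorem MeanAsymp.mono {k M : ℕ} {σ : Fin k → ℝ} {θ θ' : ℝ} (h : MeanAsymp k M σ θ) (hθ : θ ≤ θ') :
    MeanAsymp k M σ θ' := by
  obtain ⟨R, N, C, c, hcm, hC⟩ := h
  refine ⟨R, N, |C|, c, hcm, fun Y T hY hT => (hC Y T hY hT).trans ?_⟩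
  apply ENNReal.ofReal_le_ofReal
  have h1 := le_abs_self C
  have h2 : Y ^ (1 + θ) ≤ Y ^ (1 + θ') := Real.rpow_le_rpow_of_exponent_le hY (by linarith)
  have h3 : 0 ≤ Y ^ (1 + θ) := by positivity
  gcongr

theorem exists_good_exponent {k : ℕ} (σ : Fin k → ℝ) {θ c : ℝ} (hc : θ < c) :
    ∃ θ', θ < θ' ∧ θ' < c ∧ ∀ J : Finset (Fin k), 1 - ∑ j ∈ J, (σ j - 1 / 2) ≠ θ' := by
  have hfin : (Set.range fun J : Finset (Fin k) => 1 - ∑ j ∈ J, (σ j - 1 / 2)).Finite := Set.finite_range _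
  obtain ⟨θ', h1, h2⟩ := ((Ioo_infinite hc).sdiff hfin).nonempty
  exact ⟨θ', h1.1, h1.2, fun J hJ => h2 ⟨J, hJ⟩⟩

end Pool.Agent.MDSM
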