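import Pool.Agent.MDSM.Weak

set_option autoImplicit false

open Complex Filter Topology MeasureTheory Set
open Pool.Agent.TubeDS Pool.Agent.MDS
open scoped ENNReal

namespace Pool.Agent.MDSM

/-- A function with polynomially growing mean values becomes integrable after division by a power. -/
theorem lintegral_weight {k : ℕ} {B : (Fin k → ℝ) → ℝ≥0∞} {K : ℝ} (hK : 0 ≤ K) (N : ℕ)
    (hB : ∀ T : ℝ, 1 ≤ T → ∫⁻ t in {t : Fin k → ℝ | ‖t‖ ≤ T}, B t ≤ ENNReal.ofReal (K * T ^ N))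
    (hBm : AEMeasurable B) :
    ∫⁻ t, B t * ENNReal.ofReal ((1 + ‖t‖) ^ (N + 2))⁻¹ < ∞ := by
  -- pointwise comparison
  have hpt : ∀ t : Fin k → ℝ, B t * ENNReal.ofReal ((1 + ‖t‖) ^ (N + 2))⁻¹ ≤
      ∑' n : ℕ, ENNReal.ofReal ((((n : ℝ) + 1) ^ (N + 2))⁻¹) * ({t : Fin k → ℝ | ‖t‖ ≤ (n : ℝ) + 1}.indicator B t) := by
    intro t
    set n : ℕ := ⌊‖t‖⌋₊ with hn
    have h1 : ‖t‖ ≤ (n : ℝ) + 1 := (Nat.lt_floor_add_one ‖t‖).le
    have h2 : (n : ℝ) ≤ ‖t‖ := Nat.floor_le (norm_nonneg t)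
    refine le_trans ?_ (ENNReal.le_tsum n)
    rw [indicator_of_mem (show t ∈ {t : Fin k → ℝ | ‖t‖ ≤ (n : ℝ) + 1} from h1), mul_comm]
    have h3 : (n : ℝ) + 1 ≤ 1 + ‖t‖ := by linarith
    have h4 : ENNReal.ofReal ((1 + ‖t‖) ^ (N + 2))⁻¹ ≤ ENNReal.ofReal ((((n : ℝ) + 1) ^ (N + 2))⁻¹) :=
      ENNReal.ofReal_le_ofReal (inv_anti₀ (by positivity) (pow_le_pow_left₀ (by positivity) h3 _))
    gcongr
  refine lt_of_le_of_lt (lintegral_mono hpt) ?_
  have hms : ∀ n : ℕ, MeasurableSet {t : Fin k → ℝ | ‖t‖ ≤ (n : ℝ) + 1} := fun n =>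
    measurableSet_le measurable_norm measurable_const
  rw [lintegral_tsum (fun n => (hBm.indicator (hms n)).const_mul _)]
  have h3 : ∀ n : ℕ, ∫⁻ t, ENNReal.ofReal ((((n : ℝ) + 1) ^ (N + 2))⁻¹) *
      ({t : Fin k → ℝ | ‖t‖ ≤ (n : ℝ) + 1}.indicator B t) ≤ ENNReal.ofReal (K * (((n : ℝ) + 1) ^ 2)⁻¹) := by
    intro n
    rw [lintegral_const_mul'' _ (hBm.indicator (hms n)), lintegral_indicator (hms n)]
    calc ENNReal.ofReal ((((n : ℝ) + 1) ^ (N + 2))⁻¹) * ∫⁻ t in {t : Fin k → ℝ | ‖t‖ ≤ (n : ℝ) + 1}, B t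
        ≤ ENNReal.ofReal ((((n : ℝ) + 1) ^ (N + 2))⁻¹) * ENNReal.ofReal (K * ((n : ℝ) + 1) ^ N) := by
          gcongr
          exact hB _ (by have : (0 : ℝ) ≤ n := Nat.cast_nonneg n; linarith)
      _ = ENNReal.ofReal (K * (((n : ℝ) + 1) ^ 2)⁻¹) := by
          rw [← ENNReal.ofReal_mul (by positivity)]
          congr 1
          rw [pow_add]
          have : ((n : ℝ) + 1) ^ N ≠ 0 := by positivity
          field_simp
  refine lt_of_le_of_lt (ENNReal.tsum_le_tsum h3) ?_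
  have h4 : Summable (fun n : ℕ => K * (((n : ℝ) + 1) ^ 2)⁻¹) := by
    apply Summable.mul_left
    have := (summable_nat_add_iff 1).mpr (Real.summable_nat_pow_inv.mpr (by norm_num : 1 < 2))
    refine this.congr fun n => ?_
    push_cast; rfl
  rw [← ENNReal.ofReal_tsum_of_nonneg (fun n => by positivity) h4]
  exact ENNReal.ofReal_lt_top

/-- joint measurability of the error term, in terms of `X` -/
theorem measurable_err_joint' (k M R : ℕ) (σ : Fin k → ℝ) {c : Finset (Fin k) → (Fin k → ℝ) → ℂ}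
    (hc : ∀ J, Measurable (c J)) :
    AEStronglyMeasurable (fun p : (Fin k → ℝ) × ℝ =>
      moment k M R σ p.1 p.2 - mainTerm (fun J => c J p.1) σ p.1 p.2)
      ((volume : Measure (Fin k → ℝ)).prod (volume.restrict (Ici 1))) := by
  have h1 : ∀ᵐ p : (Fin k → ℝ) × ℝ ∂((volume : Measure (Fin k → ℝ)).prod (volume.restrict (Ici 1))),
      1 ≤ p.2 := by
    have h2 : ∀ᵐ X : ℝ ∂(volume.restrict (Ici (1 : ℝ))), 1 ≤ X := ae_restrict_mem measurableSet_Ici
    exact Measure.quasiMeasurePreserving_snd.ae h2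
  apply AEStronglyMeasurable.sub
  · refine aestronglyMeasurable_of_tendsto_ae atTop
      (f := fun n (p : (Fin k → ℝ) × ℝ) => ∑ d ∈ Finset.range n, coef k M σ p.1 d * (kR R (d * (1 / p.2)) : ℂ))
      (fun n => ?_) ?_
    · apply Measurable.aestronglyMeasurable
      refine Finset.measurable_fun_sum _ fun d _ => ?_
      refine ((continuous_coef k M d σ).measurable.comp measurable_fst).mul ?_
      exact Complex.measurable_ofReal.comp ((measurable_kR R).comp (by fun_prop))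
    · filter_upwards [h1] with p hp
      rw [moment_eq k M R σ p.1 hp]
      exact tendsto_RZ _ R (by positivity)
  · unfold mainTerm
    apply Measurable.aestronglyMeasurable
    refine Finset.measurable_fun_sum _ fun J _ => ?_
    refine ((hc J).comp measurable_fst).mul ?_
    apply Measurable.pow
    · fun_prop
    · fun_prop

/-- The change of variables `u = 1 / X`. -/
theorem lintegral_inv (g : ℝ → ℝ≥0∞) :
    ∫⁻ u in Ioc (0 : ℝ) 1, g u = ∫⁻ X in Ici (1 : ℝ), ENNReal.ofReal (X ^ 2)⁻¹ * g (1 / X) := by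
  have him : (fun X : ℝ => 1 / X) '' Ici 1 = Ioc 0 1 := by
    ext u
    constructor
    · rintro ⟨X, hX, rfl⟩
      have hX1 : (1 : ℝ) ≤ X := hX
      have hX0 : 0 < X := by linarith
      exact ⟨by positivity, by simp only; rw [div_le_one hX0]; exact hX1⟩
    · rintro ⟨h0, h1⟩
      refine ⟨1 / u, ?_, by simp⟩
      show 1 ≤ 1 / u
      rw [le_div_iff₀ h0]; linarith
  have h := lintegral_image_eq_lintegral_abs_deriv_mul (s := Ici (1 : ℝ)) (f := fun X : ℝ => 1 / X)
    (f' := fun X => -(X ^ 2)⁻¹) measurableSet_Ici (fun X hX => by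
      have hX0 : X ≠ 0 := by
        have : (1 : ℝ) ≤ X := hX
        linarith
      have := (hasDerivAt_inv hX0).hasDerivWithinAt (s := Ici (1 : ℝ))
      simpa [one_div] using this) (by
      intro X hX Y hY hXY
      simpa using hXY) g
  rw [him] at h
  rw [h]
  refine lintegral_congr fun X => ?_
  rw [abs_neg, abs_of_nonneg (by positivity)]

theorem rpow_le_block {a X p : ℝ} (ha : 0 < a) (h1 : a ≤ X) (h2 : X ≤ 2 * a) :
    X ^ p ≤ 2 ^ |p| * a ^ p := by
  have hX : X = (X / a) * a := by field_simp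
  have h3 : 1 ≤ X / a := by rw [le_div_iff₀ ha]; linarith
  have h4 : X / a ≤ 2 := by rw [div_le_iff₀ ha]; linarith
  calc X ^ p = (X / a) ^ p * a ^ p := by
        conv_lhs => rw [hX]
        rw [Real.mul_rpow (by linarith) ha.le]
    _ ≤ (X / a) ^ |p| * a ^ p := by
        apply mul_le_mul_of_nonneg_right _ (by positivity)
        exact Real.rpow_le_rpow_of_exponent_le h3 (le_abs_self p)
    _ ≤ 2 ^ |p| * a ^ p := by
        apply mul_le_mul_of_nonneg_right _ (by positivity)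
        exact Real.rpow_le_rpow (by linarith) h4 (abs_nonneg p)

theorem MeanAsymp.weak {k M : ℕ} {σ : Fin k → ℝ} {θ : ℝ} (h : MeanAsymp k M σ θ) {θ' : ℝ} (hθ : θ < θ') :
    WeakAsymp k M σ θ' := by
  obtain ⟨R, N, C, c, hcm, hC⟩ := h
  have hpos : 0 < θ' - θ := by linarith
  set e : (Fin k → ℝ) → ℝ → ℝ≥0∞ := fun t X =>
    ‖moment k M R σ t X - mainTerm (fun J => c J t) σ t X‖ₑ with he
  have hem : AEMeasurable (fun p : (Fin k → ℝ) × ℝ => e p.1 p.2)
      ((volume : Measure (Fin k → ℝ)).prod (volume.restrict (Ici 1))) :=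
    (measurable_err_joint' k M R σ hcm).enorm
  set w : ℝ → ℝ≥0∞ := fun X => ENNReal.ofReal (X ^ (-θ' - 1)) with hw
  have hwm : Measurable w := by
    simp only [hw]
    fun_prop
  have hwe : AEMeasurable (fun p : (Fin k → ℝ) × ℝ => w p.2 * e p.1 p.2)
      ((volume : Measure (Fin k → ℝ)).prod (volume.restrict (Ici 1))) :=
    (hwm.comp measurable_snd).aemeasurable.mul hem
  set B : (Fin k → ℝ) → ℝ≥0∞ := fun t => ∫⁻ X in Ici (1 : ℝ), w X * e t X with hB
  have hBm : AEMeasurable B := hwe.lintegral_prod_right'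
  -- dyadic blocks
  set I : ℕ → Set ℝ := fun n => Icc ((2 : ℝ) ^ n) (2 * (2 : ℝ) ^ n) with hI
  have hIsub : ∀ n, I n ⊆ Ici (1 : ℝ) := fun n X hX =>
    le_trans (one_le_pow₀ (by norm_num)) hX.1
  have hcover : Ici (1 : ℝ) ⊆ ⋃ n, I n := by
    intro X hX
    have hX1 : (1 : ℝ) ≤ X := hX
    obtain ⟨n, h1, h2⟩ := exists_nat_pow_near hX1 (by norm_num : (1 : ℝ) < 2)
    refine mem_iUnion.mpr ⟨n, h1, ?_⟩
    rw [pow_succ] at h2
    linarith
  have hIm : ∀ n, MeasurableSet (I n) := fun n => measurableSet_Icc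
  have hemI : ∀ n, AEMeasurable (fun p : (Fin k → ℝ) × ℝ => e p.1 p.2)
      ((volume : Measure (Fin k → ℝ)).prod (volume.restrict (I n))) := fun n =>
    hem.mono_measure (Measure.prod_mono le_rfl (Measure.restrict_mono (hIsub n) le_rfl))
  have hBle : ∀ t, B t ≤ ∑' n : ℕ, ENNReal.ofReal (2 ^ |(-θ' - 1)| * ((2 : ℝ) ^ n) ^ (-θ' - 1)) *
      ∫⁻ X in I n, e t X := by
    intro t
    calc B t ≤ ∫⁻ X in ⋃ n, I n, w X * e t X := lintegral_mono_set hcover
      _ ≤ ∑' n, ∫⁻ X in I n, w X * e t X := lintegral_iUnion_le _ _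
      _ ≤ _ := by
          refine ENNReal.tsum_le_tsum fun n => ?_
          rw [← lintegral_const_mul' _ _ ENNReal.ofReal_ne_top]
          apply lintegral_mono_ae
          filter_upwards [ae_restrict_mem (hIm n)] with X hX
          apply mul_le_mul_left
          exact ENNReal.ofReal_le_ofReal (rpow_le_block (by positivity) hX.1 hX.2)
  -- the bound for the means
  set q : ℝ := (2 : ℝ) ^ (-(θ' - θ)) with hq
  have hq0 : 0 < q := by positivity
  have hq1 : q < 1 := Real.rpow_lt_one_of_one_lt_of_neg (by norm_num) (by linarith)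
  have hmean : ∀ T : ℝ, 1 ≤ T → ∫⁻ t in {t : Fin k → ℝ | ‖t‖ ≤ T}, B t ≤
      ENNReal.ofReal ((2 ^ |(-θ' - 1)| * |C| * (∑' n : ℕ, q ^ n)) * T ^ N) := by
    intro T hT
    set S : Set (Fin k → ℝ) := {t : Fin k → ℝ | ‖t‖ ≤ T} with hS
    have hSm : MeasurableSet S := measurableSet_le measurable_norm measurable_const
    refine (lintegral_mono fun t => hBle t).trans ?_
    rw [lintegral_tsum (fun n => ?_)]
    · have hterm : ∀ n : ℕ, ∫⁻ t in S, ENNReal.ofReal (2 ^ |(-θ' - 1)| * ((2 : ℝ) ^ n) ^ (-θ' - 1)) *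
          ∫⁻ X in I n, e t X ≤ ENNReal.ofReal ((2 ^ |(-θ' - 1)| * |C| * T ^ N) * q ^ n) := by
        intro n
        rw [lintegral_const_mul' _ _ ENNReal.ofReal_ne_top]
        have h1 : (1 : ℝ) ≤ 2 ^ n := one_le_pow₀ (by norm_num)
        refine (mul_le_mul_right (hC (2 ^ n) T h1 hT) _).trans ?_
        rw [← ENNReal.ofReal_mul (by positivity)]
        apply ENNReal.ofReal_le_ofReal
        have h2 : q ^ n = ((2 : ℝ) ^ n) ^ (-θ' - 1) * ((2 : ℝ) ^ n) ^ (1 + θ) := by
          rw [← Real.rpow_add (by positivity), hq, ← Real.rpow_natCast, ← Real.rpow_natCast,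
            ← Real.rpow_mul (by norm_num), ← Real.rpow_mul (by norm_num)]
          congr 1; ring
        rw [h2]
        have h3 := le_abs_self C
        calc 2 ^ |(-θ' - 1)| * ((2 : ℝ) ^ n) ^ (-θ' - 1) * (C * T ^ N * ((2 : ℝ) ^ n) ^ (1 + θ))
            ≤ 2 ^ |(-θ' - 1)| * ((2 : ℝ) ^ n) ^ (-θ' - 1) * (|C| * T ^ N * ((2 : ℝ) ^ n) ^ (1 + θ)) := by gcongr
          _ = _ := by ring
      refine (ENNReal.tsum_le_tsum hterm).trans ?_
      have hsum : Summable fun n : ℕ => (2 ^ |(-θ' - 1)| * |C| * T ^ N) * q ^ n :=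
        (summable_geometric_of_lt_one hq0.le hq1).mul_left _
      rw [← ENNReal.ofReal_tsum_of_nonneg (fun n => by positivity) hsum, tsum_mul_left]
      apply le_of_eq
      congr 1
      ring
    · apply AEMeasurable.const_mul
      have := (hemI n).lintegral_prod_right'
      exact this.mono_measure Measure.restrict_le_self
  have hfin := lintegral_weight (by positivity) N hmean hBm
  have hvm : AEMeasurable (fun t : Fin k → ℝ => ENNReal.ofReal ((1 + ‖t‖) ^ (N + 2))⁻¹) :=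
    (by fun_prop : Measurable (fun t : Fin k → ℝ => ENNReal.ofReal ((1 + ‖t‖) ^ (N + 2))⁻¹)).aemeasurable
  have hae : ∀ᵐ t, B t < ∞ := by
    have h1 := ae_lt_top' (hBm.mul hvm) hfin.ne
    filter_upwards [h1] with t ht
    by_contra hcon
    have hBt : B t = ∞ := top_le_iff.mp (not_lt.mp hcon)
    simp only [Pi.mul_apply] at ht
    rw [hBt, ENNReal.top_mul (by
      rw [Ne, ENNReal.ofReal_eq_zero, not_le]
      positivity)] at ht
    exact lt_irrefl _ ht
  refine ⟨R, N + 2, fun t => (B t).toReal, fun t => ENNReal.toReal_nonneg, ?_, ?_⟩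
  · have h1 := integrable_toReal_of_lintegral_ne_top (hBm.mul hvm) hfin.ne
    refine h1.congr (Filter.Eventually.of_forall fun t => ?_)
    simp only [Pi.mul_apply]
    rw [ENNReal.toReal_mul, ENNReal.toReal_ofReal (by positivity)]
  · filter_upwards [hae] with t ht
    set f : ℝ → ℂ := Err (coef k M σ t) R (lamt σ t) (fun J => c J t) with hf
    have hm : AEStronglyMeasurable (fun u : ℝ => (u : ℂ) ^ ((θ' : ℂ) - 1) • f u) (volume.restrict (Ioi 0)) :=
      measurable_cpow_mul θ' (measurable_Err_single k M R σ t (fun J => c J t))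
    -- the Mellin integral in terms of `X`
    have hval : ∫⁻ u in Ioi (0 : ℝ), ‖(u : ℂ) ^ ((θ' : ℂ) - 1) • f u‖ₑ = B t := by
      have h1 : ∫⁻ u in Ioi (0 : ℝ), ‖(u : ℂ) ^ ((θ' : ℂ) - 1) • f u‖ₑ =
          ∫⁻ u in Ioc (0 : ℝ) 1, ‖(u : ℂ) ^ ((θ' : ℂ) - 1) • f u‖ₑ := by
        rw [← Ioc_union_Ioi_eq_Ioi (zero_le_one' ℝ), lintegral_union measurableSet_Ioi
          (Ioc_disjoint_Ioi le_rfl)]
        have h2 : ∫⁻ u in Ioi (1 : ℝ), ‖(u : ℂ) ^ ((θ' : ℂ) - 1) • f u‖ₑ = 0 := by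
          rw [setLIntegral_congr_fun measurableSet_Ioi (g := fun _ => 0)]
          · simp
          · intro u hu
            simp only [hf]
            rw [Err_zero (coef_zero k M σ t) R (lamt σ t) _ hu, smul_zero, enorm_zero]
        rw [h2, add_zero]
      rw [h1, lintegral_inv]
      simp only [hB]
      apply setLIntegral_congr_fun measurableSet_Ici
      intro X hX
      have hX1 : (1 : ℝ) ≤ X := hX
      have hX0 : 0 < X := by linarith
      have hu0 : 0 < 1 / X := by positivity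
      have hu1 : 1 / X ≤ 1 := by rw [div_le_one hX0]; exact hX1
      simp only [hf, he, hw]
      rw [Err_eq M R _ σ t hu0 hu1, one_div_one_div, enorm_smul, ← mul_assoc]
      congr 1
      rw [← ofReal_norm, norm_cpow_eq_rpow_re_of_pos hu0, ← ENNReal.ofReal_mul (by positivity)]
      congr 1
      simp only [sub_re, ofReal_re, one_re]
      rw [one_div, Real.inv_rpow hX0.le, ← Real.rpow_neg hX0.le, ← Real.rpow_natCast,
        ← Real.rpow_neg hX0.le, ← Real.rpow_add hX0]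
      congr 1
      push_cast
      ring
    refine ⟨fun J => c J t, ⟨hm, ?_⟩, ?_⟩
    · show ∫⁻ u in Ioi (0 : ℝ), ‖(u : ℂ) ^ ((θ' : ℂ) - 1) • f u‖ₑ < ∞
      rw [hval]; exact ht
    · rw [integral_norm_eq_lintegral_enorm hm, hval]

end Pool.Agent.MDSM
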