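import Mathlib

/-!
# Riesz means of coefficients of Dirichlet series and their Mellin transforms
-/

set_option autoImplicit false

open MeasureTheory Filter Topology Complex Set

namespace Pool.Agent.MDSM

/-- the Riesz kernel -/
noncomputable def kR (R : ℕ) (u : ℝ) : ℝ := if u ≤ 1 then (1 - u) ^ R else 0

/-- the Mellin transform of the Riesz kernel -/
noncomputable def gR (R : ℕ) (w : ℂ) : ℂ := R.factorial / ∏ j ∈ Finset.range (R + 1), (w + j)

theorem hasMellin_kR (R : ℕ) {w : ℂ} (hw : 0 < w.re) :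
    HasMellin (fun u => (kR R u : ℂ)) w (gR R w) := by
  have hbeta := Complex.betaIntegral_convergent hw (v := (R : ℂ) + 1)
    (by simp only [add_re, natCast_re, one_re]; positivity)
  rw [intervalIntegrable_iff_integrableOn_Ioc_of_le zero_le_one] at hbeta
  have hEq : EqOn (fun x : ℝ => (x : ℂ) ^ (w - 1) * (1 - (x : ℂ)) ^ ((R : ℂ) + 1 - 1))
      (fun t : ℝ => (t : ℂ) ^ (w - 1) • (kR R t : ℂ)) (Ioc 0 1) := by
    intro x hx
    simp only [smul_eq_mul]
    congr 1
    unfold kR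
    rw [if_pos hx.2, add_sub_cancel_right, Complex.cpow_natCast]
    push_cast
    rfl
  have h0 : EqOn (fun _ : ℝ => (0 : ℂ)) (fun t : ℝ => (t : ℂ) ^ (w - 1) • (kR R t : ℂ)) (Ioi 1) := by
    intro x hx
    simp only [smul_eq_mul]
    unfold kR
    rw [if_neg (not_le.mpr hx)]
    simp
  have hI1 : IntegrableOn (fun t : ℝ => (t : ℂ) ^ (w - 1) • (kR R t : ℂ)) (Ioc 0 1) :=
    hbeta.congr_fun hEq measurableSet_Ioc
  have hI2 : IntegrableOn (fun t : ℝ => (t : ℂ) ^ (w - 1) • (kR R t : ℂ)) (Ioi 1) :=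
    (integrableOn_zero).congr_fun h0 measurableSet_Ioi
  have hU : Ioi (0 : ℝ) = Ioc 0 1 ∪ Ioi 1 := (Ioc_union_Ioi_eq_Ioi zero_le_one).symm
  constructor
  · unfold MellinConvergent
    rw [hU]
    exact hI1.union hI2
  · unfold mellin
    rw [hU, setIntegral_union (Ioc_disjoint_Ioi le_rfl) measurableSet_Ioi hI1 hI2,
      ← setIntegral_congr_fun measurableSet_Ioi h0, ← setIntegral_congr_fun measurableSet_Ioc hEq,
      integral_zero, add_zero, ← intervalIntegral.integral_of_le zero_le_one]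
    have := Complex.betaIntegral_eval_nat_add_one_right hw R
    unfold Complex.betaIntegral at this
    rw [this]
    rfl

theorem norm_gR_le (R : ℕ) {c : ℝ} (hc : 0 < c) {w : ℂ} (hw : c ≤ w.re) :
    ‖gR R w‖ ≤ R.factorial * ((min c 1 / 2 * (1 + |w.im|)) ^ (R + 1))⁻¹ := by
  have hm : 0 < min c 1 := lt_min hc one_pos
  have hbase : min c 1 / 2 * (1 + |w.im|) ≤ max w.re |w.im| := by
    rcases le_total |w.im| 1 with h | h
    · calc min c 1 / 2 * (1 + |w.im|) ≤ min c 1 / 2 * (1 + 1) := by gcongr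
        _ = min c 1 := by ring
        _ ≤ c := min_le_left _ _
        _ ≤ w.re := hw
        _ ≤ _ := le_max_left _ _
    · calc min c 1 / 2 * (1 + |w.im|) ≤ 1 / 2 * (|w.im| + |w.im|) := by
            gcongr
            exact min_le_right _ _
        _ = |w.im| := by ring
        _ ≤ _ := le_max_right _ _
  have hj : ∀ j : ℕ, min c 1 / 2 * (1 + |w.im|) ≤ ‖w + j‖ := by
    intro j
    refine hbase.trans (max_le ?_ ?_)
    · have := Complex.re_le_norm (w + j)
      simp only [add_re, natCast_re] at this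
      have hj0 : (0 : ℝ) ≤ j := Nat.cast_nonneg j
      linarith
    · have := Complex.abs_im_le_norm (w + j)
      simpa using this
  have hpos : 0 < min c 1 / 2 * (1 + |w.im|) := by positivity
  unfold gR
  rw [norm_div, norm_prod, div_eq_mul_inv]
  simp only [norm_natCast]
  gcongr
  calc (min c 1 / 2 * (1 + |w.im|)) ^ (R + 1) = ∏ _j ∈ Finset.range (R + 1), (min c 1 / 2 * (1 + |w.im|)) := by
        simp
    _ ≤ ∏ j ∈ Finset.range (R + 1), ‖w + j‖ := Finset.prod_le_prod (fun _ _ => hpos.le) fun j _ => hj j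

theorem gR_ne_zero (R : ℕ) {w : ℂ} (hw : 0 < w.re) : gR R w ≠ 0 := by
  unfold gR
  apply div_ne_zero
  · exact_mod_cast R.factorial_ne_zero
  · rw [Finset.prod_ne_zero_iff]
    intro j _ h
    have := congrArg Complex.re h
    simp at this
    have hj0 : (0 : ℝ) ≤ j := Nat.cast_nonneg j
    linarith

theorem differentiableAt_gR (R : ℕ) {w : ℂ} (hw : 0 < w.re) : DifferentiableAt ℂ (gR R) w := by
  unfold gR
  apply DifferentiableAt.div (by fun_prop)
  · apply DifferentiableAt.fun_finsetProd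
    intro j _
    fun_prop
  · rw [Finset.prod_ne_zero_iff]
    intro j _ h
    have := congrArg Complex.re h
    simp at this
    have hj0 : (0 : ℝ) ≤ j := Nat.cast_nonneg j
    linarith

theorem integrable_tsum_nat {α : Type*} [MeasurableSpace α] {μ : Measure α} {F : ℕ → α → ℂ}
    (hF : ∀ i, Integrable (F i) μ) (hs : Summable fun i => ∫ a, ‖F i a‖ ∂μ) :
    Integrable (fun a => ∑' i, F i a) μ ∧ ∫ a, ‖∑' i, F i a‖ ∂μ ≤ ∑' i, ∫ a, ‖F i a‖ ∂μ := by
  have h0 : ∀ i, ∫⁻ a, ‖F i a‖ₑ ∂μ = ENNReal.ofReal (∫ a, ‖F i a‖ ∂μ) := fun i =>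
    (ofReal_integral_norm_eq_lintegral_enorm (hF i)).symm
  have h1 : ∫⁻ a, ∑' i, ‖F i a‖ₑ ∂μ = ∑' i, ENNReal.ofReal (∫ a, ‖F i a‖ ∂μ) := by
    rw [lintegral_tsum (fun i => (hF i).1.enorm)]
    exact tsum_congr h0
  have h1' : ∑' i, ENNReal.ofReal (∫ a, ‖F i a‖ ∂μ) = ENNReal.ofReal (∑' i, ∫ a, ‖F i a‖ ∂μ) :=
    (ENNReal.ofReal_tsum_of_nonneg (fun i => integral_nonneg fun a => norm_nonneg _) hs).symm
  have h1ne : ∫⁻ a, ∑' i, ‖F i a‖ₑ ∂μ ≠ ⊤ := by
    rw [h1, h1']; exact ENNReal.ofReal_ne_top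
  have h2 : ∀ᵐ a ∂μ, ∑' i, ‖F i a‖ₑ < ⊤ :=
    ae_lt_top' (AEMeasurable.tsum fun i => (hF i).1.enorm) h1ne
  have h3 : ∀ᵐ a ∂μ, Summable (fun i => F i a) := by
    filter_upwards [h2] with a ha
    have h4 : Summable (fun i => ‖F i a‖₊) := ENNReal.tsum_coe_ne_top_iff_summable.mp ha.ne
    exact Summable.of_nnnorm h4
  have hmeas : AEStronglyMeasurable (fun a => ∑' i, F i a) μ := by
    refine aestronglyMeasurable_of_tendsto_ae atTop (f := fun n a => ∑ i ∈ Finset.range n, F i a)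
      (fun n => ?_) ?_
    · exact Finset.aestronglyMeasurable_fun_sum _ fun i _ => (hF i).1
    · filter_upwards [h3] with a ha
      exact ha.hasSum.tendsto_sum_nat
  have hle : ∫⁻ a, ‖∑' i, F i a‖ₑ ∂μ ≤ ∫⁻ a, ∑' i, ‖F i a‖ₑ ∂μ :=
    lintegral_mono fun a => enorm_tsum_le_tsum_enorm
  have hint : Integrable (fun a => ∑' i, F i a) μ :=
    ⟨hmeas, lt_of_le_of_lt hle (lt_of_le_of_ne le_top h1ne)⟩
  refine ⟨hint, ?_⟩
  have h5 := ofReal_integral_norm_eq_lintegral_enorm hint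
  rw [← ENNReal.ofReal_le_ofReal_iff (tsum_nonneg fun i => integral_nonneg fun a => norm_nonneg _), h5,
    ← h1', ← h1]
  exact hle

/-- the Riesz mean with coefficients `a`, as a function of `u = 1 / X` -/
noncomputable def RZ (a : ℕ → ℂ) (R : ℕ) (u : ℝ) : ℂ := ∑' d : ℕ, a d * (kR R (d * u) : ℂ)

/-- the Dirichlet series with coefficients `a` -/
noncomputable def DS (a : ℕ → ℂ) (w : ℂ) : ℂ := ∑' d : ℕ, a d * (d : ℂ) ^ (-w)

theorem hasMellin_scaled (R : ℕ) {w : ℂ} (hw : 0 < w.re) {d : ℕ} (hd : 0 < d) :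
    HasMellin (fun u => (kR R (d * u) : ℂ)) w ((d : ℂ) ^ (-w) * gR R w) := by
  have hd0 : (0 : ℝ) < d := by exact_mod_cast hd
  have h := hasMellin_kR R hw
  constructor
  · exact (MellinConvergent.comp_mul_left (f := fun u => (kR R u : ℂ)) hd0).mpr h.1
  · rw [mellin_comp_mul_left (fun u => (kR R u : ℂ)) w hd0, h.2]
    simp

theorem integral_norm_scaled (R : ℕ) (w : ℂ) {d : ℕ} (hd : 0 < d) :
    ∫ u in Ioi (0 : ℝ), ‖(u : ℂ) ^ (w - 1) • (kR R (d * u) : ℂ)‖ =
      (d : ℝ) ^ (-w.re) * ∫ u in Ioi (0 : ℝ), ‖(u : ℂ) ^ (w - 1) • (kR R u : ℂ)‖ := by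
  have hd0 : (0 : ℝ) < d := by exact_mod_cast hd
  have h := integral_comp_mul_left_Ioi (fun u : ℝ => ‖(u : ℂ) ^ (w - 1) • (kR R u : ℂ)‖) 0 hd0
  rw [mul_zero, smul_eq_mul] at h
  have h2 : ∀ u ∈ Ioi (0 : ℝ), ‖(u : ℂ) ^ (w - 1) • (kR R (d * u) : ℂ)‖ =
      (d : ℝ) ^ (1 - w.re) * ‖((d * u : ℝ) : ℂ) ^ (w - 1) • (kR R (d * u) : ℂ)‖ := by
    intro u hu
    have hu0 : (0 : ℝ) < u := hu
    rw [norm_smul, norm_smul, norm_cpow_eq_rpow_re_of_pos hu0,
      norm_cpow_eq_rpow_re_of_pos (mul_pos hd0 hu0), Real.mul_rpow hd0.le hu0.le, sub_re, one_re,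
      ← mul_assoc, ← mul_assoc, ← Real.rpow_add hd0]
    simp
  rw [setIntegral_congr_fun measurableSet_Ioi h2, integral_const_mul, h, ← mul_assoc]
  congr 1
  rw [← Real.rpow_neg_one, ← Real.rpow_add hd0]
  congr 1; ring

theorem hasMellin_RZ {a : ℕ → ℂ} (ha0 : a 0 = 0) (R : ℕ) {w : ℂ} (hw : 0 < w.re)
    (hs : Summable (fun d : ℕ => ‖a d‖ * (d : ℝ) ^ (-w.re))) :
    HasMellin (RZ a R) w (DS a w * gR R w) := by
  set K : ℝ := ∫ u in Ioi (0 : ℝ), ‖(u : ℂ) ^ (w - 1) • (kR R u : ℂ)‖ with hK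
  set F : ℕ → ℝ → ℂ := fun d u => (u : ℂ) ^ (w - 1) • (a d * (kR R (d * u) : ℂ)) with hF
  have hF1 : ∀ d u, F d u = a d * ((u : ℂ) ^ (w - 1) • (kR R (d * u) : ℂ)) := by
    intro d u; simp only [hF, smul_eq_mul]; ring
  have hFint : ∀ d, Integrable (F d) (volume.restrict (Ioi 0)) := by
    intro d
    have e : F d = fun u : ℝ => a d * ((u : ℂ) ^ (w - 1) • (kR R (d * u) : ℂ)) := funext (hF1 d)
    rw [e]
    rcases Nat.eq_zero_or_pos d with rfl | hd
    · simp [ha0]
    · exact (hasMellin_scaled R hw hd).1.const_mul _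
  have hFnorm : ∀ d, ∫ u in Ioi (0 : ℝ), ‖F d u‖ = ‖a d‖ * (d : ℝ) ^ (-w.re) * K := by
    intro d
    simp_rw [hF1, norm_mul]
    rw [integral_const_mul]
    rcases Nat.eq_zero_or_pos d with rfl | hd
    · simp [ha0]
    · rw [integral_norm_scaled R w hd, mul_assoc]
  have hsum : Summable fun d => ∫ u in Ioi (0 : ℝ), ‖F d u‖ := by
    simp_rw [hFnorm]; exact hs.mul_right K
  have hFint2 : ∀ d, ∫ u in Ioi (0 : ℝ), F d u = a d * ((d : ℂ) ^ (-w)) * gR R w := by
    intro d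
    simp_rw [hF1]
    rw [integral_const_mul]
    rcases Nat.eq_zero_or_pos d with rfl | hd
    · simp [ha0]
    · have := (hasMellin_scaled R hw hd).2
      unfold mellin at this
      rw [this, mul_assoc]
  have hpt : ∀ u : ℝ, ∑' d, F d u = (u : ℂ) ^ (w - 1) • RZ a R u := by
    intro u
    simp only [hF, RZ]
    rw [tsum_const_smul'']
  constructor
  · have := (integrable_tsum_nat hFint hsum).1
    simp_rw [hpt] at this
    exact this
  · have := integral_tsum_of_summable_integral_norm hFint hsum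
    simp_rw [hpt, hFint2] at this
    unfold mellin
    rw [← this, tsum_mul_right]
    rfl

theorem kR_zero_of_lt {R : ℕ} {u : ℝ} (hu : 1 < u) : kR R u = 0 := by
  unfold kR; rw [if_neg (not_le.mpr hu)]

/-- the Riesz mean is a finite sum -/
theorem RZ_eq_sum {a : ℕ → ℂ} {R : ℕ} {u : ℝ} {N : ℕ} (hN : 1 < (N : ℝ) * u) (hu : 0 < u) :
    RZ a R u = ∑ d ∈ Finset.range N, a d * (kR R (d * u) : ℂ) := by
  unfold RZ
  apply tsum_eq_sum
  intro d hd
  have h1 : N ≤ d := by simpa using hd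
  have h2 : (N : ℝ) ≤ d := by exact_mod_cast h1
  have h3 : 1 < (d : ℝ) * u := lt_of_lt_of_le hN (by gcongr)
  rw [kR_zero_of_lt h3]
  simp

theorem continuous_kR {R : ℕ} (hR : R ≠ 0) : Continuous (kR R) := by
  have : kR R = fun u => (max (1 - u) 0) ^ R := by
    funext u
    unfold kR
    split_ifs with h
    · rw [max_eq_left (by linarith)]
    · rw [max_eq_right (by linarith), zero_pow hR]
  rw [this]
  fun_prop

theorem continuousAt_RZ (a : ℕ → ℂ) {R : ℕ} (hR : R ≠ 0) {x : ℝ} (hx : 0 < x) :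
    ContinuousAt (RZ a R) x := by
  obtain ⟨N, hN⟩ := exists_nat_gt (2 / x)
  have h1 : ∀ᶠ u in 𝓝 x, RZ a R u = ∑ d ∈ Finset.range N, a d * (kR R (d * u) : ℂ) := by
    filter_upwards [lt_mem_nhds (show x / 2 < x by linarith)] with u hu
    have hu0 : 0 < u := by linarith
    apply RZ_eq_sum _ hu0
    rw [div_lt_iff₀ hx] at hN
    have hN0 : (0 : ℝ) ≤ N := Nat.cast_nonneg N
    nlinarith
  have h2 : ContinuousAt (fun u : ℝ => ∑ d ∈ Finset.range N, a d * (kR R (d * u) : ℂ)) x := by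
    apply Continuous.continuousAt
    refine continuous_finsetSum _ fun d _ => ?_
    exact continuous_const.mul (continuous_ofReal.comp ((continuous_kR hR).comp (by fun_prop)))
  exact h2.congr (h1.mono fun u hu => hu.symm)

theorem norm_DS_le {a : ℕ → ℂ} {c : ℝ} (hs : Summable (fun d : ℕ => ‖a d‖ * (d : ℝ) ^ (-c)))
    (ha0 : a 0 = 0) {w : ℂ} (hw : w.re = c) : ‖DS a w‖ ≤ ∑' d : ℕ, ‖a d‖ * (d : ℝ) ^ (-c) := by
  have h1 : ∀ d : ℕ, ‖a d * (d : ℂ) ^ (-w)‖ = ‖a d‖ * (d : ℝ) ^ (-c) := by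
    intro d
    rcases Nat.eq_zero_or_pos d with rfl | hd
    · simp [ha0]
    · rw [norm_mul, norm_natCast_cpow_of_pos hd, neg_re, hw]
  unfold DS
  refine (norm_tsum_le_tsum_norm ?_).trans ?_
  · simp_rw [h1]; exact hs
  · simp_rw [h1]; exact le_rfl

theorem continuous_DS_line {a : ℕ → ℂ} {c : ℝ} (hs : Summable (fun d : ℕ => ‖a d‖ * (d : ℝ) ^ (-c)))
    (ha0 : a 0 = 0) : Continuous (fun v : ℝ => DS a (c + v * I)) := by
  unfold DS
  refine continuous_tsum (u := fun d : ℕ => ‖a d‖ * (d : ℝ) ^ (-c)) (fun d => ?_) hs (fun d v => ?_)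
  · rcases Nat.eq_zero_or_pos d with rfl | hd
    · simp [ha0]; exact continuous_const
    · have hd0 : (d : ℂ) ≠ 0 := by exact_mod_cast hd.ne'
      exact continuous_const.mul (Continuous.const_cpow (by fun_prop) (Or.inl hd0))
  · rcases Nat.eq_zero_or_pos d with rfl | hd
    · simp [ha0]
    · rw [norm_mul, norm_natCast_cpow_of_pos hd]
      simp

theorem integrable_inv_pow_one {R : ℕ} (hR : R ≠ 0) (m : ℝ) :
    Integrable (fun v : ℝ => ((m * (1 + |v|)) ^ (R + 1))⁻¹) := by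
  have h := integrable_one_add_norm (E := ℝ) (μ := volume) (r := (R + 1 : ℕ)) (by
    simp only [Module.finrank_self, Nat.cast_one]
    exact_mod_cast (by omega : 1 < R + 1))
  refine (h.const_mul ((m ^ (R + 1))⁻¹)).congr (Filter.Eventually.of_forall fun y => ?_)
  simp only [Real.norm_eq_abs]
  rw [Real.rpow_neg (by positivity), Real.rpow_natCast, mul_pow, mul_inv]

theorem continuous_gR_line (R : ℕ) {c : ℝ} (hc : 0 < c) : Continuous (fun v : ℝ => gR R (c + v * I)) := by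
  rw [continuous_iff_continuousAt]
  intro v
  have h1 : ContinuousAt (gR R) (c + v * I) := (differentiableAt_gR R (by simpa using hc)).continuousAt
  exact ContinuousAt.comp (g := gR R) (f := fun v : ℝ => (c : ℂ) + v * I) h1 (by fun_prop)

theorem integrable_gR_line {R : ℕ} (hR : R ≠ 0) {c : ℝ} (hc : 0 < c) :
    Integrable (fun v : ℝ => gR R (c + v * I)) := by
  refine Integrable.mono' (g := fun v : ℝ => R.factorial * ((min c 1 / 2 * (1 + |v|)) ^ (R + 1))⁻¹)
    ((integrable_inv_pow_one hR _).const_mul _) (continuous_gR_line R hc).aestronglyMeasurable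
    (Filter.Eventually.of_forall fun v => ?_)
  have := norm_gR_le R hc (w := c + v * I) (by simp)
  simpa using this

/-- Perron's formula for Riesz means -/
theorem perron {a : ℕ → ℂ} (ha0 : a 0 = 0) {R : ℕ} (hR : R ≠ 0) {c : ℝ} (hc : 0 < c)
    (hs : Summable (fun d : ℕ => ‖a d‖ * (d : ℝ) ^ (-c))) {x : ℝ} (hx : 0 < x) :
    RZ a R x = (1 / (2 * Real.pi) : ℂ) * ∫ v : ℝ, (x : ℂ) ^ (-((c : ℂ) + v * I)) *
      (DS a (c + v * I) * gR R (c + v * I)) := by
  have hM : ∀ v : ℝ, HasMellin (RZ a R) (c + v * I) (DS a (c + v * I) * gR R (c + v * I)) := by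
    intro v
    exact hasMellin_RZ ha0 R (by simpa using hc) (by simpa using hs)
  have hV : VerticalIntegrable (mellin (RZ a R)) c := by
    unfold VerticalIntegrable
    have e : (fun y : ℝ => mellin (RZ a R) (c + y * I)) =
        fun v : ℝ => DS a (c + v * I) * gR R (c + v * I) := by
      funext v; exact (hM v).2
    rw [e]
    refine (integrable_gR_line hR hc).bdd_mul (c := ∑' d : ℕ, ‖a d‖ * (d : ℝ) ^ (-c))
      (continuous_DS_line hs ha0).aestronglyMeasurable (Filter.Eventually.of_forall fun v => ?_)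
    exact norm_DS_le hs ha0 (by simp)
  have hMc : MellinConvergent (RZ a R) (c : ℂ) := by
    have := (hM 0).1
    simpa using this
  have h := mellinInv_mellin_eq c (RZ a R) hx hMc hV (continuousAt_RZ a hR hx)
  rw [← h]
  unfold mellinInv
  rw [← Complex.coe_smul]
  simp only [smul_eq_mul]
  congr 1
  · push_cast; rfl
  · refine integral_congr_ae (Filter.Eventually.of_forall fun v => ?_)
    simp only
    rw [(hM v).2]

end Pool.Agent.MDSM
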