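import Pool.Agent.MDSM.Crit

/-!
# From the moments to the continuation
-/

set_option autoImplicit false

open Complex Filter Topology MeasureTheory Set
open Pool.Agent.TubeDS Pool.Agent.MDS

namespace Pool.Agent.MDSM

/-- The weak form of the asymptotic formula used in the argument. -/
def WeakAsymp (k M : ℕ) (σ : Fin k → ℝ) (θ : ℝ) : Prop :=
  ∃ (R N : ℕ) (B : (Fin k → ℝ) → ℝ), (∀ t, 0 ≤ B t) ∧
    Integrable (fun t => B t * ((1 + ‖t‖) ^ N)⁻¹) ∧
    ∀ᵐ t : Fin k → ℝ, ∃ c : Finset (Fin k) → ℂ,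
      MellinConvergent (Err (coef k M σ t) R (lamt σ t) c) θ ∧
      ∫ u in Ioi (0 : ℝ), ‖(u : ℂ) ^ ((θ : ℂ) - 1) • Err (coef k M σ t) R (lamt σ t) c u‖ ≤ B t

theorem integrable_pow_sup (k : ℕ) {n : ℕ} (hn : k < n) :
    Integrable (fun t : Fin k → ℝ => ((1 + ‖t‖) ^ n)⁻¹) := by
  have h := integrable_one_add_norm (E := Fin k → ℝ) (μ := volume) (r := (n : ℝ)) (by
    simp only [Module.finrank_fintype_fun_eq_card, Fintype.card_fin]
    exact_mod_cast hn)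
  refine h.congr (Filter.Eventually.of_forall fun t => ?_)
  simp only
  rw [Real.rpow_neg (by positivity), Real.rpow_natCast]

theorem rep_xp {k : ℕ} (σ : Fin k → ℝ) (c u : ℝ) : rep (xp σ c) u = xp σ u := by
  funext o; cases o <;> rfl

theorem WeakAsymp.good {k M : ℕ} {σ : Fin k → ℝ} {θ : ℝ} (h : WeakAsymp k M σ θ) {θ' : ℝ} (hθ : θ < θ')
    (hθ' : θ' ≤ c1 σ) :
    ∃ D, Good k M D ∧ ∀ u, θ' < u → u ≤ c1 σ → xp σ u ∈ D := by
  obtain ⟨R, N, B, hB0, hBint, hB⟩ := h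
  set c₁ : ℝ := c1 σ with hc₁
  have hk0 : (0 : ℝ) ≤ k := Nat.cast_nonneg k
  obtain ⟨C₂, N₂, hC₂, hcs⟩ := coef_sum_bound σ (le_refl c₁)
  obtain ⟨C, N₁, hC, hcore⟩ := back_core (Finset (Fin k)) R (c₁ := c₁) (θ := θ) (θ' := θ') (c1_pos σ) hθ hθ'
  set m := Fintype.card (Finset (Fin k)) with hm
  have hs0 := sb_pos σ
  -- the bound function
  set Bf : (Fin k → ℝ) → ℝ := fun t => C * (C₂ * (1 + ‖t‖) ^ N₂ + B t) *
    ((1 + sb σ + k) * (1 + ‖t‖)) ^ m with hBf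
  have hBf0 : ∀ t, 0 ≤ Bf t := fun t => by
    have := hB0 t
    simp only [hBf]; positivity
  set N₃ : ℕ := N₂ + N + m + (k + 1) with hN₃
  have hBfint : Integrable (fun t => Bf t * ((1 + ‖t‖) ^ N₃)⁻¹) := by
    have h1 : Integrable (fun t : Fin k → ℝ => C * (1 + sb σ + k) ^ m * (C₂ * ((1 + ‖t‖) ^ (k + 1))⁻¹ +
        B t * ((1 + ‖t‖) ^ N)⁻¹)) :=
      (((integrable_pow_sup k (Nat.lt_succ_self k)).const_mul C₂).add hBint).const_mul _
    refine h1.mono' ?_ (Filter.Eventually.of_forall fun t => ?_)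
    · -- measurability
      have hBm : AEStronglyMeasurable B volume := by
        have h2 : B = fun t => (B t * ((1 + ‖t‖) ^ N)⁻¹) * (1 + ‖t‖) ^ N := by
          funext t
          have : (1 + ‖t‖) ^ N ≠ 0 := by positivity
          field_simp
        rw [h2]
        exact hBint.aestronglyMeasurable.mul (by fun_prop)
      have h3 : ∀ n : ℕ, AEStronglyMeasurable (fun t : Fin k → ℝ => ((1 + ‖t‖) ^ n)⁻¹) volume := fun n =>
        (Continuous.inv₀ (by fun_prop) fun t => by positivity).aestronglyMeasurable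
      refine AEStronglyMeasurable.mul ?_ (h3 _)
      refine AEStronglyMeasurable.mul ?_ (by fun_prop)
      refine AEStronglyMeasurable.const_mul ?_ _
      exact AEStronglyMeasurable.add (by fun_prop) hBm
    · have h0 : (1 : ℝ) ≤ 1 + ‖t‖ := by linarith [norm_nonneg t]
      have h2 := hB0 t
      rw [Real.norm_of_nonneg (mul_nonneg (hBf0 t) (by positivity))]
      simp only [hBf]
      have e1 : (1 + ‖t‖) ^ N₂ * (1 + ‖t‖) ^ m * ((1 + ‖t‖) ^ N₃)⁻¹ ≤ ((1 + ‖t‖) ^ (k + 1))⁻¹ := by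
        rw [← div_eq_mul_inv, div_le_iff₀ (by positivity), inv_mul_eq_div, le_div_iff₀ (by positivity),
          ← pow_add, ← pow_add]
        exact pow_le_pow_right₀ h0 (by omega)
      have e2 : (1 + ‖t‖) ^ m * ((1 + ‖t‖) ^ N₃)⁻¹ ≤ ((1 + ‖t‖) ^ N)⁻¹ := by
        rw [← div_eq_mul_inv, div_le_iff₀ (by positivity), inv_mul_eq_div, le_div_iff₀ (by positivity),
          ← pow_add]
        exact pow_le_pow_right₀ h0 (by omega)
      calc C * (C₂ * (1 + ‖t‖) ^ N₂ + B t) * ((1 + sb σ + k) * (1 + ‖t‖)) ^ m * ((1 + ‖t‖) ^ N₃)⁻¹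
          = C * (1 + sb σ + k) ^ m * (C₂ * ((1 + ‖t‖) ^ N₂ * (1 + ‖t‖) ^ m * ((1 + ‖t‖) ^ N₃)⁻¹) +
            B t * ((1 + ‖t‖) ^ m * ((1 + ‖t‖) ^ N₃)⁻¹)) := by rw [mul_pow]; ring
        _ ≤ C * (1 + sb σ + k) ^ m * (C₂ * ((1 + ‖t‖) ^ (k + 1))⁻¹ + B t * ((1 + ‖t‖) ^ N)⁻¹) := by gcongr
  -- the flat tube theorem
  have hmem : xp σ c₁ ∈ R0 k := xp_mem_R0 le_rfl
  obtain ⟨D, hDo, hDc, hRD, hDu, G, hGd, hGe, hGb⟩ := flat_tube (isOpen_R0 k) (convex_R0 k).isPreconnected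
    (differentiableOn_Fc k M) (polyBdd_Fc k M) hmem (c' := θ') hθ' (N := N₁) (N' := N₃) hBf0 hBfint (by
      filter_upwards [hB] with t ht
      obtain ⟨c, hconv, hbd⟩ := ht
      obtain ⟨Φ, hΦd, hΦl, hΦb⟩ := hcore (coef k M σ t) (coef_zero k M σ t) (hcs M t).1 (lamt σ t) c
        (sb σ + k * ‖t‖) (B t) (by positivity) (norm_lamt_le σ t) (fun J => lamt_re_lt σ t J) hconv hbd
      refine ⟨Φ, hΦd, ?_, ?_⟩
      · intro v
        have e : xp σ c₁ none = c₁ := rfl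
        rw [e, hΦl, Fc_cpt]
      · intro w hw1 hw2
        refine (hΦb w hw1 hw2).trans ?_
        simp only [hBf]
        have h1 := (hcs M t).2
        have h2 := hB0 t
        have h3 : 1 + (sb σ + k * ‖t‖) ≤ (1 + sb σ + k) * (1 + ‖t‖) := by nlinarith [norm_nonneg t]
        gcongr)
  obtain ⟨D', hD', hDD'⟩ := good_of_extension hDo hDc hRD hGd hGb hGe
  refine ⟨D', hD', fun u hu1 hu2 => hDD' ?_⟩
  have := hDu u hu1 hu2
  rw [rep_xp] at this
  exact this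

theorem toP_xp {k : ℕ} (σ : Fin k → ℝ) (u : ℝ) : toP (xp σ u) = ((σ, u) : (Fin k → ℝ) × ℝ) := rfl

/-- From the weak asymptotic formula to the continuation. -/
theorem WeakAsymp.extendsTo {k M : ℕ} {σ : Fin k → ℝ} {θ : ℝ} (h : WeakAsymp k M σ θ) {c : ℝ} (hc : θ < c) :
    ExtendsTo k M (σ, c) := by
  rcases le_or_gt c (c1 σ) with hc2 | hc2
  · obtain ⟨D, hD, hu⟩ := h.good (θ' := (θ + c) / 2) (by linarith) (by linarith)
    have := hD.extendsTo (hu c (by linarith) hc2)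
    rwa [toP_xp] at this
  · obtain ⟨D, hD, _⟩ := good_of_extension (M := M) (isOpen_R0 k) (convex_R0 k) subset_rfl
      (differentiableOn_Fc k M) (polyBdd_Fc k M) (fun _ _ => rfl)
    have := hD.extendsTo (hD.subR (xp_mem_R0 (σ := σ) (c := c) hc2.le))
    rwa [toP_xp] at this

end Pool.Agent.MDSM
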