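import Pool.Agent.MDSM.ToExt

set_option autoImplicit false

open Complex Filter Topology MeasureTheory Set
open Pool.Agent.TubeDS Pool.Agent.MDS
open scoped ENNReal

namespace Pool.Agent.MDSM

/-- almost all shifts are generic -/
theorem ae_generic (k : ℕ) : ∀ᵐ t : Fin k → ℝ, Generic t := by
  have h : ∀ J J' : Finset (Fin k), J ≠ J' → ∀ᵐ t : Fin k → ℝ, ∑ j ∈ J, t j ≠ ∑ j ∈ J', t j := by
    intro J J' hne
    set ℓ : (Fin k → ℝ) →ₗ[ℝ] ℝ := ∑ j ∈ J, LinearMap.proj j - ∑ j ∈ J', LinearMap.proj j with hℓ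
    have hℓt : ∀ t, ℓ t = ∑ j ∈ J, t j - ∑ j ∈ J', t j := by
      intro t
      simp [hℓ]
    have hker : LinearMap.ker ℓ ≠ ⊤ := by
      intro htop
      apply hne
      ext i
      have h1 : ℓ (Pi.single i 1) = 0 := by
        have : Pi.single i (1 : ℝ) ∈ LinearMap.ker ℓ := by rw [htop]; trivial
        exact this
      rw [hℓt] at h1
      simp only [Pi.single_apply, Finset.sum_ite_eq'] at h1
      by_cases h2 : i ∈ J <;> by_cases h3 : i ∈ J' <;> simp [h2, h3] at h1 ⊢
    have h0 := Measure.addHaar_submodule (volume : Measure (Fin k → ℝ)) (LinearMap.ker ℓ) hker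
    rw [ae_iff]
    refine measure_mono_null ?_ h0
    intro t ht
    simp only [mem_ofPred_eq, not_not] at ht
    show ℓ t = 0
    rw [hℓt, ht, sub_self]
  have h2 : ∀ᵐ t : Fin k → ℝ, ∀ p : Finset (Fin k) × Finset (Fin k), p.1 ≠ p.2 →
      ∑ j ∈ p.1, t j ≠ ∑ j ∈ p.2, t j := by
    rw [ae_all_iff]
    rintro ⟨J, J'⟩
    by_cases hne : J = J'
    · exact Filter.Eventually.of_forall fun t h => absurd hne h
    · filter_upwards [h J J' hne] with t ht _
      exact ht
  filter_upwards [h2] with t ht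
  intro J J' hJJ
  by_contra hne
  exact ht (J, J') hne hJJ

theorem measurable_kR (R : ℕ) : Measurable (kR R) := by
  unfold kR
  exact Measurable.ite measurableSet_Iic (by fun_prop) measurable_const

theorem tendsto_RZ (a : ℕ → ℂ) (R : ℕ) {u : ℝ} (hu : 0 < u) :
    Tendsto (fun n => ∑ d ∈ Finset.range n, a d * (kR R (d * u) : ℂ)) atTop (𝓝 (RZ a R u)) := by
  obtain ⟨N, hN⟩ := exists_nat_gt (1 / u)
  refine tendsto_const_nhds.congr' ?_
  filter_upwards [eventually_ge_atTop N] with n hn
  apply RZ_eq_sum _ hu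
  rw [div_lt_iff₀ hu] at hN
  have : (N : ℝ) ≤ n := by exact_mod_cast hn
  nlinarith

theorem continuous_coef (k M d : ℕ) (σ : Fin k → ℝ) : Continuous (fun t : Fin k → ℝ => coef k M σ t d) := by
  unfold coef
  by_cases h : IsFundDisc d ∧ 1 < d
  · simp only [if_pos h]
    refine continuous_const.mul (continuous_finsetProd _ fun j _ => ?_)
    exact (Lc_spec h.1 h.2).1.continuous.comp (by fun_prop)
  · simp only [if_neg h]
    exact continuous_const

theorem measurable_ind_cpow {k : ℕ} (σ : Fin k → ℝ) (J : Finset (Fin k)) : Measurable (fun p : (Fin k → ℝ) × ℝ =>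
    (Ioc (0 : ℝ) 1).indicator (fun u : ℝ => (u : ℂ) ^ (-(lamt σ p.1 J))) p.2) := by
  have h1 : Measurable (fun p : (Fin k → ℝ) × ℝ => (p.2 : ℂ) ^ (-(lamt σ p.1 J))) := by
    apply Measurable.pow
    · fun_prop
    · unfold lamt; fun_prop
  have h2 : (fun p : (Fin k → ℝ) × ℝ => (Ioc (0 : ℝ) 1).indicator (fun u : ℝ => (u : ℂ) ^ (-(lamt σ p.1 J))) p.2) =
      (Prod.snd ⁻¹' (Ioc (0 : ℝ) 1)).indicator (fun p : (Fin k → ℝ) × ℝ => (p.2 : ℂ) ^ (-(lamt σ p.1 J))) := by
    funext p
    by_cases h : p.2 ∈ Ioc (0 : ℝ) 1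
    · rw [indicator_of_mem h, indicator_of_mem (show p ∈ Prod.snd ⁻¹' (Ioc (0 : ℝ) 1) from h)]
    · rw [indicator_of_notMem h, indicator_of_notMem (show p ∉ Prod.snd ⁻¹' (Ioc (0 : ℝ) 1) from h)]
  rw [h2]
  exact h1.indicator (measurable_snd measurableSet_Ioc)

/-- joint measurability of the error term -/
theorem measurable_Err_joint (k M R : ℕ) (σ : Fin k → ℝ) {c : Finset (Fin k) → (Fin k → ℝ) → ℂ} (hc : ∀ J, Measurable (c J)) :
    AEStronglyMeasurable (fun p : (Fin k → ℝ) × ℝ =>
      Err (coef k M σ p.1) R (lamt σ p.1) (fun J => c J p.1) p.2)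
      ((volume : Measure (Fin k → ℝ)).prod (volume.restrict (Ioi 0))) := by
  unfold Err
  apply AEStronglyMeasurable.sub
  · refine aestronglyMeasurable_of_tendsto_ae atTop
      (f := fun n (p : (Fin k → ℝ) × ℝ) => ∑ d ∈ Finset.range n, coef k M σ p.1 d * (kR R (d * p.2) : ℂ))
      (fun n => ?_) ?_
    · apply Measurable.aestronglyMeasurable
      refine Finset.measurable_fun_sum _ fun d _ => ?_
      refine ((continuous_coef k M d σ).measurable.comp measurable_fst).mul ?_
      exact Complex.measurable_ofReal.comp ((measurable_kR R).comp (by fun_prop))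
    · have h1 : ∀ᵐ p : (Fin k → ℝ) × ℝ ∂((volume : Measure (Fin k → ℝ)).prod (volume.restrict (Ioi 0))),
          0 < p.2 := by
        have h2 : ∀ᵐ u : ℝ ∂(volume.restrict (Ioi (0 : ℝ))), 0 < u := ae_restrict_mem measurableSet_Ioi
        exact Measure.quasiMeasurePreserving_snd.ae h2
      filter_upwards [h1] with p hp
      exact tendsto_RZ _ R hp
  · unfold MTm
    apply Measurable.aestronglyMeasurable
    refine Finset.measurable_fun_sum _ fun J _ => ?_
    exact ((hc J).comp measurable_fst).mul (measurable_ind_cpow σ J)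

theorem measurable_Err_single (k M R : ℕ) (σ t : Fin k → ℝ) (c : Finset (Fin k) → ℂ) :
    AEStronglyMeasurable (Err (coef k M σ t) R (lamt σ t) c) (volume.restrict (Ioi 0)) := by
  unfold Err
  apply AEStronglyMeasurable.sub
  · refine aestronglyMeasurable_of_tendsto_ae atTop
      (f := fun n (u : ℝ) => ∑ d ∈ Finset.range n, coef k M σ t d * (kR R (d * u) : ℂ))
      (fun n => ?_) ?_
    · apply Measurable.aestronglyMeasurable
      refine Finset.measurable_fun_sum _ fun d _ => ?_
      exact measurable_const.mul (Complex.measurable_ofReal.comp ((measurable_kR R).comp (by fun_prop)))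
    · filter_upwards [ae_restrict_mem measurableSet_Ioi] with u hu
      exact tendsto_RZ _ R hu
  · unfold MTm
    apply Measurable.aestronglyMeasurable
    refine Finset.measurable_fun_sum _ fun J _ => ?_
    refine measurable_const.mul ?_
    exact (measurable_ind_cpow σ J).comp (by fun_prop : Measurable fun u : ℝ => (t, u))

theorem measurable_cpow_mul {f : ℝ → ℂ} (θ : ℝ) (hf : AEStronglyMeasurable f (volume.restrict (Ioi 0))) :
    AEStronglyMeasurable (fun u : ℝ => (u : ℂ) ^ ((θ : ℂ) - 1) • f u) (volume.restrict (Ioi 0)) := by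
  refine AEStronglyMeasurable.mul ?_ hf
  refine ContinuousOn.aestronglyMeasurable ?_ measurableSet_Ioi
  intro u hu
  exact (continuousAt_ofReal_cpow_const u _ (Or.inr (ne_of_gt hu))).continuousWithinAt

/-- A bound of the error term gives convergence of the Mellin transform. -/
theorem mellin_of_bound {f : ℝ → ℂ} (hf : AEStronglyMeasurable f (volume.restrict (Ioi 0)))
    (hf1 : ∀ u, 1 < u → f u = 0) {θ θ' K : ℝ} (hθ : θ < θ') (hb : ∀ u, 0 < u → u ≤ 1 → ‖f u‖ ≤ K * u ^ (-θ)) :
    MellinConvergent f θ' ∧ ∫ u in Ioi (0 : ℝ), ‖(u : ℂ) ^ ((θ' : ℂ) - 1) • f u‖ ≤ K / (θ' - θ) := by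
  have hpos : 0 < θ' - θ := by linarith
  have hint : IntegrableOn (fun u : ℝ => K * u ^ (θ' - θ - 1)) (Ioc 0 1) := by
    apply Integrable.const_mul
    exact (intervalIntegrable_iff_integrableOn_Ioc_of_le zero_le_one).mp
      (intervalIntegral.intervalIntegrable_rpow' (by linarith))
  have hval : ∫ u in Ioc (0 : ℝ) 1, K * u ^ (θ' - θ - 1) = K / (θ' - θ) := by
    rw [integral_const_mul, ← intervalIntegral.integral_of_le zero_le_one,
      integral_rpow (Or.inl (by linarith))]
    rw [show θ' - θ - 1 + 1 = θ' - θ by ring, Real.one_rpow, Real.zero_rpow hpos.ne']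
    ring
  have hdom : ∀ u ∈ Ioi (0 : ℝ), ‖(u : ℂ) ^ ((θ' : ℂ) - 1) • f u‖ ≤
      (Ioc (0 : ℝ) 1).indicator (fun u : ℝ => K * u ^ (θ' - θ - 1)) u := by
    intro u hu
    have hu0 : (0 : ℝ) < u := hu
    by_cases h : u ≤ 1
    · rw [indicator_of_mem (show u ∈ Ioc (0 : ℝ) 1 from ⟨hu, h⟩), norm_smul,
        norm_cpow_eq_rpow_re_of_pos hu0]
      simp only [sub_re, ofReal_re, one_re]
      calc u ^ (θ' - 1) * ‖f u‖ ≤ u ^ (θ' - 1) * (K * u ^ (-θ)) := by
            apply mul_le_mul_of_nonneg_left (hb u hu0 h) (by positivity)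
        _ = K * (u ^ (θ' - 1) * u ^ (-θ)) := by ring
        _ = K * u ^ (θ' - θ - 1) := by
            rw [← Real.rpow_add hu0]; congr 2; ring
    · rw [indicator_of_notMem (fun h2 => h h2.2), hf1 u (not_le.mp h)]
      simp
  have hint2 : IntegrableOn ((Ioc (0 : ℝ) 1).indicator (fun u : ℝ => K * u ^ (θ' - θ - 1))) (Ioi 0) := by
    apply Integrable.integrableOn
    rw [integrable_indicator_iff measurableSet_Ioc]
    exact hint
  constructor
  · exact Integrable.mono' hint2 (measurable_cpow_mul θ' hf)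
      ((ae_restrict_mem measurableSet_Ioi).mono fun u hu => hdom u hu)
  · refine (integral_mono_of_nonneg (Filter.Eventually.of_forall fun u => norm_nonneg _) hint2
      ((ae_restrict_mem measurableSet_Ioi).mono fun u hu => hdom u hu)).trans ?_
    rw [setIntegral_indicator measurableSet_Ioc, inter_eq_self_of_subset_right Ioc_subset_Ioi_self, hval]

theorem Asymp.weak {k M : ℕ} {σ : Fin k → ℝ} {θ : ℝ} (h : Asymp k M σ θ) {θ' : ℝ} (hθ : θ < θ') : WeakAsymp k M σ θ' := by
  obtain ⟨R, N, C, hC⟩ := h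
  have hpos : 0 < θ' - θ := by linarith
  refine ⟨R, N + (k + 1), fun t => |C| * (1 + ‖t‖) ^ N / (θ' - θ), fun t => by positivity, ?_, ?_⟩
  · have h1 := (integrable_pow_sup k (Nat.lt_succ_self k)).const_mul (|C| / (θ' - θ))
    refine h1.congr (Filter.Eventually.of_forall fun t => ?_)
    simp only
    rw [pow_add, mul_inv]
    have : (1 + ‖t‖) ^ N ≠ 0 := by positivity
    field_simp
  · filter_upwards [ae_generic k] with t ht
    obtain ⟨c, hc⟩ := hC t ht
    refine ⟨c, mellin_of_bound (measurable_Err_single k M R σ t c)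
      (fun u hu => Err_zero (coef_zero k M σ t) R (lamt σ t) c hu) hθ ?_⟩
    intro u hu hu1
    rw [Err_eq M R c σ t hu hu1]
    refine (hc (1 / u) (by rw [le_div_iff₀ hu]; linarith)).trans ?_
    rw [one_div, Real.inv_rpow hu.le, ← Real.rpow_neg hu.le]
    have := le_abs_self C
    gcongr

end Pool.Agent.MDSM
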